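import Mathlib

set_option autoImplicit false

/-!
Project KA (helper30): the capacitated packing of k-arborescences (MP_e457e7_co) for digraphs `D`
such that `D - r0` has treewidth at most two (all k, l, all capacities).
-/

namespace Pool.Agent.T2h30.KA

open Finset

/-- Spanning arborescence rooted at `r0`, as in the frozen statement. -/
def IsArb {V A : Type} (tail head : A → V) (r0 : V) (T : Finset A) : Prop :=
  (∀ a ∈ T, head a ≠ r0) ∧
  (∀ v : V, v ≠ r0 → ∃! a : A, a ∈ T ∧ head a = v) ∧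
  (∀ v : V, Relation.ReflTransGen (fun x y : V => ∃ a ∈ T, tail a = x ∧ head a = y) r0 v)

/-- Total weight of the arcs with both ends in `X`. -/
def inner {V A : Type} [Fintype A] [DecidableEq V] (tail head : A → V) (x : A → ℕ)
    (X : Finset V) : ℕ :=
  ∑ a ∈ univ.filter (fun a => tail a ∈ X ∧ head a ∈ X), x a

/-- `x` is (the weight function of) a `k`-arborescence with multiplicities: in-degree `k` at every
`v ≠ r0`, nothing enters `r0`, and every nonempty `X` without `r0` contains at most `k(|X|-1)`. -/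
def Good {V A : Type} [Fintype A] [DecidableEq V] (tail head : A → V) (r0 : V) (k : ℕ)
    (x : A → ℕ) : Prop :=
  (∀ v, v ≠ r0 → ∑ a ∈ univ.filter (fun a => head a = v), x a = k) ∧
  (∀ a, head a = r0 → x a = 0) ∧
  ∀ X : Finset V, X.Nonempty → r0 ∉ X → inner tail head x X + k ≤ k * X.card

/-- Total weight of the unordered pairs inside `X`. -/
def esum {V : Type} [DecidableEq V] (w : Sym2 V → ℕ) (X : Finset V) : ℕ := ∑ e ∈ X.sym2, w e

/-- Number of pairs of odd weight inside `X` which `σ` does not match inside `X`. -/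
def unm {V : Type} [DecidableEq V] (w : Sym2 V → ℕ) (σ : Sym2 V → Sym2 V) (X : Finset V) : ℕ :=
  (X.sym2.filter (fun e => w e % 2 = 1 ∧ (σ e = e ∨ σ e ∉ X.sym2))).card

/-- Elimination schemes of width two: the vertices of `S` can be deleted one by one such that the
vertex `v` deleted at each step has at most two `adj`-neighbours `u`, `t` left, which are `adj` if
there are two. -/
inductive TW2 {V : Type} [DecidableEq V] (adj : V → V → Prop) : Finset V → Prop
  | empty : TW2 adj ∅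
  | step (S : Finset V) (v u t : V) (hv : v ∈ S)
      (hN : ∀ x ∈ S, x ≠ v → adj v x → x = u ∨ x = t)
      (hadj : u ∈ S → t ∈ S → u ≠ t → u ≠ v → t ≠ v → adj v u → adj v t → adj u t)
      (h : TW2 adj (S.erase v)) : TW2 adj S

/-- START: from the packing of `k*l` arborescences to `l` Good weight functions. -/
def S_START : Prop :=
  ∀ (V A : Type) [Fintype V] [Fintype A] [DecidableEq V] [DecidableEq A]
    (tail head : A → V) (r0 : V) (c : A → ℕ) (k l : ℕ) (T : Fin (k * l) → Finset A),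
    (∀ i, IsArb tail head r0 (T i)) →
    (∀ a : A, (univ.filter (fun i => a ∈ T i)).card ≤ c a) →
    ∃ χ : Fin l → A → ℕ, (∀ i, Good tail head r0 k (χ i)) ∧ ∀ a, ∑ i, χ i a ≤ c a

/-- EDM: a Good set of arcs is the union of `k` disjoint arborescences. -/
def S_EDM : Prop :=
  ∀ (V A : Type) [Fintype V] [Fintype A] [DecidableEq V] [DecidableEq A]
    (tail head : A → V) (r0 : V) (k : ℕ) (F : Finset A),
    Good tail head r0 k (fun a => if a ∈ F then 1 else 0) →
    ∃ B : Fin k → Finset A, (∀ j, IsArb tail head r0 (B j)) ∧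
      (∀ j j' : Fin k, j ≠ j' → Disjoint (B j) (B j')) ∧ ∀ j, B j ⊆ F

/-- COL1: if all fibres of `f` on `O` are even, there is a fixed point free involution of `O`
preserving `f`. -/
def S_COL1 : Prop :=
  ∀ (A V : Type) [DecidableEq A] [DecidableEq V] (f : A → V) (O : Finset A),
    (∀ v, Even (O.filter (fun a => f a = v)).card) →
    ∃ P : A → A, ∀ a ∈ O, P a ∈ O ∧ P (P a) = a ∧ P a ≠ a ∧ f (P a) = f a

/-- COL2: two involutions `P` (fixed point free) and `μ` (fixed points allowed) of a finite set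
have an alternating colouring. -/
def S_COL2 : Prop :=
  ∀ (A : Type) [DecidableEq A] (O : Finset A) (P μ : A → A),
    (∀ a ∈ O, P a ∈ O ∧ P (P a) = a ∧ P a ≠ a) →
    (∀ a ∈ O, μ a ∈ O ∧ μ (μ a) = a) →
    ∃ z : A → ℤ, (∀ a ∈ O, z a = 1 ∨ z a = -1) ∧ (∀ a, a ∉ O → z a = 0) ∧
      (∀ a ∈ O, z (P a) = - z a) ∧ ∀ a ∈ O, μ a ≠ a → z (μ a) = - z a

/-- SP: the matching of the odd pairs for elimination schemes of width two. -/
def S_SP : Prop :=
  ∀ (V : Type) [DecidableEq V] (adj : V → V → Prop) (S : Finset V), (∀ x y, adj x y → adj y x) →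
    TW2 adj S → ∀ (k : ℕ) (w : Sym2 V → ℕ),
    (∀ x ∈ S, ∀ y ∈ S, x ≠ y → 0 < w s(x, y) → adj x y) →
    (∀ X ⊆ S, X.Nonempty → esum w X + 2 * k ≤ 2 * k * X.card) →
    ∃ σ : Sym2 V → Sym2 V,
      (∀ e ∈ S.sym2, w e % 2 = 1 → σ e ∈ S.sym2 ∧ w (σ e) % 2 = 1 ∧ σ (σ e) = e) ∧
      ∀ X ⊆ S, X.Nonempty → esum w X + 2 * k + unm w σ X ≤ 2 * k * X.card

/-- MU: lifting a matching of odd classes to a matching of the elements. -/
def S_MU : Prop :=
  ∀ (A K : Type) [DecidableEq A] [DecidableEq K] (O : Finset A) (cl : A → K) (Y0 : Finset K)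
    (σ : K → K), (∀ a ∈ O, cl a ∈ Y0) →
    (∀ e ∈ Y0, (O.filter (fun a => cl a = e)).card % 2 = 1 →
      σ e ∈ Y0 ∧ (O.filter (fun a => cl a = σ e)).card % 2 = 1 ∧ σ (σ e) = e) →
    ∃ μ : A → A, (∀ a ∈ O, μ a ∈ O ∧ μ (μ a) = a) ∧
      ∀ Y : Finset K, Y ⊆ Y0 →
        (O.filter (fun a => cl a ∈ Y ∧ (μ a = a ∨ cl (μ a) ∉ Y))).card ≤
        (Y.filter (fun e => (O.filter (fun a => cl a = e)).card % 2 = 1 ∧
          (σ e = e ∨ σ e ∉ Y))).card

/-- TWO: resplitting two Good weight functions as evenly as possible. -/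
def S_TWO : Prop :=
  ∀ (V A : Type) [Fintype V] [Fintype A] [DecidableEq V] [DecidableEq A]
    (adj : V → V → Prop) (tail head : A → V) (r0 : V) (k : ℕ) (x0 y0 : A → ℕ),
    (∀ x y, adj x y → adj y x) → TW2 adj (univ.erase r0) →
    (∀ a, tail a ≠ r0 → head a ≠ r0 → tail a ≠ head a → adj (tail a) (head a)) →
    Good tail head r0 k x0 → Good tail head r0 k y0 →
    ∃ x y : A → ℕ, (∀ a, x a + y a = x0 a + y0 a) ∧ (∀ a, x a ≤ y a + 1 ∧ y a ≤ x a + 1) ∧
      Good tail head r0 k x ∧ Good tail head r0 k y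

/-- POT: if any two Good weight functions can be evenly resplit, then a family of `l` Good weight
functions with total at most `l` on every arc can be changed to one with values at most one. -/
def S_POT : Prop :=
  ∀ (V A : Type) [Fintype V] [Fintype A] [DecidableEq V] [DecidableEq A]
    (tail head : A → V) (r0 : V) (k l : ℕ),
    (∀ x0 y0 : A → ℕ, Good tail head r0 k x0 → Good tail head r0 k y0 →
      ∃ x y : A → ℕ, (∀ a, x a + y a = x0 a + y0 a) ∧ (∀ a, x a ≤ y a + 1 ∧ y a ≤ x a + 1) ∧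
        Good tail head r0 k x ∧ Good tail head r0 k y) →
    ∀ χ : Fin l → A → ℕ, (∀ i, Good tail head r0 k (χ i)) → (∀ a, ∑ i, χ i a ≤ l) →
    ∃ χ' : Fin l → A → ℕ, (∀ i, Good tail head r0 k (χ' i)) ∧
      (∀ a, ∑ i, χ' i a = ∑ i, χ i a) ∧ ∀ i a, χ' i a ≤ 1

/-- ORD: elimination orderings of width two give `TW2`. -/
def S_ORD : Prop :=
  ∀ (V : Type) [DecidableEq V] (adj : V → V → Prop) (ord : V → ℕ) (S : Finset V),
    (∀ x y, adj x y → adj y x) → Set.InjOn ord (S : Set V) →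
    (∀ v ∈ S, ∀ T : Finset V, T ⊆ S → (∀ x ∈ T, ord v < ord x ∧ adj v x) → T.card ≤ 2) →
    (∀ v ∈ S, ∀ x ∈ S, ∀ y ∈ S, ord v < ord x → ord v < ord y → adj v x → adj v y → x ≠ y →
      adj x y) →
    TW2 adj S

/-- The goal. -/
def S_MAIN : Prop :=
  ∀ (V A : Type) [Fintype V] [Fintype A] [DecidableEq V] [DecidableEq A]
    (tail head : A → V) (r0 : V) (c : A → ℕ) (k l : ℕ) (adj : V → V → Prop) (ord : V → ℕ),
    (∀ x y, adj x y → adj y x) → Function.Injective ord →
    (∀ a, tail a ≠ r0 → head a ≠ r0 → tail a ≠ head a → adj (tail a) (head a)) →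
    (∀ v, v ≠ r0 → ∀ T : Finset V, (∀ x ∈ T, x ≠ r0 ∧ ord v < ord x ∧ adj v x) → T.card ≤ 2) →
    (∀ v x y, v ≠ r0 → x ≠ r0 → y ≠ r0 → ord v < ord x → ord v < ord y → adj v x → adj v y →
      x ≠ y → adj x y) →
    (∀ a : A, c a ≤ l) →
    (∃ T : Fin (k * l) → Finset A, (∀ i, IsArb tail head r0 (T i)) ∧
      ∀ a : A, (univ.filter (fun i => a ∈ T i)).card ≤ c a) →
    ∃ B : Fin l → Fin k → Finset A, (∀ i j, IsArb tail head r0 (B i j)) ∧
      (∀ i : Fin l, ∀ j j' : Fin k, j ≠ j' → Disjoint (B i j) (B i j')) ∧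
      ∀ a : A, (univ.filter (fun p : Fin l × Fin k => a ∈ B p.1 p.2)).card ≤ c a

end Pool.Agent.T2h30.KA
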