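import Pool.Agent.T2h30.KA.Defs

set_option autoImplicit false

/-!
Project KA, second part: elimination schemes with directed steps (Kelly-width two).
-/

namespace Pool.Agent.T2h30.KA

open Finset

/-- `X` is nonempty and strongly connected under `R` inside `X`. -/
def Rlv {V : Type} (R : V → V → Prop) (X : Finset V) : Prop :=
  X.Nonempty ∧ ∀ x ∈ X, ∀ y ∈ X, Relation.ReflTransGen (fun a b => a ∈ X ∧ b ∈ X ∧ R a b) x y

/-- Directed elimination schemes: the deleted vertex `v` has at most two neighbours `u`, `t` left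
(then these are joined in both directions), or at most one out-neighbour `u` left (then all its
in-neighbours are joined to `u`). -/
inductive EL {V : Type} [DecidableEq V] (R : V → V → Prop) : Finset V → Prop
  | empty : EL R ∅
  | two (S : Finset V) (v u t : V) (hv : v ∈ S)
      (hN : ∀ x ∈ S, x ≠ v → (R v x ∨ R x v) → x = u ∨ x = t)
      (hadj : u ∈ S → t ∈ S → u ≠ t → u ≠ v → t ≠ v → (R v u ∨ R u v) → (R v t ∨ R t v) →
        R u t ∧ R t u)
      (h : EL R (S.erase v)) : EL R S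
  | one (S : Finset V) (v u : V) (hv : v ∈ S)
      (hout : ∀ x ∈ S, x ≠ v → R v x → x = u)
      (hin : ∀ a ∈ S, a ≠ v → a ≠ u → R a v → R v u → u ∈ S → u ≠ v → R a u)
      (h : EL R (S.erase v)) : EL R S

/-- `σ` is an involution of the odd pairs inside `S`. -/
def Inv {V : Type} [DecidableEq V] (w : Sym2 V → ℕ) (S : Finset V) (σ : Sym2 V → Sym2 V) : Prop :=
  ∀ e ∈ S.sym2, w e % 2 = 1 → σ e ∈ S.sym2 ∧ w (σ e) % 2 = 1 ∧ σ (σ e) = e

/-- FLIP: changing the parity at two pairs `p ≠ q`. -/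
def S_FLIP : Prop :=
  ∀ (V : Type) [DecidableEq V] (S : Finset V) (w w1 : Sym2 V → ℕ) (p q : Sym2 V)
    (σ1 : Sym2 V → Sym2 V), p ∈ S.sym2 → q ∈ S.sym2 → p ≠ q →
    (∀ e, (w e % 2 ≠ w1 e % 2) ↔ (e = p ∨ e = q)) → Inv w1 S σ1 →
    ∃ σ : Sym2 V → Sym2 V, Inv w S σ ∧
      ∀ X ⊆ S, unm w σ X ≤ unm w1 σ1 X +
        (if (p ∈ X.sym2 ∧ q ∉ X.sym2) ∨ (p ∉ X.sym2 ∧ q ∈ X.sym2) then 1 else 0)

/-- BASE: adding a vertex `v` whose total weight (with the loop) is at most `2k`. -/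
def S_BASE : Prop :=
  ∀ (V : Type) [DecidableEq V] (S : Finset V) (v : V) (k : ℕ) (w : Sym2 V → ℕ)
    (σ' : Sym2 V → Sym2 V), v ∈ S → w s(v, v) + ∑ a ∈ S.erase v, w s(v, a) ≤ 2 * k →
    Inv w (S.erase v) σ' →
    ∃ σ : Sym2 V → Sym2 V, Inv w S σ ∧
      (∀ X ⊆ S.erase v, unm w σ X ≤ unm w σ' X) ∧
      ∀ X ⊆ S.erase v,
        esum w (insert v X) + unm w σ (insert v X) ≤ esum w X + unm w σ' X + 2 * k

/-- Adding `n a` to the weight of the pair `{a, u}` for all `a`. -/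
def addn {V : Type} [DecidableEq V] (w : Sym2 V → ℕ) (u : V) (S : Finset V) (n : V → ℕ) :
    Sym2 V → ℕ :=
  fun e => w e + ∑ a ∈ S, if e = s(a, u) then n a else 0

/-- R2Q: complete splitting at `v` through `u`, by induction on `t`. -/
def S_R2Q : Prop :=
  ∀ (V : Type) [DecidableEq V] (S : Finset V) (v u : V) (k t : ℕ) (w : Sym2 V → ℕ),
    v ∈ S → u ∈ S.erase v →
    (∀ X ⊆ S.erase v, X.Nonempty → esum w X + 2 * k ≤ 2 * k * X.card) →
    (∀ X ⊆ S.erase v, u ∈ X → esum w (insert v X) ≤ 2 * k * X.card) →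
    w s(v, v) + ∑ a ∈ S.erase v, w s(v, a) ≤ 2 * k + t →
    (0 < t → w s(v, v) + ∑ a ∈ S.erase v, w s(v, a) = 2 * k + t) →
    w s(v, v) + ∑ a ∈ (S.erase v).erase u, w s(v, a) ≤ 2 * k →
    ∃ n : V → ℕ, (∀ a, 0 < n a → a ∈ (S.erase v).erase u ∧ 0 < w s(v, a)) ∧
      ∑ a ∈ S.erase v, n a ≤ t ∧
      (∀ X ⊆ S.erase v, X.Nonempty →
        esum (addn w u (S.erase v) n) X + 2 * k ≤ 2 * k * X.card) ∧
      ∀ σ' : Sym2 V → Sym2 V, Inv (addn w u (S.erase v) n) (S.erase v) σ' →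
        ∃ σ : Sym2 V → Sym2 V, Inv w S σ ∧
          (∀ X ⊆ S.erase v, X.Nonempty → esum w X + unm w σ X ≤
            esum (addn w u (S.erase v) n) X + unm (addn w u (S.erase v) n) σ' X) ∧
          ∀ X ⊆ S.erase v, u ∈ X → esum w (insert v X) + unm w σ (insert v X) ≤
            esum (addn w u (S.erase v) n) X + unm (addn w u (S.erase v) n) σ' X + 2 * k

/-- REL: deleting a vertex from a strongly connected set. -/
def S_REL : Prop :=
  ∀ (V : Type) [DecidableEq V] (R : V → V → Prop) (X : Finset V) (v : V), Rlv R X → v ∈ X →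
    (X.erase v).Nonempty →
    (∃ b ∈ X, b ≠ v ∧ R v b) ∧
    ((∀ a ∈ X, ∀ b ∈ X, a ≠ v → b ≠ v → R a v → R v b → a ≠ b → R a b) → Rlv R (X.erase v))

/-- SRC: every nonempty finite set contains a strongly connected part into which no arc of `R`
leads from the rest. -/
def S_SRC : Prop :=
  ∀ (V : Type) [DecidableEq V] (R : V → V → Prop) (X : Finset V), X.Nonempty →
    ∃ X0 ⊆ X, Rlv R X0 ∧ ∀ a ∈ X, ∀ b ∈ X0, R a b → a ∈ X0

/-- SP2: the matching of the odd pairs for directed elimination schemes. -/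
def S_SP2 : Prop :=
  ∀ (V : Type) [DecidableEq V] (R : V → V → Prop) (S : Finset V), EL R S →
    ∀ (k : ℕ) (w : Sym2 V → ℕ) (d : V → V → ℕ),
    (∀ x ∈ S, ∀ y ∈ S, x ≠ y → w s(x, y) = d x y + d y x) →
    (∀ x ∈ S, ∀ y ∈ S, x ≠ y → 0 < d x y → R x y) →
    (∀ y ∈ S, ∑ x ∈ S.erase y, d x y ≤ 2 * k) →
    (∀ X ⊆ S, X.Nonempty → esum w X + 2 * k ≤ 2 * k * X.card) →
    ∃ σ : Sym2 V → Sym2 V, Inv w S σ ∧
      ∀ X ⊆ S, Rlv R X → esum w X + 2 * k + unm w σ X ≤ 2 * k * X.card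

/-- TWO2: resplitting, for directed elimination schemes. -/
def S_TWO2 : Prop :=
  ∀ (V A : Type) [Fintype V] [Fintype A] [DecidableEq V] [DecidableEq A]
    (R : V → V → Prop) (tail head : A → V) (r0 : V) (k : ℕ) (x0 y0 : A → ℕ),
    EL R (univ.erase r0) →
    (∀ a, tail a ≠ r0 → head a ≠ r0 → tail a ≠ head a → R (tail a) (head a)) →
    Good tail head r0 k x0 → Good tail head r0 k y0 →
    ∃ x y : A → ℕ, (∀ a, x a + y a = x0 a + y0 a) ∧ (∀ a, x a ≤ y a + 1 ∧ y a ≤ x a + 1) ∧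
      Good tail head r0 k x ∧ Good tail head r0 k y

end Pool.Agent.T2h30.KA
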