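import Pool.Agent.T2h30.KA.Defs2

set_option autoImplicit false

/-!
Project KA, third part: elimination schemes with one out-neighbour or one in-neighbour.
-/

namespace Pool.Agent.T2h30.KA

open Finset

/-- Mixed elimination schemes: the deleted vertex `v` has at most two neighbours `u`, `t` left
(then these are joined in both directions), or at most one out-neighbour `u` left (then all its
in-neighbours are joined to `u`), or at most one in-neighbour `u` left (then `u` is joined to all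
its out-neighbours). -/
inductive EL3 {V : Type} [DecidableEq V] (R : V → V → Prop) : Finset V → Prop
  | empty : EL3 R ∅
  | two (S : Finset V) (v u t : V) (hv : v ∈ S)
      (hN : ∀ x ∈ S, x ≠ v → (R v x ∨ R x v) → x = u ∨ x = t)
      (hadj : u ∈ S → t ∈ S → u ≠ t → u ≠ v → t ≠ v → (R v u ∨ R u v) → (R v t ∨ R t v) →
        R u t ∧ R t u)
      (h : EL3 R (S.erase v)) : EL3 R S
  | out (S : Finset V) (v u : V) (hv : v ∈ S)
      (hout : ∀ x ∈ S, x ≠ v → R v x → x = u)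
      (hin : ∀ a ∈ S, a ≠ v → a ≠ u → R a v → R v u → u ∈ S → u ≠ v → R a u)
      (h : EL3 R (S.erase v)) : EL3 R S
  | inn (S : Finset V) (v u : V) (hv : v ∈ S)
      (hin : ∀ x ∈ S, x ≠ v → R x v → x = u)
      (hout : ∀ b ∈ S, b ≠ v → b ≠ u → R v b → R u v → u ∈ S → u ≠ v → R u b)
      (h : EL3 R (S.erase v)) : EL3 R S

/-- R3Q: shifting pairs `{v,a}` to `{u,a}` until the total weight at `v` is `2k`. -/
def S_R3Q : Prop :=
  ∀ (V : Type) [DecidableEq V] (S : Finset V) (v u : V) (k t : ℕ) (w : Sym2 V → ℕ),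
    v ∈ S → u ∈ S.erase v →
    (∀ X ⊆ S.erase v, X.Nonempty → esum w X + 2 * k ≤ 2 * k * X.card) →
    (∀ X ⊆ S.erase v, u ∈ X → esum w (insert v X) ≤ 2 * k * X.card) →
    w s(v, v) + ∑ a ∈ S.erase v, w s(v, a) ≤ 2 * k + t →
    ∃ n : V → ℕ, (∀ a, 0 < n a → a ∈ (S.erase v).erase u) ∧ (∀ a, n a ≤ w s(v, a)) ∧
      ∑ a ∈ S.erase v, n a ≤ t ∧
      (∀ X ⊆ S.erase v, X.Nonempty →
        esum (addn w u (S.erase v) n) X + 2 * k ≤ 2 * k * X.card) ∧
      ∀ σ' : Sym2 V → Sym2 V, Inv (addn w u (S.erase v) n) (S.erase v) σ' →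
        ∃ σ : Sym2 V → Sym2 V, Inv w S σ ∧
          (∀ X ⊆ S.erase v, X.Nonempty → esum w X + unm w σ X ≤
            esum (addn w u (S.erase v) n) X + unm (addn w u (S.erase v) n) σ' X) ∧
          ∀ X ⊆ S.erase v, u ∈ X → esum w (insert v X) + unm w σ (insert v X) ≤
            esum (addn w u (S.erase v) n) X + unm (addn w u (S.erase v) n) σ' X + 2 * k

/-- SP3: the matching of the odd pairs for mixed elimination schemes. -/
def S_SP3 : Prop :=
  ∀ (V : Type) [DecidableEq V] (R : V → V → Prop) (S : Finset V), EL3 R S →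
    ∀ (k : ℕ) (w : Sym2 V → ℕ) (d : V → V → ℕ),
    (∀ x ∈ S, ∀ y ∈ S, x ≠ y → w s(x, y) = d x y + d y x) →
    (∀ x ∈ S, ∀ y ∈ S, x ≠ y → 0 < d x y → R x y) →
    (∀ y ∈ S, ∑ x ∈ S.erase y, d x y ≤ 2 * k) →
    (∀ X ⊆ S, X.Nonempty → esum w X + 2 * k ≤ 2 * k * X.card) →
    ∃ σ : Sym2 V → Sym2 V, Inv w S σ ∧
      ∀ X ⊆ S, Rlv R X → esum w X + 2 * k + unm w σ X ≤ 2 * k * X.card

/-- TWO3: resplitting, for mixed elimination schemes. -/
def S_TWO3 : Prop :=
  ∀ (V A : Type) [Fintype V] [Fintype A] [DecidableEq V] [DecidableEq A]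
    (R : V → V → Prop) (tail head : A → V) (r0 : V) (k : ℕ) (x0 y0 : A → ℕ),
    EL3 R (univ.erase r0) →
    (∀ a, tail a ≠ r0 → head a ≠ r0 → tail a ≠ head a → R (tail a) (head a)) →
    Good tail head r0 k x0 → Good tail head r0 k y0 →
    ∃ x y : A → ℕ, (∀ a, x a + y a = x0 a + y0 a) ∧ (∀ a, x a ≤ y a + 1 ∧ y a ≤ x a + 1) ∧
      Good tail head r0 k x ∧ Good tail head r0 k y

end Pool.Agent.T2h30.KA
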