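import Pool.Agent.T2h30.KA.Defs3

set_option autoImplicit false

/-!
Project KA, fourth part: elimination schemes with a dominating vertex.
-/

namespace Pool.Agent.T2h30.KA

open Finset

/-- Elimination schemes: the deleted vertex `v` has at most two neighbours `u`, `t` left (then
these are joined in both directions), or there is a vertex `u ≠ v` which lies in every strongly
connected set of at least two of the remaining vertices containing `v` (then all in-neighbours
of `v` are joined to `u` and `u` is joined to all out-neighbours of `v`). -/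
inductive EL4 {V : Type} [DecidableEq V] (R : V → V → Prop) : Finset V → Prop
  | empty : EL4 R ∅
  | two (S : Finset V) (v u t : V) (hv : v ∈ S)
      (hN : ∀ x ∈ S, x ≠ v → (R v x ∨ R x v) → x = u ∨ x = t)
      (hadj : u ∈ S → t ∈ S → u ≠ t → u ≠ v → t ≠ v → (R v u ∨ R u v) → (R v t ∨ R t v) →
        R u t ∧ R t u)
      (h : EL4 R (S.erase v)) : EL4 R S
  | dom (S : Finset V) (v u : V) (hv : v ∈ S) (huv : u ≠ v)
      (hcyc : ∀ X ⊆ S, v ∈ X → Rlv R X → (X.erase v).Nonempty → u ∈ X)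
      (hin : ∀ a ∈ S, a ≠ v → a ≠ u → R a v → u ∈ S → R a u)
      (hout : ∀ b ∈ S, b ≠ v → b ≠ u → R v b → u ∈ S → R u b)
      (h : EL4 R (S.erase v)) : EL4 R S

/-- SP4: the matching of the odd pairs for elimination schemes with a dominating vertex. -/
def S_SP4 : Prop :=
  ∀ (V : Type) [DecidableEq V] (R : V → V → Prop) (S : Finset V), EL4 R S →
    ∀ (k : ℕ) (w : Sym2 V → ℕ),
    (∀ x ∈ S, ∀ y ∈ S, x ≠ y → 0 < w s(x, y) → R x y ∨ R y x) →
    (∀ X ⊆ S, X.Nonempty → esum w X + 2 * k ≤ 2 * k * X.card) →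
    ∃ σ : Sym2 V → Sym2 V, Inv w S σ ∧
      ∀ X ⊆ S, Rlv R X → esum w X + 2 * k + unm w σ X ≤ 2 * k * X.card

/-- TWO4: resplitting. -/
def S_TWO4 : Prop :=
  ∀ (V A : Type) [Fintype V] [Fintype A] [DecidableEq V] [DecidableEq A]
    (R : V → V → Prop) (tail head : A → V) (r0 : V) (k : ℕ) (x0 y0 : A → ℕ),
    EL4 R (univ.erase r0) →
    (∀ a, tail a ≠ r0 → head a ≠ r0 → tail a ≠ head a → R (tail a) (head a)) →
    Good tail head r0 k x0 → Good tail head r0 k y0 →
    ∃ x y : A → ℕ, (∀ a, x a + y a = x0 a + y0 a) ∧ (∀ a, x a ≤ y a + 1 ∧ y a ≤ x a + 1) ∧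
      Good tail head r0 k x ∧ Good tail head r0 k y

end Pool.Agent.T2h30.KA
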