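import Pool.Agent.T2h30.KA.SP1

set_option autoImplicit false

namespace Pool.Agent.T2h30.KA.SP
open Finset

variable {V : Type} [DecidableEq V]

/-- odd star elements at `v` inside `insert v X` not matched inside -/
def extra (w : Sym2 V → ℕ) (σ : Sym2 V → Sym2 V) (v : V) (X : Finset V) : Finset (Sym2 V) :=
  ((insert v X).sym2.filter (fun e => v ∈ e ∧ w e % 2 = 1 ∧ (σ e = e ∨ σ e ∉ (insert v X).sym2)))

theorem mem_extra {w : Sym2 V → ℕ} {σ : Sym2 V → Sym2 V} {v : V} {X : Finset V} {e : Sym2 V}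
    (hvv : w s(v, v) = 0) :
    e ∈ extra w σ v X ↔ ∃ x ∈ X, e = s(v, x) ∧ w e % 2 = 1 ∧
      (σ e = e ∨ σ e ∉ (insert v X).sym2) := by
  unfold extra
  rw [mem_filter]
  constructor
  · rintro ⟨h1, h2, h3, h4⟩
    obtain ⟨x, rfl⟩ := Sym2.mem_iff_exists.1 h2
    rw [Finset.mk_mem_sym2_iff] at h1
    rcases mem_insert.1 h1.2 with h5 | h5
    · subst h5; rw [hvv] at h3; omega
    · exact ⟨x, h5, rfl, h3, h4⟩
  · rintro ⟨x, hx, rfl, h3, h4⟩
    refine ⟨?_, ?_, h3, h4⟩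
    · rw [Finset.mk_mem_sym2_iff]; exact ⟨mem_insert_self _ _, mem_insert_of_mem hx⟩
    · exact Sym2.mem_mk_left _ _

theorem extra_card {w : Sym2 V → ℕ} {σ : Sym2 V → Sym2 V} {v u t : V} {X : Finset V}
    (hvX : v ∉ X) (hvv : w s(v, v) = 0) (hN : ∀ x ∈ X, 0 < w s(v, x) → x = u ∨ x = t)
    (hσ : u ∈ X → t ∈ X → u ≠ t → w s(v, u) % 2 = 1 → w s(v, t) % 2 = 1 →
      σ s(v, u) = s(v, t) ∧ σ s(v, t) = s(v, u)) :
    (extra w σ v X).card ≤ 1 ∧
    ((extra w σ v X).Nonempty → (∑ x ∈ X, w s(v, x)) % 2 = 1) := by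
  have key : ∀ x ∈ X, ∀ y ∈ X, x ≠ y → w s(v, x) % 2 = 1 → w s(v, y) % 2 = 1 →
      s(v, x) ∉ extra w σ v X := by
    intro x hx y hy hxy hox hoy he
    rw [mem_extra hvv] at he
    obtain ⟨z, hz, h1, h2, h3⟩ := he
    have hx' := hN x hx (by omega)
    have hy' := hN y hy (by omega)
    have hne : s(v, x) ≠ s(v, y) := by
      intro h
      rw [Sym2.eq_iff] at h
      rcases h with ⟨_, h⟩ | ⟨h, _⟩
      · exact hxy h
      · exact hvX (h ▸ hy)
    have hs : σ s(v, x) = s(v, y) := by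
      rcases hx' with rfl | rfl <;> rcases hy' with rfl | rfl
      · exact absurd rfl hxy
      · exact (hσ hx hy hxy hox hoy).1
      · exact (hσ hy hx (fun h => hxy h.symm) hoy hox).2
      · exact absurd rfl hxy
    rcases h3 with h3 | h3
    · rw [hs] at h3; exact hne h3.symm
    · rw [hs, Finset.mk_mem_sym2_iff] at h3
      exact h3 ⟨mem_insert_self _ _, mem_insert_of_mem hy⟩
  constructor
  · rw [card_le_one]
    intro e he e' he'
    have he0 := he
    have he0' := he'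
    rw [mem_extra hvv] at he he'
    obtain ⟨x, hx, rfl, h2, h3⟩ := he
    obtain ⟨y, hy, rfl, h2', h3'⟩ := he'
    by_contra hne
    have hxy : x ≠ y := fun h => hne (by rw [h])
    exact key x hx y hy hxy h2 h2' he0
  · rintro ⟨e, he⟩
    have he0 := he
    rw [mem_extra hvv] at he
    obtain ⟨x, hx, rfl, h2, h3⟩ := he
    rw [← add_sum_erase _ _ hx]
    have : (∑ y ∈ X.erase x, w s(v, y)) % 2 = 0 := by
      rw [← Nat.even_iff]
      apply Finset.even_sum
      intro y hy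
      rw [mem_erase] at hy
      rw [Nat.even_iff]
      by_contra h
      exact key x hx y hy.2 (fun h => hy.1 h.symm) h2 (by omega) he0
    omega

/-- monotonicity outside `v` -/
theorem unm_ins_le {w w' : Sym2 V → ℕ} {σ σ' : Sym2 V → Sym2 V} {v : V} {X : Finset V}
    (hvv : w s(v, v) = 0) (hvX : v ∉ X)
    (hsame : ∀ e ∈ X.sym2, w e % 2 = 1 → w' e % 2 = 1)
    (hσ : ∀ e ∈ X.sym2, w e % 2 = 1 → σ e = σ' e) :
    unm w σ (insert v X) ≤ unm w' σ' X + (extra w σ v X).card := by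
  unfold unm
  refine le_trans (card_le_card ?_) (card_union_le _ _)
  intro e he
  rw [mem_filter] at he
  obtain ⟨h1, h2, h3⟩ := he
  rw [mem_union]
  by_cases hve : v ∈ e
  · right
    unfold extra
    rw [mem_filter]
    exact ⟨h1, hve, h2, h3⟩
  · left
    have h4 : e ∈ X.sym2 := by
      rw [Finset.mem_sym2_iff] at h1 ⊢
      intro a ha
      rcases mem_insert.1 (h1 a ha) with h5 | h5
      · exact absurd (h5 ▸ ha) hve
      · exact h5
    rw [mem_filter]
    refine ⟨h4, hsame e h4 h2, ?_⟩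
    rw [hσ e h4 h2] at h3
    rcases h3 with h3 | h3
    · exact Or.inl h3
    · right
      intro h5
      apply h3
      rw [Finset.mem_sym2_iff] at h5 ⊢
      exact fun a ha => mem_insert_of_mem (h5 a ha)

theorem unm_mono {w w' : Sym2 V → ℕ} {σ σ' : Sym2 V → Sym2 V} {X : Finset V}
    (hsame : ∀ e ∈ X.sym2, w e % 2 = 1 → w' e % 2 = 1)
    (hσ : ∀ e ∈ X.sym2, w e % 2 = 1 → σ e = σ' e) :
    unm w σ X ≤ unm w' σ' X := by
  unfold unm
  apply card_le_card
  intro e he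
  rw [mem_filter] at he ⊢
  obtain ⟨h1, h2, h3⟩ := he
  refine ⟨h1, hsame e h1 h2, ?_⟩
  rw [hσ e h1 h2] at h3
  exact h3

/-- the matching used when the star at `v` is even or small -/
def sig1 (w : Sym2 V → ℕ) (S : Finset V) (v u t : V) (σ' : Sym2 V → Sym2 V) : Sym2 V → Sym2 V :=
  fun e => if e ∈ (S.erase v).sym2 then σ' e else
    if u ∈ S.erase v ∧ t ∈ S.erase v ∧ u ≠ t ∧ w s(v, u) % 2 = 1 ∧ w s(v, t) % 2 = 1 then
      (if e = s(v, u) then s(v, t) else if e = s(v, t) then s(v, u) else e)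
    else e

theorem sig1_inv {w w' : Sym2 V → ℕ} {S : Finset V} {v u t : V} {σ' : Sym2 V → Sym2 V}
    (hvS : v ∈ S) (hvv : w s(v, v) = 0)
    (hpar : ∀ e ∈ (S.erase v).sym2, w' e % 2 = w e % 2)
    (hσ' : ∀ e ∈ (S.erase v).sym2, w' e % 2 = 1 →
      σ' e ∈ (S.erase v).sym2 ∧ w' (σ' e) % 2 = 1 ∧ σ' (σ' e) = e) :
    ∀ e ∈ S.sym2, w e % 2 = 1 → sig1 w S v u t σ' e ∈ S.sym2 ∧
      w (sig1 w S v u t σ' e) % 2 = 1 ∧
      sig1 w S v u t σ' (sig1 w S v u t σ' e) = e := by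
  have hsub : ∀ e ∈ (S.erase v).sym2, e ∈ S.sym2 := by
    intro e he
    rw [Finset.mem_sym2_iff] at he ⊢
    exact fun a ha => erase_subset _ _ (he a ha)
  have hst : ∀ x : V, s(v, x) ∉ (S.erase v).sym2 := fun x => not_mem_star (notMem_erase v S)
  intro e he ho
  by_cases h1 : e ∈ (S.erase v).sym2
  · have h2 := hσ' e h1 (by rw [hpar e h1]; exact ho)
    have h3 : sig1 w S v u t σ' e = σ' e := by unfold sig1; rw [if_pos h1]
    rw [h3]
    refine ⟨hsub _ h2.1, by rw [← hpar _ h2.1]; exact h2.2.1, ?_⟩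
    unfold sig1
    rw [if_pos h2.1]
    exact h2.2.2
  · by_cases h2 : u ∈ S.erase v ∧ t ∈ S.erase v ∧ u ≠ t ∧ w s(v, u) % 2 = 1 ∧ w s(v, t) % 2 = 1
    · obtain ⟨hu, ht, hut, hou, hot⟩ := h2
      have hcond : (u ∈ S.erase v ∧ t ∈ S.erase v ∧ u ≠ t ∧ w s(v, u) % 2 = 1 ∧
        w s(v, t) % 2 = 1) := ⟨hu, ht, hut, hou, hot⟩
      have hne : s(v, t) ≠ s(v, u) := by
        intro h
        rw [Sym2.eq_iff] at h
        rcases h with ⟨_, h⟩ | ⟨h, _⟩
        · exact hut h.symm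
        · exact notMem_erase v S (h ▸ hu)
      by_cases h3 : e = s(v, u)
      · have h4 : sig1 w S v u t σ' e = s(v, t) := by
          unfold sig1; rw [if_neg h1, if_pos hcond, if_pos h3]
        rw [h4]
        refine ⟨?_, hot, ?_⟩
        · rw [Finset.mk_mem_sym2_iff]; exact ⟨hvS, erase_subset _ _ ht⟩
        · unfold sig1
          rw [if_neg (hst t), if_pos hcond, if_neg hne, if_pos rfl, h3]
      · by_cases h4 : e = s(v, t)
        · have h5 : sig1 w S v u t σ' e = s(v, u) := by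
            unfold sig1; rw [if_neg h1, if_pos hcond, if_neg h3, if_pos h4]
          rw [h5]
          refine ⟨?_, hou, ?_⟩
          · rw [Finset.mk_mem_sym2_iff]; exact ⟨hvS, erase_subset _ _ hu⟩
          · unfold sig1
            rw [if_neg (hst u), if_pos hcond, if_pos rfl, h4]
        · have h5 : sig1 w S v u t σ' e = e := by
            unfold sig1; rw [if_neg h1, if_pos hcond, if_neg h3, if_neg h4]
          rw [h5, h5]
          exact ⟨he, ho, rfl⟩
    · have h5 : sig1 w S v u t σ' e = e := by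
        unfold sig1; rw [if_neg h1, if_neg h2]
      rw [h5, h5]
      exact ⟨he, ho, rfl⟩

theorem sig1_star {w : Sym2 V → ℕ} {S : Finset V} {v u t : V} {σ' : Sym2 V → Sym2 V}
    {X : Finset V} (hX : X ⊆ S.erase v) :
    u ∈ X → t ∈ X → u ≠ t → w s(v, u) % 2 = 1 → w s(v, t) % 2 = 1 →
      sig1 w S v u t σ' s(v, u) = s(v, t) ∧ sig1 w S v u t σ' s(v, t) = s(v, u) := by
  intro hu ht hut hou hot
  have hst : ∀ x : V, s(v, x) ∉ (S.erase v).sym2 := fun x => not_mem_star (notMem_erase v S)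
  have hcond : (u ∈ S.erase v ∧ t ∈ S.erase v ∧ u ≠ t ∧ w s(v, u) % 2 = 1 ∧
    w s(v, t) % 2 = 1) := ⟨hX hu, hX ht, hut, hou, hot⟩
  have hne : s(v, t) ≠ s(v, u) := by
    intro h
    rw [Sym2.eq_iff] at h
    rcases h with ⟨_, h⟩ | ⟨h, _⟩
    · exact hut h.symm
    · exact notMem_erase v S (h ▸ hX hu)
  constructor
  · unfold sig1; rw [if_neg (hst u), if_pos hcond, if_pos rfl]
  · unfold sig1; rw [if_neg (hst t), if_pos hcond, if_neg hne, if_pos rfl]

end Pool.Agent.T2h30.KA.SP
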