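import Pool.Agent.T2h30.KA.Defs

/-! MU: lifting a matching of odd classes to a matching of the elements -/

set_option autoImplicit false

namespace Pool.Agent.T2h30.KA

open Finset

namespace MU

/-- an involution with at most one fixed point -/
theorem inv {A : Type} [DecidableEq A] (S : Finset A) : ∃ m : A → A,
    (∀ a ∈ S, m a ∈ S ∧ m (m a) = a) ∧ (∀ a ∈ S, ∀ b ∈ S, m a = a → m b = b → a = b) ∧
    (∀ a ∈ S, m a = a → S.card % 2 = 1) ∧ (S.card % 2 = 1 → ∃ a ∈ S, m a = a) := by
  induction S using Finset.strongInduction with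
  | H S ih =>
    by_cases hc : S.card ≤ 1
    · refine ⟨id, fun a ha => ⟨ha, rfl⟩, fun a ha b hb _ _ => card_le_one.1 hc a ha b hb,
        fun a ha _ => ?_, fun h => ?_⟩
      · have := card_pos.2 ⟨a, ha⟩
        omega
      · obtain ⟨a, ha⟩ := card_pos.1 (show 0 < S.card by omega)
        exact ⟨a, ha, rfl⟩
    · obtain ⟨a, ha, b, hb, hab⟩ := one_lt_card.1 (not_le.1 hc)
      set S' := (S.erase a).erase b with hS'
      have hmem : ∀ x, x ∈ S' ↔ x ≠ b ∧ x ≠ a ∧ x ∈ S := fun x => by
        rw [hS', mem_erase, mem_erase]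
      have hcard : S'.card = S.card - 1 - 1 := by
        rw [hS', card_erase_of_mem (mem_erase.2 ⟨hab.symm, hb⟩), card_erase_of_mem ha]
      have hss : S' ⊂ S := by
        refine ⟨fun x hx => ((hmem x).1 hx).2.2, fun h => ?_⟩
        exact ((hmem a).1 (h ha)).2.1 rfl
      obtain ⟨m, h1, h2, h3, h4⟩ := ih S' hss
      have key : ∀ x ∈ S, x ≠ a → x ≠ b → x ∈ S' := fun x hx hxa hxb => (hmem x).2 ⟨hxb, hxa, hx⟩
      have key2 : ∀ x ∈ S', m x ≠ a ∧ m x ≠ b ∧ m x ∈ S := fun x hx => by
        obtain ⟨q1, q2, q3⟩ := (hmem (m x)).1 (h1 x hx).1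
        exact ⟨q2, q1, q3⟩
      refine ⟨fun x => if x = a then b else if x = b then a else m x, ?_, ?_, ?_, ?_⟩
      · intro x hx
        by_cases hxa : x = a
        · subst hxa
          simp only [if_true, if_neg hab.symm]
          exact ⟨hb, trivial⟩
        · by_cases hxb : x = b
          · subst hxb
            simp only [if_neg hxa, if_true]
            exact ⟨ha, trivial⟩
          · have hx' := key x hx hxa hxb
            obtain ⟨q1, q2, q3⟩ := key2 x hx'
            simp only [if_neg hxa, if_neg hxb, if_neg q1, if_neg q2]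
            exact ⟨q3, (h1 x hx').2⟩
      · intro x hx y hy hfx hfy
        have hfix : ∀ x ∈ S, (if x = a then b else if x = b then a else m x) = x →
            x ∈ S' ∧ m x = x := by
          intro x hx hf
          by_cases hxa : x = a
          · rw [if_pos hxa] at hf
            exact absurd (hf.trans hxa).symm hab
          · by_cases hxb : x = b
            · rw [if_neg hxa, if_pos hxb] at hf
              exact absurd (hf.trans hxb) hab
            · rw [if_neg hxa, if_neg hxb] at hf
              exact ⟨key x hx hxa hxb, hf⟩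
        obtain ⟨p1, p2⟩ := hfix x hx hfx
        obtain ⟨q1, q2⟩ := hfix y hy hfy
        exact h2 x p1 y q1 p2 q2
      · intro x hx hf
        by_cases hxa : x = a
        · simp only [if_pos hxa] at hf
          exact absurd (hf.trans hxa).symm hab
        · by_cases hxb : x = b
          · simp only [if_neg hxa, if_pos hxb] at hf
            exact absurd (hf.trans hxb) hab
          · simp only [if_neg hxa, if_neg hxb] at hf
            have h5 := h3 x (key x hx hxa hxb) hf
            rw [hcard] at h5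
            omega
      · intro hodd
        have h5 : S'.card % 2 = 1 := by
          rw [hcard]
          omega
        obtain ⟨x, hx, hfx⟩ := h4 h5
        obtain ⟨q1, q2, q3⟩ := (hmem x).1 hx
        refine ⟨x, q3, ?_⟩
        simp only [if_neg q1, if_neg q2]
        exact hfx

end MU

theorem t_MU : S_MU := by
  classical
  intro A K _ _ O cl Y0 σ hcl hσ
  choose m hm1 hm2 hm3 hm4 using fun e : K => MU.inv (O.filter fun a => cl a = e)
  have hO : ∀ a ∈ O, a ∈ O.filter fun x => cl x = cl a := fun a ha => mem_filter.2 ⟨ha, rfl⟩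
  let μ : A → A := fun a =>
    if h : m (cl a) a = a ∧ ∃ b ∈ O.filter (fun x => cl x = σ (cl a)), m (σ (cl a)) b = b then
      Classical.choose h.2 else m (cl a) a
  -- the two cases
  have hnon : ∀ a ∈ O, m (cl a) a ≠ a → μ a = m (cl a) a := by
    intro a _ h
    exact dif_neg fun h' => h h'.1
  have hfix : ∀ a ∈ O, m (cl a) a = a → σ (cl a) ∈ Y0 ∧ σ (σ (cl a)) = cl a ∧
      (O.filter fun x => cl x = cl a).card % 2 = 1 ∧
      μ a ∈ O ∧ cl (μ a) = σ (cl a) ∧ m (σ (cl a)) (μ a) = μ a := by
    intro a ha h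
    have hodd := hm3 (cl a) a (hO a ha) h
    obtain ⟨s1, s2, s3⟩ := hσ (cl a) (hcl a ha) hodd
    have hex : ∃ b ∈ O.filter (fun x => cl x = σ (cl a)), m (σ (cl a)) b = b :=
      hm4 (σ (cl a)) s2
    have hμ : μ a = Classical.choose hex := dif_pos ⟨h, hex⟩
    obtain ⟨c1, c2⟩ := Classical.choose_spec hex
    rw [← hμ, mem_filter] at c1
    rw [← hμ] at c2
    exact ⟨s1, s3, hodd, c1.1, c1.2, c2⟩
  refine ⟨μ, fun a ha => ?_, fun Y hY => ?_⟩
  · by_cases h : m (cl a) a = a
    · obtain ⟨-, f2, -, f4, f5, f6⟩ := hfix a ha h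
      refine ⟨f4, ?_⟩
      have g := hfix (μ a) f4 (by rw [f5]; exact f6)
      obtain ⟨-, -, -, g4, g5, g6⟩ := g
      rw [f5, f2] at g5 g6
      exact hm2 (cl a) _ (mem_filter.2 ⟨g4, g5⟩) a (hO a ha) g6 h
    · rw [hnon a ha h]
      obtain ⟨p1, p2⟩ := hm1 (cl a) a (hO a ha)
      rw [mem_filter] at p1
      refine ⟨p1.1, ?_⟩
      have h2 : m (cl (m (cl a) a)) (m (cl a) a) ≠ m (cl a) a := by
        rw [p1.2, p2]
        exact fun h' => h h'.symm
      rw [hnon _ p1.1 h2, p1.2]
      exact p2
  · -- a member of the left set is a fixed point of its class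
    have hL : ∀ a ∈ O.filter (fun a => cl a ∈ Y ∧ (μ a = a ∨ cl (μ a) ∉ Y)),
        a ∈ O ∧ cl a ∈ Y ∧ m (cl a) a = a ∧ (μ a = a ∨ cl (μ a) ∉ Y) := by
      intro a ha
      rw [mem_filter] at ha
      obtain ⟨ha, hY', hor⟩ := ha
      refine ⟨ha, hY', ?_, hor⟩
      by_contra h
      have e := hnon a ha h
      rw [e] at hor
      have p1 := (hm1 (cl a) a (hO a ha)).1
      rw [mem_filter] at p1
      rcases hor with h1 | h1
      · exact h h1
      · rw [p1.2] at h1
        exact h1 hY'
    refine card_le_card_of_injOn cl (fun a ha => ?_) ?_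
    · obtain ⟨h1, h2, h3, h4⟩ := hL a ha
      obtain ⟨-, -, f3, -, f5, -⟩ := hfix a h1 h3
      refine mem_coe.2 (mem_filter.2 ⟨h2, f3, ?_⟩)
      rcases h4 with h4 | h4
      · left
        rw [← f5, h4]
      · right
        rw [← f5]
        exact h4
    · intro a ha b hb hab
      obtain ⟨h1, h2, h3, h4⟩ := hL a (mem_coe.1 ha)
      obtain ⟨g1, g2, g3, g4⟩ := hL b (mem_coe.1 hb)
      refine hm2 (cl a) a (hO a h1) b ?_ h3 ?_
      · exact mem_filter.2 ⟨g1, hab.symm⟩
      · rw [hab]
        exact g3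

end Pool.Agent.T2h30.KA
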