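import Pool.Agent.T2h30.KA.Defs2
import Pool.Agent.T2h30.KA.T_MU
import Pool.Agent.T2h30.KA.SP2

/-! BASE: adding a vertex of small weight -/

set_option autoImplicit false

namespace Pool.Agent.T2h30.KA

open Finset

namespace BASE

variable {V : Type} [DecidableEq V]

/-- monotonicity outside `v` (loops allowed) -/
theorem ins_le {w : Sym2 V → ℕ} {σ σ' : Sym2 V → Sym2 V} {v : V} {X : Finset V}
    (hσ : ∀ e ∈ X.sym2, w e % 2 = 1 → σ e = σ' e) :
    unm w σ (insert v X) ≤ unm w σ' X + (SP.extra w σ v X).card := by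
  unfold unm
  refine le_trans (card_le_card ?_) (card_union_le _ _)
  intro e he
  rw [mem_filter] at he
  obtain ⟨h1, h2, h3⟩ := he
  rw [mem_union]
  by_cases hve : v ∈ e
  · right
    unfold SP.extra
    rw [mem_filter]
    exact ⟨h1, hve, h2, h3⟩
  · left
    have h4 : e ∈ X.sym2 := by
      rw [Finset.mem_sym2_iff] at h1 ⊢
      intro a ha
      rcases mem_insert.1 (h1 a ha) with h5 | h5
      · exact absurd (h5 ▸ ha) hve
      · exact h5
    rw [mem_filter]
    refine ⟨h4, h2, ?_⟩
    rw [hσ e h4 h2] at h3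
    rcases h3 with h3 | h3
    · exact Or.inl h3
    · right
      intro h5
      apply h3
      rw [Finset.mem_sym2_iff] at h5 ⊢
      exact fun a ha => mem_insert_of_mem (h5 a ha)

end BASE

open BASE in
theorem t_BASE : S_BASE := by
  intro V _ S v k w σ' hv hk hinv
  obtain ⟨E, hE⟩ : ∃ E : Finset (Sym2 V), E = S.sym2.filter fun e => v ∈ e ∧ w e % 2 = 1 :=
    ⟨_, rfl⟩
  have mE : ∀ e, e ∈ E ↔ e ∈ S.sym2 ∧ v ∈ e ∧ w e % 2 = 1 := by
    intro e
    rw [hE, mem_filter]
  obtain ⟨m, m1, m2, m3, -⟩ := MU.inv E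
  have hout : ∀ e ∈ E, e ∉ (S.erase v).sym2 := by
    intro e he h
    rw [Finset.mem_sym2_iff] at h
    exact notMem_erase v S (h v ((mE e).1 he).2.1)
  have hin : ∀ e ∈ S.sym2, w e % 2 = 1 → e ∉ (S.erase v).sym2 → e ∈ E := by
    intro e he ho hn
    refine (mE e).2 ⟨he, ?_, ho⟩
    by_contra hve
    apply hn
    rw [Finset.mem_sym2_iff] at he ⊢
    exact fun a ha => mem_erase.2 ⟨fun h => hve (h ▸ ha), he a ha⟩
  have hsub : ∀ e ∈ (S.erase v).sym2, e ∈ S.sym2 := by
    intro e he
    rw [Finset.mem_sym2_iff] at he ⊢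
    exact fun a ha => erase_subset _ _ (he a ha)
  obtain ⟨σ, hσ⟩ : ∃ σ : Sym2 V → Sym2 V,
    σ = fun e => if e ∈ (S.erase v).sym2 then σ' e else m e := ⟨_, rfl⟩
  have s1 : ∀ e ∈ (S.erase v).sym2, σ e = σ' e := by
    intro e he
    rw [hσ]
    exact if_pos he
  have s2 : ∀ e, e ∉ (S.erase v).sym2 → σ e = m e := by
    intro e he
    rw [hσ]
    exact if_neg he
  have hmono : ∀ X ⊆ S.erase v, ∀ e ∈ X.sym2, w e % 2 = 1 → σ e = σ' e :=
    fun X hX e he _ => s1 e (sym2_mono hX he)
  refine ⟨σ, ?_, fun X hX => SP.unm_mono (fun e _ h => h) (hmono X hX), fun X hX => ?_⟩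
  · intro e he ho
    by_cases h : e ∈ (S.erase v).sym2
    · obtain ⟨a, b, c⟩ := hinv e h ho
      rw [s1 e h, s1 _ a]
      exact ⟨hsub _ a, b, c⟩
    · have h1 := hin e he ho h
      obtain ⟨a, b⟩ := m1 e h1
      rw [s2 e h, s2 _ (hout _ a)]
      exact ⟨((mE _).1 a).1, ((mE _).1 a).2.2, b⟩
  · have hvX : v ∉ X := fun h => notMem_erase v S (hX h)
    have h1 := ins_le (v := v) (hmono X hX)
    rw [SP.esum_ins w hvX]
    -- the star elements
    obtain ⟨Rm, hR⟩ : ∃ Rm : Finset V, Rm = (S.erase v) \ X := ⟨_, rfl⟩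
    have hsum : ∑ a ∈ S.erase v, w s(v, a) = ∑ a ∈ Rm, w s(v, a) + ∑ a ∈ X, w s(v, a) := by
      rw [hR, sum_sdiff hX]
    have exE : ∀ e ∈ SP.extra w σ v X, e ∈ E ∧ σ e = m e ∧
        (m e = e ∨ m e ∉ (insert v X).sym2) := by
      intro e he
      unfold SP.extra at he
      rw [mem_filter] at he
      obtain ⟨a, b, c, d⟩ := he
      have h2 : e ∈ E := by
        refine (mE e).2 ⟨sym2_mono ?_ a, b, c⟩
        intro x hx
        rcases mem_insert.1 hx with h | h
        · exact h ▸ hv
        · exact erase_subset _ _ (hX h)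
      have h3 : σ e = m e := s2 e (hout e h2)
      rw [h3] at d
      exact ⟨h2, h3, d⟩
    have fw : ∀ e ∈ E, m e ∉ (insert v X).sym2 → m e ∈ Rm.image fun a => s(v, a) := by
      intro e he hn
      obtain ⟨a, b, c⟩ := (mE _).1 (m1 e he).1
      obtain ⟨x, hx⟩ := Sym2.mem_iff_exists.1 b
      rw [hx] at a hn ⊢
      rw [Finset.mk_mem_sym2_iff] at a hn
      refine mem_image.2 ⟨x, ?_, rfl⟩
      rw [hR, mem_sdiff, mem_erase]
      have hx1 : x ∉ insert v X := fun h => hn ⟨mem_insert_self _ _, h⟩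
      rw [mem_insert, not_or] at hx1
      exact ⟨⟨hx1.1, a.2⟩, hx1.2⟩
    -- number of the matched elements outside
    have cnt : ((SP.extra w σ v X).filter fun e => m e ≠ e).card ≤ ∑ a ∈ Rm, w s(v, a) := by
      have c1 : ((SP.extra w σ v X).filter fun e => m e ≠ e).card ≤
          (Rm.filter fun a => w s(v, a) % 2 = 1).card := by
        have c2 : ((SP.extra w σ v X).filter fun e => m e ≠ e).card ≤
            ((Rm.filter fun a => w s(v, a) % 2 = 1).image fun a => s(v, a)).card := by
          refine card_le_card_of_injOn m ?_ ?_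
          · intro e he
            rw [mem_coe, mem_filter] at he
            obtain ⟨q1, q2, q3⟩ := exE e he.1
            have q4 := fw e q1 (q3.resolve_left he.2)
            obtain ⟨x, hx, hx2⟩ := mem_image.1 q4
            refine mem_coe.2 (mem_image.2 ⟨x, mem_filter.2 ⟨hx, ?_⟩, hx2⟩)
            rw [hx2]
            exact ((mE _).1 (m1 e q1).1).2.2
          · intro e he e' he' hee
            rw [mem_coe, mem_filter] at he he'
            rw [← (m1 e (exE e he.1).1).2, hee, (m1 e' (exE e' he'.1).1).2]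
        exact c2.trans card_image_le
      refine c1.trans ?_
      rw [card_filter]
      refine sum_le_sum fun a _ => ?_
      split_ifs with h
      · omega
      · exact Nat.zero_le _
    -- fixed elements
    have fixc : ((SP.extra w σ v X).filter fun e => ¬ m e ≠ e).card ≤ 1 := by
      rw [card_le_one]
      intro e he e' he'
      rw [mem_filter, not_not] at he he'
      exact m2 e (exE e he.1).1 e' (exE e' he'.1).1 he.2 he'.2
    have split := card_filter_add_card_filter_not (s := SP.extra w σ v X) (fun e => m e ≠ e)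
    -- parity
    have par : (∃ e ∈ SP.extra w σ v X, m e = e) →
        (w s(v, v) + ∑ a ∈ S.erase v, w s(v, a)) % 2 = 1 := by
      rintro ⟨e, he, hme⟩
      have p1 := m3 e (exE e he).1 hme
      have p2 : E = (S.filter fun a => Odd (w s(v, a))).image fun a => s(v, a) := by
        ext e
        rw [mE, mem_image]
        constructor
        · rintro ⟨a, b, c⟩
          obtain ⟨x, hx⟩ := Sym2.mem_iff_exists.1 b
          rw [hx, Finset.mk_mem_sym2_iff] at a
          exact ⟨x, mem_filter.2 ⟨a.2, Nat.odd_iff.2 (hx ▸ c)⟩, hx.symm⟩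
        · rintro ⟨x, hx, rfl⟩
          rw [mem_filter] at hx
          refine ⟨?_, Sym2.mem_mk_left _ _, Nat.odd_iff.1 hx.2⟩
          rw [Finset.mk_mem_sym2_iff]
          exact ⟨hv, hx.1⟩
      rw [p2, card_image_of_injOn] at p1
      · rw [add_sum_erase S (fun a => w s(v, a)) hv, ← Nat.odd_iff,
          Finset.odd_sum_iff_odd_card_odd]
        exact Nat.odd_iff.2 p1
      · intro x _ y _ hxy
        simp only [Sym2.eq_iff] at hxy
        rcases hxy with ⟨_, h⟩ | ⟨h, h'⟩
        · exact h
        · rw [h', h]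
    by_cases hfix : ∃ e ∈ SP.extra w σ v X, m e = e
    · have p3 := par hfix
      omega
    · have f0 : ((SP.extra w σ v X).filter fun e => ¬ m e ≠ e).card = 0 := by
        rw [card_eq_zero, filter_eq_empty_iff]
        intro e he h
        rw [not_not] at h
        exact hfix ⟨e, he, h⟩
      omega

end Pool.Agent.T2h30.KA
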