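import Pool.Agent.T2h30.KA.Defs2

/-! FLIP: changing the parity at two pairs -/

set_option autoImplicit false

namespace Pool.Agent.T2h30.KA

open Finset

namespace FLIP

variable {K : Type} [DecidableEq K]

/-- indicator of the bad elements -/
def ff (σ : K → K) (Y : Finset K) (e : K) : ℕ := if e ∈ Y ∧ (σ e = e ∨ σ e ∉ Y) then 1 else 0

/-- indicator of membership -/
def cc (Y : Finset K) (e : K) : ℕ := if e ∈ Y then 1 else 0

/-- contribution of a pair -/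
def dd (Y : Finset K) (x y : K) : ℕ := (if x ∈ Y ∧ y ∉ Y then 1 else 0) +
  (if y ∈ Y ∧ x ∉ Y then 1 else 0)

/-- `σ` is an involution of `O` -/
def iv (σ : K → K) (O : Finset K) : Prop := ∀ e ∈ O, σ e ∈ O ∧ σ (σ e) = e

theorem pairL {Z : Finset K} {σ1 : K → K} (h1 : iv σ1 Z) {g h : K} (hgh : g ≠ h) (hg : g ∉ Z)
    (hh : h ∉ Z) : ∃ σ : K → K, iv σ (insert g (insert h Z)) ∧
      ∀ Y : Finset K, ∑ e ∈ insert g (insert h Z), ff σ Y e = dd Y g h + ∑ e ∈ Z, ff σ1 Y e := by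
  have hz : ∀ e ∈ Z, e ≠ g ∧ e ≠ h := fun e he => ⟨fun h' => hg (h' ▸ he), fun h' => hh (h' ▸ he)⟩
  obtain ⟨σ, hσ⟩ : ∃ σ : K → K, σ = fun e => if e = g then h else if e = h then g else σ1 e :=
    ⟨_, rfl⟩
  have sg : σ g = h := by rw [hσ]; simp
  have sh : σ h = g := by rw [hσ]; simp [hgh.symm]
  have sz : ∀ e ∈ Z, σ e = σ1 e := by
    intro e he
    rw [hσ]
    simp [(hz e he).1, (hz e he).2]
  refine ⟨σ, ?_, fun Y => ?_⟩
  · intro e he
    rw [mem_insert, mem_insert] at he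
    rcases he with rfl | rfl | he
    · rw [sg, sh]
      exact ⟨by simp, rfl⟩
    · rw [sh, sg]
      exact ⟨by simp, rfl⟩
    · rw [sz e he, sz _ (h1 e he).1]
      exact ⟨mem_insert_of_mem (mem_insert_of_mem (h1 e he).1), (h1 e he).2⟩
  · have hg' : g ∉ insert h Z := by
      rw [mem_insert]
      exact fun h' => h'.elim hgh hg
    rw [sum_insert hg', sum_insert hh]
    have e1 : ∑ e ∈ Z, ff σ Y e = ∑ e ∈ Z, ff σ1 Y e := by
      refine sum_congr rfl fun e he => ?_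
      unfold ff
      rw [sz e he]
    rw [e1, ← add_assoc]
    congr 1
    unfold ff dd
    rw [sg, sh]
    by_cases a : g ∈ Y <;> by_cases b : h ∈ Y <;> simp [a, b, hgh, hgh.symm]

theorem oneL {Z : Finset K} {σ1 : K → K} (h1 : iv σ1 Z) {g : K} (hg : g ∉ Z) :
    ∃ σ : K → K, iv σ (insert g Z) ∧
      ∀ Y : Finset K, ∑ e ∈ insert g Z, ff σ Y e = cc Y g + ∑ e ∈ Z, ff σ1 Y e := by
  have hz : ∀ e ∈ Z, e ≠ g := fun e he => fun h' => hg (h' ▸ he)
  obtain ⟨σ, hσ⟩ : ∃ σ : K → K, σ = fun e => if e = g then g else σ1 e := ⟨_, rfl⟩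
  have sg : σ g = g := by rw [hσ]; simp
  have sz : ∀ e ∈ Z, σ e = σ1 e := by
    intro e he
    rw [hσ]
    simp [hz e he]
  refine ⟨σ, ?_, fun Y => ?_⟩
  · intro e he
    rw [mem_insert] at he
    rcases he with rfl | he
    · rw [sg, sg]
      exact ⟨by simp, rfl⟩
    · rw [sz e he, sz _ (h1 e he).1]
      exact ⟨mem_insert_of_mem (h1 e he).1, (h1 e he).2⟩
  · rw [sum_insert hg]
    have e1 : ∑ e ∈ Z, ff σ Y e = ∑ e ∈ Z, ff σ1 Y e := by
      refine sum_congr rfl fun e he => ?_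
      unfold ff
      rw [sz e he]
    rw [e1]
    congr 1
    unfold ff cc
    rw [sg]
    by_cases a : g ∈ Y <;> simp [a]

theorem dec1 {O1 : Finset K} {σ1 : K → K} (h1 : iv σ1 O1) {p : K} (hp : p ∈ O1) (hf : σ1 p = p) :
    iv σ1 (O1.erase p) ∧
      ∀ Y : Finset K, ∑ e ∈ O1, ff σ1 Y e = cc Y p + ∑ e ∈ O1.erase p, ff σ1 Y e := by
  refine ⟨fun e he => ?_, fun Y => ?_⟩
  · rw [mem_erase] at he
    refine ⟨mem_erase.2 ⟨fun h => he.1 ?_, (h1 e he.2).1⟩, (h1 e he.2).2⟩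
    rw [← (h1 e he.2).2, h, hf]
  · rw [← add_sum_erase _ _ hp]
    congr 1
    unfold ff cc
    rw [hf]
    by_cases a : p ∈ Y <;> simp [a]

theorem dec2 {O1 : Finset K} {σ1 : K → K} (h1 : iv σ1 O1) {p : K} (hp : p ∈ O1)
    (hf : σ1 p ≠ p) : iv σ1 ((O1.erase p).erase (σ1 p)) ∧
      ∀ Y : Finset K, ∑ e ∈ O1, ff σ1 Y e = dd Y p (σ1 p) +
        ∑ e ∈ (O1.erase p).erase (σ1 p), ff σ1 Y e := by
  have hinv := (h1 p hp).2
  refine ⟨fun e he => ?_, fun Y => ?_⟩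
  · rw [mem_erase, mem_erase] at he
    obtain ⟨a, b, c⟩ := he
    obtain ⟨i1, i2⟩ := h1 e c
    refine ⟨mem_erase.2 ⟨fun h => b ?_, mem_erase.2 ⟨fun h => a ?_, i1⟩⟩, i2⟩
    · rw [← i2, h, hinv]
    · rw [← i2, h]
  · have hg : σ1 p ∈ O1.erase p := mem_erase.2 ⟨hf, (h1 p hp).1⟩
    rw [← add_sum_erase _ _ hp, ← add_sum_erase _ _ hg, ← add_assoc]
    congr 1
    unfold ff dd
    rw [hinv]
    by_cases a : p ∈ Y <;> by_cases b : σ1 p ∈ Y <;> simp [a, b, hf, hf.symm]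

/-- the result, as a predicate -/
def Res (O1 O : Finset K) (σ1 : K → K) (p q : K) : Prop :=
  ∃ σ : K → K, iv σ O ∧ ∀ Y : Finset K, ∑ e ∈ O, ff σ Y e ≤ ∑ e ∈ O1, ff σ1 Y e + dd Y p q

theorem caseB {O1 : Finset K} {σ1 : K → K} (h1 : iv σ1 O1) {p q : K}
    (hp : p ∈ O1) (hq : q ∉ O1) : Res O1 (insert q (O1.erase p)) σ1 p q := by
  by_cases hf : σ1 p = p
  · obtain ⟨i1, i2⟩ := dec1 h1 hp hf
    obtain ⟨σ, j1, j2⟩ := oneL i1 (g := q) (fun h => hq (mem_of_mem_erase h))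
    refine ⟨σ, j1, fun Y => ?_⟩
    rw [j2, i2]
    unfold cc dd
    by_cases a : p ∈ Y <;> by_cases b : q ∈ Y <;> simp [a, b] <;> omega
  · obtain ⟨i1, i2⟩ := dec2 h1 hp hf
    have hg : σ1 p ∈ O1.erase p := mem_erase.2 ⟨hf, (h1 p hp).1⟩
    obtain ⟨σ, j1, j2⟩ := pairL i1 (g := q) (h := σ1 p) (fun h => hq (h ▸ (h1 p hp).1))
      (fun h => hq (mem_of_mem_erase (mem_of_mem_erase h))) (notMem_erase _ _)
    rw [insert_erase hg] at j1 j2
    refine ⟨σ, j1, fun Y => ?_⟩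
    rw [j2, i2]
    unfold dd
    by_cases a : p ∈ Y <;> by_cases b : q ∈ Y <;> by_cases c : σ1 p ∈ Y <;>
      simp [a, b, c] <;> omega

theorem caseD {O1 : Finset K} {σ1 : K → K} (h1 : iv σ1 O1) {p q : K} (hpq : p ≠ q)
    (hp : p ∈ O1) (hq : q ∈ O1) (hord : σ1 q = q → σ1 p = p) :
    Res O1 ((O1.erase p).erase q) σ1 p q := by
  by_cases hf : σ1 p = p
  · obtain ⟨i1, i2⟩ := dec1 h1 hp hf
    have hq' : q ∈ O1.erase p := mem_erase.2 ⟨hpq.symm, hq⟩
    by_cases hfq : σ1 q = q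
    · obtain ⟨k1, k2⟩ := dec1 i1 hq' hfq
      refine ⟨σ1, k1, fun Y => ?_⟩
      rw [i2, k2]
      omega
    · obtain ⟨k1, k2⟩ := dec2 i1 hq' hfq
      have hg : σ1 q ∈ (O1.erase p).erase q := mem_erase.2 ⟨hfq, (i1 q hq').1⟩
      obtain ⟨σ, j1, j2⟩ := oneL k1 (g := σ1 q) (notMem_erase _ _)
      rw [insert_erase hg] at j1 j2
      refine ⟨σ, j1, fun Y => ?_⟩
      rw [j2, i2, k2]
      unfold cc dd
      by_cases a : p ∈ Y <;> by_cases b : q ∈ Y <;> by_cases c : σ1 q ∈ Y <;>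
        simp [a, b, c] <;> omega
  · have hfq : σ1 q ≠ q := fun h => hf (hord h)
    obtain ⟨i1, i2⟩ := dec2 h1 hp hf
    by_cases hm : σ1 p = q
    · rw [hm] at i1 i2
      refine ⟨σ1, i1, fun Y => ?_⟩
      rw [i2]
      omega
    · have hq' : q ∈ (O1.erase p).erase (σ1 p) :=
        mem_erase.2 ⟨fun h => hm h.symm, mem_erase.2 ⟨hpq.symm, hq⟩⟩
      obtain ⟨k1, k2⟩ := dec2 i1 hq' hfq
      have hh : σ1 q ∈ (O1.erase p).erase (σ1 p) := (i1 q hq').1
      have n1 : σ1 p ≠ σ1 q := fun h => (mem_erase.1 hh).1 h.symm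
      obtain ⟨σ, j1, j2⟩ := pairL k1 (g := σ1 p) (h := σ1 q) n1
        (fun h => by
          have := mem_of_mem_erase (mem_of_mem_erase h)
          exact notMem_erase _ _ this) (notMem_erase _ _)
      have e1 : insert (σ1 p) (insert (σ1 q)
          ((((O1.erase p).erase (σ1 p)).erase q).erase (σ1 q))) = (O1.erase p).erase q := by
        rw [insert_erase (mem_erase.2 ⟨hfq, hh⟩), erase_right_comm (a := σ1 p) (b := q),
          insert_erase]
        exact mem_erase.2 ⟨hm, mem_erase.2 ⟨hf, (h1 p hp).1⟩⟩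
      rw [e1] at j1 j2
      refine ⟨σ, j1, fun Y => ?_⟩
      rw [j2, i2, k2]
      unfold dd
      by_cases a : p ∈ Y <;> by_cases b : q ∈ Y <;> by_cases c : σ1 q ∈ Y <;>
        by_cases d : σ1 p ∈ Y <;> simp [a, b, c, d] <;> omega

theorem dd_comm (Y : Finset K) (p q : K) : dd Y p q = dd Y q p := by
  unfold dd
  rw [add_comm]

theorem res_comm {O1 O : Finset K} {σ1 : K → K} {p q : K} (h : Res O1 O σ1 p q) :
    Res O1 O σ1 q p := by
  obtain ⟨σ, h1, h2⟩ := h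
  refine ⟨σ, h1, fun Y => ?_⟩
  rw [dd_comm]
  exact h2 Y

theorem main {O1 O : Finset K} {σ1 : K → K} (h1 : iv σ1 O1) {p q : K} (hpq : p ≠ q)
    (hO : ∀ e, e ∈ O ↔ (e ∈ O1 ∧ e ≠ p ∧ e ≠ q) ∨ (e ∉ O1 ∧ (e = p ∨ e = q))) :
    Res O1 O σ1 p q := by
  by_cases hp : p ∈ O1 <;> by_cases hq : q ∈ O1
  · have e1 : O = (O1.erase p).erase q := by
      ext e
      rw [hO, mem_erase, mem_erase]
      constructor
      · rintro (⟨a, b, c⟩ | ⟨a, b | b⟩)
        · exact ⟨c, b, a⟩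
        · exact absurd (b ▸ hp) a
        · exact absurd (b ▸ hq) a
      · rintro ⟨a, b, c⟩
        exact Or.inl ⟨c, b, a⟩
    rw [e1]
    by_cases h : σ1 q = q → σ1 p = p
    · exact caseD h1 hpq hp hq h
    · rw [erase_right_comm]
      rw [Classical.not_imp] at h
      exact res_comm (caseD h1 hpq.symm hq hp fun _ => h.1)
  · have e1 : O = insert q (O1.erase p) := by
      ext e
      rw [hO, mem_insert, mem_erase]
      constructor
      · rintro (⟨a, b, c⟩ | ⟨a, b | b⟩)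
        · exact Or.inr ⟨b, a⟩
        · exact absurd (b ▸ hp) a
        · exact Or.inl b
      · rintro (a | ⟨a, b⟩)
        · exact Or.inr ⟨a ▸ hq, Or.inr a⟩
        · exact Or.inl ⟨b, a, fun h => hq (h ▸ b)⟩
    rw [e1]
    exact caseB h1 hp hq
  · have e1 : O = insert p (O1.erase q) := by
      ext e
      rw [hO, mem_insert, mem_erase]
      constructor
      · rintro (⟨a, b, c⟩ | ⟨a, b | b⟩)
        · exact Or.inr ⟨c, a⟩
        · exact Or.inl b
        · exact absurd (b ▸ hq) a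
      · rintro (a | ⟨a, b⟩)
        · exact Or.inr ⟨a ▸ hp, Or.inl a⟩
        · exact Or.inl ⟨b, fun h => hp (h ▸ b), a⟩
    rw [e1]
    exact res_comm (caseB h1 hq hp)
  · have e1 : O = insert p (insert q O1) := by
      ext e
      rw [hO, mem_insert, mem_insert]
      constructor
      · rintro (⟨a, b, c⟩ | ⟨a, b | b⟩)
        · exact Or.inr (Or.inr a)
        · exact Or.inl b
        · exact Or.inr (Or.inl b)
      · rintro (a | a | a)
        · exact Or.inr ⟨a ▸ hp, Or.inl a⟩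
        · exact Or.inr ⟨a ▸ hq, Or.inr a⟩
        · exact Or.inl ⟨a, fun h => hp (h ▸ a), fun h => hq (h ▸ a)⟩
    rw [e1]
    obtain ⟨σ, j1, j2⟩ := pairL h1 hpq hp hq
    refine ⟨σ, j1, fun Y => ?_⟩
    rw [j2]
    omega

end FLIP

open FLIP in
theorem t_FLIP : S_FLIP := by
  intro V _ S w w1 p q σ1 hp hq hpq hw hinv
  have key : ∀ (w : Sym2 V → ℕ) (σ : Sym2 V → Sym2 V) (X : Finset V), X ⊆ S →
      unm w σ X = ∑ e ∈ S.sym2.filter (fun e => w e % 2 = 1), ff σ X.sym2 e := by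
    intro w σ X hX
    unfold unm ff
    rw [sum_boole, Nat.cast_id]
    congr 1
    ext e
    simp only [mem_filter]
    constructor
    · rintro ⟨a, b, c⟩
      exact ⟨⟨sym2_mono hX a, b⟩, a, c⟩
    · rintro ⟨⟨a, b⟩, c, d⟩
      exact ⟨c, b, d⟩
  have h1 : iv σ1 (S.sym2.filter fun e => w1 e % 2 = 1) := by
    intro e he
    rw [mem_filter] at he ⊢
    obtain ⟨a, b, c⟩ := hinv e he.1 he.2
    exact ⟨⟨a, b⟩, c⟩
  have hO : ∀ e, e ∈ S.sym2.filter (fun e => w e % 2 = 1) ↔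
      (e ∈ S.sym2.filter (fun e => w1 e % 2 = 1) ∧ e ≠ p ∧ e ≠ q) ∨
      (e ∉ S.sym2.filter (fun e => w1 e % 2 = 1) ∧ (e = p ∨ e = q)) := by
    intro e
    have h := hw e
    simp only [mem_filter]
    by_cases c1 : e = p ∨ e = q
    · have h2 := h.2 c1
      have h3 : e ∈ S.sym2 := by
        rcases c1 with rfl | rfl
        · exact hp
        · exact hq
      constructor
      · rintro ⟨-, a⟩
        exact Or.inr ⟨fun b => by omega, c1⟩
      · rintro (⟨-, a, b⟩ | ⟨a, -⟩)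
        · exact absurd c1 (fun h => h.elim a b)
        · refine ⟨h3, ?_⟩
          have : ¬ w1 e % 2 = 1 := fun h => a ⟨h3, h⟩
          omega
    · have h2 : w e % 2 = w1 e % 2 := by
        by_contra h3
        exact c1 (h.1 h3)
      rw [h2]
      constructor
      · intro a
        exact Or.inl ⟨a, fun h => c1 (Or.inl h), fun h => c1 (Or.inr h)⟩
      · rintro (⟨a, -⟩ | ⟨-, a⟩)
        · exact a
        · exact absurd a c1
  obtain ⟨σ, j1, j2⟩ := main h1 hpq hO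
  refine ⟨σ, ?_, fun X hX => ?_⟩
  · intro e he ho
    obtain ⟨a, b⟩ := j1 e (mem_filter.2 ⟨he, ho⟩)
    rw [mem_filter] at a
    exact ⟨a.1, a.2, b⟩
  · rw [key w σ X hX, key w1 σ1 X hX]
    refine (j2 X.sym2).trans (Nat.add_le_add_left (le_of_eq ?_) _)
    unfold dd
    by_cases a : p ∈ X.sym2 <;> by_cases b : q ∈ X.sym2 <;> simp [a, b]

end Pool.Agent.T2h30.KA
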