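import Pool.Agent.T2h30.KA.Defs

set_option autoImplicit false

namespace Pool.Agent.T2h30.KA.SP
open Finset

variable {V : Type} [DecidableEq V]

theorem sym2_ins {v : V} {X : Finset V} {e : Sym2 V} :
    e ∈ (insert v X).sym2 ↔ e ∈ X.sym2 ∨ ∃ x ∈ insert v X, e = s(v, x) := by
  rw [Finset.sym2_insert, mem_union, mem_image]
  constructor
  · rintro (⟨x, hx, rfl⟩ | h)
    · exact Or.inr ⟨x, hx, rfl⟩
    · exact Or.inl h
  · rintro (h | ⟨x, hx, rfl⟩)
    · exact Or.inr h
    · exact Or.inl ⟨x, hx, rfl⟩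

theorem esum_ins (w : Sym2 V → ℕ) {v : V} {X : Finset V} (hv : v ∉ X) :
    esum w (insert v X) = esum w X + ∑ x ∈ X, w s(v, x) + w s(v, v) := by
  unfold esum
  rw [Finset.sym2_insert, sum_union, sum_image, sum_insert hv]
  · ring
  · intro x _ y _ hxy
    simp only [Sym2.eq_iff] at hxy
    rcases hxy with ⟨_, h⟩ | ⟨h1, h2⟩
    · exact h
    · rw [h2, h1]
  · rw [disjoint_left]
    intro e he he'
    rw [mem_image] at he
    obtain ⟨x, _, rfl⟩ := he
    rw [Finset.mk_mem_sym2_iff] at he'
    exact hv he'.1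

theorem not_mem_star {v x : V} {X : Finset V} (hv : v ∉ X) : s(v, x) ∉ X.sym2 := by
  rw [Finset.mk_mem_sym2_iff]; exact fun h => hv h.1

/-- the two step inequalities suffice -/
theorem step_suff {S : Finset V} {v : V} (hv : v ∈ S) {k : ℕ} {w w' : Sym2 V → ℕ}
    {σ σ' : Sym2 V → Sym2 V}
    (hw : ∀ X ⊆ S, X.Nonempty → esum w X + 2 * k ≤ 2 * k * X.card)
    (ih : ∀ X ⊆ S.erase v, X.Nonempty → esum w' X + 2 * k + unm w' σ' X ≤ 2 * k * X.card)
    (h1 : ∀ X ⊆ S.erase v, X.Nonempty → esum w X + unm w σ X ≤ esum w' X + unm w' σ' X)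
    (h2 : ∀ X ⊆ S.erase v, X.Nonempty →
      esum w (insert v X) + unm w σ (insert v X) ≤ esum w' X + unm w' σ' X + 2 * k) :
    ∀ X ⊆ S, X.Nonempty → esum w X + 2 * k + unm w σ X ≤ 2 * k * X.card := by
  intro X hX hne
  by_cases hvX : v ∈ X
  · have hX' : X.erase v ⊆ S.erase v := erase_subset_erase v hX
    rcases (X.erase v).eq_empty_or_nonempty with h0 | h0
    · have hXv : X = {v} := by
        rw [← insert_erase hvX, h0]; rfl
      subst hXv
      have h3 := hw {v} hX hne
      have h4 : esum w {v} = 0 := by simpa using h3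
      have h5 : unm w σ {v} = 0 := by
        unfold unm
        rw [card_eq_zero, filter_eq_empty_iff]
        rintro e he ⟨ho, -⟩
        unfold esum at h4
        rw [sum_eq_zero_iff] at h4
        rw [h4 e he] at ho
        omega
      rw [h4, h5]; simp
    · have h3 := h2 _ hX' h0
      have h4 := ih _ hX' h0
      rw [insert_erase hvX] at h3
      have h5 : X.card = (X.erase v).card + 1 := (card_erase_add_one hvX).symm
      rw [h5, mul_add]
      omega
  · have hX' : X ⊆ S.erase v := subset_erase.2 ⟨hX, hvX⟩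
    have h3 := h1 _ hX' hne
    have h4 := ih _ hX' hne
    omega

/-- a bound on the star at `v` -/
theorem star_le {S : Finset V} {v : V} (hv : v ∈ S) {k : ℕ} {w : Sym2 V → ℕ}
    (hw : ∀ X ⊆ S, X.Nonempty → esum w X + 2 * k ≤ 2 * k * X.card) :
    w s(v, v) = 0 ∧ ∀ x ∈ S, w s(v, x) ≤ 2 * k := by
  have h0 : esum w {v} = 0 := by
    have := hw {v} (singleton_subset_iff.2 hv) (singleton_nonempty v)
    simpa using this
  have hvv : w s(v, v) = 0 := by
    unfold esum at h0
    rw [sum_eq_zero_iff] at h0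
    exact h0 _ (by rw [Finset.mk_mem_sym2_iff]; simp)
  refine ⟨hvv, fun x hx => ?_⟩
  by_cases hxv : x = v
  · subst hxv; rw [hvv]; exact Nat.zero_le _
  · have h1 := hw {v, x} (by
      intro y hy
      rw [mem_insert, mem_singleton] at hy
      rcases hy with rfl | rfl <;> assumption) (insert_nonempty _ _)
    rw [esum_ins w (by rw [mem_singleton]; exact fun h => hxv h.symm)] at h1
    rw [card_insert_of_notMem (by rw [mem_singleton]; exact fun h => hxv h.symm)] at h1
    simp only [sum_singleton, card_singleton] at h1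
    omega

end Pool.Agent.T2h30.KA.SP
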