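import Pool.Agent.T2h30.KA.Defs2
import Pool.Agent.T2h30.KA.SP1

/-! R2Q: complete splitting at `v` through `u`. -/

set_option autoImplicit false
set_option linter.unusedSectionVars false

namespace Pool.Agent.T2h30.KA

open Finset

namespace R2Q

variable {V : Type} [DecidableEq V]

theorem esum_super (w : Sym2 V → ℕ) (X Y : Finset V) :
    esum w X + esum w Y ≤ esum w (X ∪ Y) + esum w (X ∩ Y) := by
  unfold esum
  rw [← Finset.sum_union_inter]
  refine Nat.add_le_add ?_ (le_of_eq ?_)
  · refine Finset.sum_le_sum_of_subset ?_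
    intro e he
    rw [mem_union] at he
    rcases he with he | he
    · exact Finset.sym2_mono subset_union_left he
    · exact Finset.sym2_mono subset_union_right he
  · congr 1
    ext e
    induction e using Sym2.ind with
    | _ x y =>
      simp only [mem_inter, mk_mem_sym2_iff]
      tauto

/-- the changed weight -/
def wt (w : Sym2 V → ℕ) (v u a : V) (e : Sym2 V) : ℕ :=
  if e = s(a, u) then w e + 1 else if e = s(v, a) then w e - 1 else if e = s(v, u) then w e - 1
    else if e = s(v, v) then w e + 1 else w e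

/-- the intermediate weight -/
def wm (w : Sym2 V → ℕ) (v u : V) (e : Sym2 V) : ℕ :=
  if e = s(v, u) ∨ e = s(v, v) then w e + 1 else w e

theorem star_ne {v : V} {X : Finset V} (hv : v ∉ X) {e : Sym2 V} (he : e ∈ X.sym2) (x : V) :
    e ≠ s(v, x) := by
  rintro rfl
  rw [Finset.mk_mem_sym2_iff] at he
  exact hv he.1

theorem wt_in (w : Sym2 V → ℕ) {v u a : V} {X : Finset V} (hv : v ∉ X) {e : Sym2 V}
    (he : e ∈ X.sym2) : wt w v u a e = w e + if e = s(a, u) then 1 else 0 := by
  unfold wt
  rw [if_neg (star_ne hv he a), if_neg (star_ne hv he u), if_neg (star_ne hv he v)]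
  split_ifs <;> rfl

theorem esum_wt (w : Sym2 V → ℕ) {v u a : V} {X : Finset V} (hv : v ∉ X) :
    esum (wt w v u a) X = esum w X + if (a ∈ X ∧ u ∈ X) then 1 else 0 := by
  unfold esum
  rw [sum_congr rfl fun e he => wt_in w hv he, sum_add_distrib, Finset.sum_ite_eq']
  simp only [mk_mem_sym2_iff]

section
variable {v u a : V} (hau : a ≠ u) (hav : a ≠ v) (huv : u ≠ v)
include hau hav huv

theorem ne1 : s(a, u) ≠ s(v, a) := by
  rw [Ne, Sym2.eq_iff]
  rintro (⟨h, _⟩ | ⟨_, h⟩)
  · exact hav h
  · exact huv h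

theorem ne2 : s(a, u) ≠ s(v, u) := by
  rw [Ne, Sym2.eq_iff]
  rintro (⟨h, _⟩ | ⟨_, h⟩)
  · exact hav h
  · exact huv h

theorem ne3 : s(a, u) ≠ s(v, v) := by
  rw [Ne, Sym2.eq_iff]
  rintro (⟨h, _⟩ | ⟨h, _⟩)
  · exact hav h
  · exact hav h

theorem ne4 : s(v, a) ≠ s(v, u) := by
  rw [Ne, Sym2.congr_right]
  exact hau

theorem ne5 : s(v, a) ≠ s(v, v) := by
  rw [Ne, Sym2.congr_right]
  exact hav

theorem ne6 : s(v, u) ≠ s(v, v) := by
  rw [Ne, Sym2.congr_right]
  exact huv

theorem wt_star (w : Sym2 V → ℕ) (hwa : 0 < w s(v, a)) (hwu : 0 < w s(v, u)) (x : V) (hx : x ≠ v) :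
    wt w v u a s(v, x) + (if x = a then 1 else 0) + (if x = u then 1 else 0) = w s(v, x) := by
  have h1 : s(v, x) ≠ s(a, u) := by
    rw [Ne, Sym2.eq_iff]
    rintro (⟨h, _⟩ | ⟨h, _⟩)
    · exact hav h.symm
    · exact huv h.symm
  unfold wt
  rw [if_neg h1]
  simp only [Sym2.congr_right]
  by_cases hxa : x = a
  · subst hxa
    rw [if_pos rfl, if_pos rfl, if_neg hau]
    omega
  · by_cases hxu : x = u
    · subst hxu
      rw [if_neg hxa, if_pos rfl, if_neg hxa, if_pos rfl]
      omega
    · rw [if_neg hxa, if_neg hxu, if_neg hx, if_neg hxa, if_neg hxu, Nat.add_zero]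

theorem wt_vv (w : Sym2 V → ℕ) : wt w v u a s(v, v) = w s(v, v) + 1 := by
  unfold wt
  rw [if_neg (ne3 hau hav huv).symm, if_neg (ne5 hau hav huv).symm, if_neg (ne6 hau hav huv).symm,
    if_pos rfl]

theorem sum_wt (w : Sym2 V → ℕ) (hwa : 0 < w s(v, a)) (hwu : 0 < w s(v, u)) {X : Finset V}
    (hv : v ∉ X) : ∑ x ∈ X, wt w v u a s(v, x) + (if a ∈ X then 1 else 0) +
      (if u ∈ X then 1 else 0) = ∑ x ∈ X, w s(v, x) := by
  have h1 : ∀ x ∈ X, w s(v, x) =
      wt w v u a s(v, x) + (if x = a then 1 else 0) + (if x = u then 1 else 0) := fun x hx =>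
    (wt_star hau hav huv w hwa hwu x (fun h => hv (h ▸ hx))).symm
  rw [sum_congr rfl h1, sum_add_distrib, sum_add_distrib, Finset.sum_ite_eq', Finset.sum_ite_eq']

theorem esum_wt_ins (w : Sym2 V → ℕ) (hwa : 0 < w s(v, a)) (hwu : 0 < w s(v, u)) {X : Finset V}
    (hv : v ∉ X) (hu : u ∈ X) : esum (wt w v u a) (insert v X) = esum w (insert v X) := by
  have h1 := sum_wt hau hav huv w hwa hwu hv
  have h2 := esum_wt w (u := u) (a := a) hv
  have h3 := wt_vv hau hav huv w
  rw [SP.esum_ins _ hv, SP.esum_ins _ hv, h2, h3, ← h1]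
  by_cases ha : a ∈ X
  · simp only [ha, hu, and_self, if_true]
    omega
  · simp only [ha, hu, false_and, if_true, if_false]
    omega

theorem par1 (w : Sym2 V → ℕ) (hwa : 0 < w s(v, a)) (hwu : 0 < w s(v, u)) (e : Sym2 V) :
    (wm w v u e % 2 ≠ wt w v u a e % 2) ↔ (e = s(a, u) ∨ e = s(v, a)) := by
  unfold wm wt
  by_cases h1 : e = s(a, u)
  · subst h1
    simp only [ne2 hau hav huv, ne3 hau hav huv, or_self, if_false, if_true, true_or, iff_true]
    omega
  · by_cases h2 : e = s(v, a)
    · subst h2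
      simp only [h1, ne4 hau hav huv, ne5 hau hav huv, or_self, if_false, if_true, or_true, iff_true]
      omega
    · by_cases h3 : e = s(v, u)
      · subst h3
        simp only [h1, h2, or_self, if_false, if_true, true_or, iff_false]
        omega
      · by_cases h4 : e = s(v, v)
        · subst h4
          simp only [h1, h2, h3, or_self, if_false, if_true, or_true, iff_false]
          omega
        · simp only [h1, h2, h3, h4, or_self, if_false, iff_false]
          omega

end

theorem par2 (w : Sym2 V → ℕ) (v u : V) (e : Sym2 V) :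
    (w e % 2 ≠ wm w v u e % 2) ↔ (e = s(v, u) ∨ e = s(v, v)) := by
  unfold wm
  by_cases h : e = s(v, u) ∨ e = s(v, v)
  · simp only [h, if_true, iff_true]
    omega
  · simp only [h, if_false, iff_false]
    omega

theorem addn_eq (w : Sym2 V → ℕ) {v u a : V} {U : Finset V} (hv : v ∉ U) (ha : a ∈ U) (n1 : V → ℕ)
    {e : Sym2 V} (he : e ∈ U.sym2) :
    addn w u U (fun b => n1 b + if b = a then 1 else 0) e = addn (wt w v u a) u U n1 e := by
  unfold addn
  rw [wt_in w hv he]
  have h1 : ∀ b ∈ U, (if e = s(b, u) then n1 b + (if b = a then 1 else 0) else 0) =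
      (if e = s(b, u) then n1 b else 0) + (if b = a then (if e = s(a, u) then 1 else 0) else 0) := by
    intro b _
    by_cases hb : b = a
    · subst hb
      by_cases h : e = s(b, u)
      · simp [h]
      · simp [h]
    · simp [hb]
  rw [sum_congr rfl h1, sum_add_distrib, Finset.sum_ite_eq', if_pos ha]
  omega

theorem esum_congr {w w' : Sym2 V → ℕ} {U X : Finset V} (h : ∀ e ∈ U.sym2, w e = w' e)
    (hX : X ⊆ U) : esum w X = esum w' X :=
  sum_congr rfl fun e he => h e (Finset.sym2_mono hX he)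

theorem unm_congr {w w' : Sym2 V → ℕ} {U X : Finset V} (h : ∀ e ∈ U.sym2, w e = w' e)
    (hX : X ⊆ U) (σ : Sym2 V → Sym2 V) : unm w σ X = unm w' σ X := by
  unfold unm
  congr 1
  refine Finset.filter_congr fun e he => ?_
  rw [h e (Finset.sym2_mono hX he)]

theorem inv_congr {w w' : Sym2 V → ℕ} {U : Finset V} (h : ∀ e ∈ U.sym2, w e = w' e)
    {σ : Sym2 V → Sym2 V} (hi : Inv w U σ) : Inv w' U σ := by
  intro e he ho
  rw [← h e he] at ho
  obtain ⟨h1, h2, h3⟩ := hi e he ho
  exact ⟨h1, by rw [← h _ h1]; exact h2, h3⟩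

end R2Q

theorem t_R2Q (hF : S_FLIP) (hB : S_BASE) : S_R2Q := by
  intro V _ S v u k t
  induction t with
  | zero =>
    intro w hvS huU hX hI hT _ _
    have h0 : addn w u (S.erase v) (fun _ => 0) = w := by
      funext e
      unfold addn
      simp
    refine ⟨fun _ => 0, fun a h => absurd h (by simp), by simp, ?_, ?_⟩
    · rw [h0]
      exact hX
    · intro σ' hσ'
      rw [h0] at hσ' ⊢
      obtain ⟨σ, h1, h2, h3⟩ := hB V S v k w σ' hvS hT hσ'
      refine ⟨σ, h1, fun X hXU _ => Nat.add_le_add_left (h2 X hXU) _, fun X hXU _ => h3 X hXU⟩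
  | succ t ih =>
    intro w hvS huU hX hI hT hT' hQ
    have hTT := hT' (Nat.succ_pos t)
    set U : Finset V := S.erase v with hU
    have hvU : v ∉ U := by simp [hU]
    have huv : u ≠ v := fun h => hvU (h ▸ huU)
    have hsub : ∀ X ⊆ U, v ∉ X := fun X hXU hv => hvU (hXU hv)
    have hsum : ∑ a ∈ U, w s(v, a) = ∑ a ∈ U.erase u, w s(v, a) + w s(v, u) :=
      (Finset.sum_erase_add U _ huU).symm
    have hwu : 0 < w s(v, u) := by omega
    -- the largest tight set
    have hne : (U.powerset.filter fun X => u ∈ X ∧ esum w X + 2 * k = 2 * k * X.card).Nonempty := by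
      refine ⟨{u}, ?_⟩
      rw [mem_filter, mem_powerset]
      have h1 := hX {u} (singleton_subset_iff.2 huU) (singleton_nonempty u)
      rw [card_singleton] at h1 ⊢
      refine ⟨singleton_subset_iff.2 huU, mem_singleton_self u, by omega⟩
    obtain ⟨M, hM, hmax⟩ := Finset.exists_max_image _ Finset.card hne
    rw [mem_filter, mem_powerset] at hM
    obtain ⟨hMU, huM, hMt⟩ := hM
    have htight : ∀ X ⊆ U, u ∈ X → esum w X + 2 * k = 2 * k * X.card → X ⊆ M := by
      intro X hXU huX hXt
      have h1 := R2Q.esum_super w X M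
      have h2 := hX (X ∪ M) (union_subset hXU hMU) ⟨u, mem_union_left _ huX⟩
      have h3 := hX (X ∩ M) (inter_subset_left.trans hXU) ⟨u, mem_inter.2 ⟨huX, huM⟩⟩
      have h4 : (X ∪ M).card + (X ∩ M).card = X.card + M.card := card_union_add_card_inter X M
      have h5 : 2 * k * (X ∪ M).card + 2 * k * (X ∩ M).card = 2 * k * X.card + 2 * k * M.card := by
        rw [← Nat.mul_add, ← Nat.mul_add, h4]
      have h6 : esum w (X ∪ M) + 2 * k = 2 * k * (X ∪ M).card := by omega
      have h7 := hmax (X ∪ M) (by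
        rw [mem_filter, mem_powerset]
        exact ⟨union_subset hXU hMU, mem_union_left _ huX, h6⟩)
      have h8 : M = X ∪ M := Finset.eq_of_subset_of_card_le subset_union_right h7
      rw [h8]
      exact subset_union_left
    -- the vertex a
    obtain ⟨a, haU, haM, hwa⟩ : ∃ a ∈ U, a ∉ M ∧ 0 < w s(v, a) := by
      by_contra hcon
      push Not at hcon
      have h1 := hI M hMU huM
      rw [SP.esum_ins w (hsub M hMU)] at h1
      have h2 : ∑ a ∈ U, w s(v, a) = ∑ a ∈ M, w s(v, a) := by
        symm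
        refine Finset.sum_subset hMU fun a haU haM => ?_
        have := hcon a haU haM
        omega
      omega
    have hau : a ≠ u := fun h => haM (h ▸ huM)
    have hav : a ≠ v := fun h => hvU (h ▸ haU)
    have hS1 := R2Q.sum_wt hau hav huv w hwa hwu hvU
    rw [if_pos haU, if_pos huU] at hS1
    have hS2 := R2Q.sum_wt hau hav huv w hwa hwu (X := U.erase u) (fun h => hvU (mem_of_mem_erase h))
    rw [if_pos (mem_erase.2 ⟨hau, haU⟩), if_neg (fun h => (mem_erase.1 h).1 rfl)] at hS2
    have hvv := R2Q.wt_vv hau hav huv w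
    obtain ⟨n1, hA, hBs, hC, hD⟩ := ih (R2Q.wt w v u a) hvS huU
      (by
        intro X hXU hXn
        rw [R2Q.esum_wt w (hsub X hXU)]
        have h1 := hX X hXU hXn
        by_cases hc : a ∈ X ∧ u ∈ X
        · rw [if_pos hc]
          have h2 : esum w X + 2 * k ≠ 2 * k * X.card := fun h => haM (htight X hXU hc.2 h hc.1)
          omega
        · rw [if_neg hc]
          omega)
      (by
        intro X hXU huX
        rw [R2Q.esum_wt_ins hau hav huv w hwa hwu (hsub X hXU) huX]
        exact hI X hXU huX)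
      (by omega) (fun _ => by omega) (by omega)
    have hag : ∀ e ∈ U.sym2, addn w u U (fun b => n1 b + if b = a then 1 else 0) e =
        addn (R2Q.wt w v u a) u U n1 e := fun e he => R2Q.addn_eq w hvU haU n1 he
    refine ⟨fun b => n1 b + if b = a then 1 else 0, ?_, ?_, ?_, ?_⟩
    · intro b hb
      have hb : 0 < n1 b + (if b = a then 1 else 0) := hb
      by_cases hba : b = a
      · subst hba
        exact ⟨mem_erase.2 ⟨hau, haU⟩, hwa⟩
      · rw [if_neg hba, Nat.add_zero] at hb
        obtain ⟨h1, h2⟩ := hA b hb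
        refine ⟨h1, ?_⟩
        have hbv : b ≠ v := fun h => hvU (h ▸ mem_of_mem_erase h1)
        have h3 := R2Q.wt_star hau hav huv w hwa hwu b hbv
        omega
    · rw [sum_add_distrib, Finset.sum_ite_eq', if_pos haU]
      omega
    · intro X hXU hXn
      rw [R2Q.esum_congr hag hXU]
      exact hC X hXU hXn
    · intro σ' hσ'
      obtain ⟨σ1, h1, h2, h3⟩ := hD σ' (R2Q.inv_congr hag hσ')
      have hvS' : v ∈ S := hvS
      have huS : u ∈ S := mem_of_mem_erase huU
      have haS : a ∈ S := mem_of_mem_erase haU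
      obtain ⟨σm, h4, h5⟩ := hF V S (R2Q.wm w v u) (R2Q.wt w v u a) s(a, u) s(v, a) σ1
        (mk_mem_sym2_iff.2 ⟨haS, huS⟩) (mk_mem_sym2_iff.2 ⟨hvS, haS⟩) (R2Q.ne1 hau hav huv)
        (R2Q.par1 hau hav huv w hwa hwu) h1
      obtain ⟨σ, h6, h7⟩ := hF V S w (R2Q.wm w v u) s(v, u) s(v, v) σm
        (mk_mem_sym2_iff.2 ⟨hvS, huS⟩) (mk_mem_sym2_iff.2 ⟨hvS, hvS⟩) (R2Q.ne6 hau hav huv)
        (R2Q.par2 w v u) h4
      refine ⟨σ, h6, ?_, ?_⟩
      · intro X hXU hXn
        have hXS : X ⊆ S := hXU.trans (erase_subset v S)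
        have hvX := hsub X hXU
        have e1 := h5 X hXS
        have e2 := h7 X hXS
        simp only [mk_mem_sym2_iff, hvX, false_and, and_false, or_self, if_false, not_false_eq_true,
          and_true, or_false] at e1 e2
        have e3 := h2 X hXU hXn
        rw [R2Q.esum_wt w hvX] at e3
        rw [R2Q.esum_congr hag hXU, R2Q.unm_congr hag hXU]
        omega
      · intro X hXU huX
        have hXS : insert v X ⊆ S := insert_subset hvS (hXU.trans (erase_subset v S))
        have hvX := hsub X hXU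
        have hvI : v ∈ insert v X := mem_insert_self v X
        have huI : u ∈ insert v X := mem_insert_of_mem huX
        have e1 := h5 (insert v X) hXS
        have e2 := h7 (insert v X) hXS
        simp only [mk_mem_sym2_iff, hvI, huI, and_self, true_and, and_true, not_true_eq_false,
          and_not_self_iff, not_and_self_iff, or_self, if_false] at e1 e2
        have e3 := h3 X hXU huX
        rw [R2Q.esum_wt_ins hau hav huv w hwa hwu hvX huX] at e3
        rw [R2Q.esum_congr hag hXU, R2Q.unm_congr hag hXU]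
        omega

end Pool.Agent.T2h30.KA
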