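import Pool.Agent.T2h30.KA.Defs2

set_option autoImplicit false

/-! # S_REL: deleting a vertex from a strongly connected set -/

namespace Pool.Agent.T2h30.KA

open Finset

theorem t_REL : S_REL := by
  intro V _ R X v hX hv hne
  refine ⟨?_, fun H => ⟨hne, fun x hx y hy => ?_⟩⟩
  · by_contra hcon
    push Not at hcon
    obtain ⟨y, hy⟩ := hne
    have hyv := mem_erase.1 hy
    have h1 := hX.2 v hv y hyv.2
    have h2 : ∀ z, Relation.ReflTransGen (fun a b => a ∈ X ∧ b ∈ X ∧ R a b) v z → z = v := by
      intro z hz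
      induction hz with
      | refl => rfl
      | @tail b c _ hbc ih =>
        by_contra hc
        rw [ih] at hbc
        exact hcon c hbc.2.1 hc hbc.2.2
    exact hyv.1 (h2 y h1)
  · have hxv := mem_erase.1 hx
    have hyv := mem_erase.1 hy
    have key : ∀ z, Relation.ReflTransGen (fun a b => a ∈ X ∧ b ∈ X ∧ R a b) x z →
        (z ≠ v → Relation.ReflTransGen
          (fun a b => a ∈ X.erase v ∧ b ∈ X.erase v ∧ R a b) x z) ∧
        (z = v → ∃ a ∈ X.erase v, Relation.ReflTransGen
          (fun a b => a ∈ X.erase v ∧ b ∈ X.erase v ∧ R a b) x a ∧ R a v) := by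
      intro z hz
      induction hz with
      | refl => exact ⟨fun _ => Relation.ReflTransGen.refl, fun h => absurd h hxv.1⟩
      | @tail b c _ hbc ih =>
        constructor
        · intro hc
          by_cases hb : b = v
          · obtain ⟨a, ha, hxa, hav⟩ := ih.2 hb
            have hbc' := hbc.2.2
            rw [hb] at hbc'
            by_cases hac : a = c
            · rw [← hac]
              exact hxa
            · have h3 := H a (mem_erase.1 ha).2 c hbc.2.1 (mem_erase.1 ha).1 hc hav hbc' hac
              exact hxa.tail ⟨ha, mem_erase.2 ⟨hc, hbc.2.1⟩, h3⟩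
          · exact (ih.1 hb).tail ⟨mem_erase.2 ⟨hb, hbc.1⟩, mem_erase.2 ⟨hc, hbc.2.1⟩, hbc.2.2⟩
        · intro hc
          by_cases hb : b = v
          · exact ih.2 hb
          · refine ⟨b, mem_erase.2 ⟨hb, hbc.1⟩, ih.1 hb, ?_⟩
            rw [← hc]
            exact hbc.2.2
    exact (key y (hX.2 x hxv.2 y hyv.2)).1 hyv.1

end Pool.Agent.T2h30.KA
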