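import Pool.Agent.T2h30.KA.SPX

set_option autoImplicit false

namespace Pool.Agent.T2h30.KA.SPY
open Finset SP

variable {V : Type} [DecidableEq V]

theorem fin {R : V → V → Prop} {S : Finset V} {v : V} (hv : v ∈ S) {k : ℕ} {w w' : Sym2 V → ℕ}
    {σ σ' : Sym2 V → Sym2 V}
    (hw : ∀ X ⊆ S, X.Nonempty → esum w X + 2 * k ≤ 2 * k * X.card)
    (ih : ∀ X ⊆ S.erase v, Rlv R X → esum w' X + 2 * k + unm w' σ' X ≤ 2 * k * X.card)
    (h1 : ∀ X ⊆ S.erase v, X.Nonempty → esum w X + unm w σ X ≤ esum w' X + unm w' σ' X)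
    (h2 : ∀ X ⊆ S.erase v, X.Nonempty → Rlv R (insert v X) →
      esum w (insert v X) + unm w σ (insert v X) ≤ esum w' X + unm w' σ' X + 2 * k)
    (hrel : ∀ X ⊆ S, v ∈ X → Rlv R X → (X.erase v).Nonempty → Rlv R (X.erase v)) :
    ∀ X ⊆ S, Rlv R X → esum w X + 2 * k + unm w σ X ≤ 2 * k * X.card := by
  intro X hX hR
  by_cases hvX : v ∈ X
  · have hX' : X.erase v ⊆ S.erase v := erase_subset_erase v hX
    rcases (X.erase v).eq_empty_or_nonempty with h0 | h0
    · have hXv : X = {v} := by
        rw [← insert_erase hvX, h0]; rfl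
      subst hXv
      have h3 := hw {v} hX hR.1
      have h4 : esum w {v} = 0 := by simpa using h3
      have h5 : unm w σ {v} = 0 := by
        unfold unm
        rw [card_eq_zero, filter_eq_empty_iff]
        rintro e he ⟨ho, -⟩
        unfold esum at h4
        rw [sum_eq_zero_iff] at h4
        rw [h4 e he] at ho
        omega
      rw [h4, h5]; simp
    · have h4 := ih _ hX' (hrel X hX hvX hR h0)
      have h3 := h2 _ hX' h0 (by rw [insert_erase hvX]; exact hR)
      rw [insert_erase hvX] at h3
      have h5 : X.card = (X.erase v).card + 1 := (card_erase_add_one hvX).symm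
      rw [h5, mul_add]
      omega
  · have hX' : X ⊆ S.erase v := subset_erase.2 ⟨hX, hvX⟩
    have h3 := h1 _ hX' hR.1
    have h4 := ih _ hX' hR
    omega

/-- the step `two` -/
theorem stepTwo (hREL : S_REL) {R : V → V → Prop} {S : Finset V} {v u t : V} (hvS : v ∈ S)
    (hN : ∀ x ∈ S, x ≠ v → (R v x ∨ R x v) → x = u ∨ x = t)
    (hadj : u ∈ S → t ∈ S → u ≠ t → u ≠ v → t ≠ v → (R v u ∨ R u v) → (R v t ∨ R t v) →
        R u t ∧ R t u)
    (IH : ∀ (k : ℕ) (w : Sym2 V → ℕ) (d : V → V → ℕ),
      (∀ x ∈ S.erase v, ∀ y ∈ S.erase v, x ≠ y → w s(x, y) = d x y + d y x) →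
      (∀ x ∈ S.erase v, ∀ y ∈ S.erase v, x ≠ y → 0 < d x y → R x y) →
      (∀ y ∈ S.erase v, ∑ x ∈ (S.erase v).erase y, d x y ≤ 2 * k) →
      (∀ X ⊆ S.erase v, X.Nonempty → esum w X + 2 * k ≤ 2 * k * X.card) →
      ∃ σ : Sym2 V → Sym2 V, Inv w (S.erase v) σ ∧
        ∀ X ⊆ S.erase v, Rlv R X → esum w X + 2 * k + unm w σ X ≤ 2 * k * X.card)
    (k : ℕ) (w : Sym2 V → ℕ) (d : V → V → ℕ)
    (hwd : ∀ x ∈ S, ∀ y ∈ S, x ≠ y → w s(x, y) = d x y + d y x)
    (hdR : ∀ x ∈ S, ∀ y ∈ S, x ≠ y → 0 < d x y → R x y)
    (hin : ∀ y ∈ S, ∑ x ∈ S.erase y, d x y ≤ 2 * k)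
    (hw : ∀ X ⊆ S, X.Nonempty → esum w X + 2 * k ≤ 2 * k * X.card) :
    ∃ σ : Sym2 V → Sym2 V, Inv w S σ ∧
      ∀ X ⊆ S, Rlv R X → esum w X + 2 * k + unm w σ X ≤ 2 * k * X.card := by
  obtain ⟨hvv, hle⟩ := star_le hvS hw
  have hsub : S.erase v ⊆ S := erase_subset _ _
  have hN2 : ∀ x ∈ S, x ≠ v → 0 < w s(v, x) → x = u ∨ x = t := by
    intro x hx hxv h
    rw [hwd v hvS x hx (fun h' => hxv h'.symm)] at h
    apply hN x hx hxv
    by_cases h1 : 0 < d v x
    · exact Or.inl (hdR v hvS x hx (fun h' => hxv h'.symm) h1)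
    · exact Or.inr (hdR x hx v hvS hxv (by omega))
  -- deleting `v` keeps strong connectivity
  have hrel : ∀ X ⊆ S, v ∈ X → Rlv R X → (X.erase v).Nonempty → Rlv R (X.erase v) := by
    intro X hX hvX hR hne
    refine (hREL V R X v hR hvX hne).2 ?_
    intro a ha b hb hav hbv h1 h2 hab
    have ha' := hN a (hX ha) hav (Or.inr h1)
    have hb' := hN b (hX hb) hbv (Or.inl h2)
    rcases ha' with rfl | rfl <;> rcases hb' with rfl | rfl
    · exact absurd rfl hab
    · exact (hadj (hX ha) (hX hb) hab hav hbv (Or.inr h1) (Or.inl h2)).1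
    · exact (hadj (hX hb) (hX ha) (fun h => hab h.symm) hbv hav (Or.inl h2) (Or.inr h1)).2
    · exact absurd rfl hab
  have hin' : ∀ y ∈ S.erase v, ∑ x ∈ (S.erase v).erase y, d x y ≤ 2 * k := by
    intro y hy
    exact le_trans (sum_le_sum_of_subset (erase_subset_erase y hsub)) (hin y (hsub hy))
  by_cases hd : ∑ x ∈ S.erase v, w s(v, x) ≤ 2 * k
  · obtain ⟨σ', h1, h2⟩ := IH k w d
      (fun x hx y hy => hwd x (hsub hx) y (hsub hy))
      (fun x hx y hy => hdR x (hsub hx) y (hsub hy)) hin'
      (fun X hX => hw X (hX.trans hsub))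
    obtain ⟨σ, h3, h4, h5⟩ := SPX.caseA hvS hw hN2 hd h1
    exact ⟨σ, h3, fin hvS hw h2 h4 (fun X hX hne _ => h5 X hX hne) hrel⟩
  · have hN3 : ∀ x ∈ S.erase v, 0 < w s(v, x) → x = u ∨ x = t :=
      fun x hx => hN2 x (hsub hx) (ne_of_mem_erase hx)
    have hle' : ∀ x ∈ S.erase v, w s(v, x) ≤ 2 * k := fun x hx => hle x (hsub hx)
    have hb : u ∈ S.erase v ∧ t ∈ S.erase v := by
      by_contra h
      exact hd (dsum_le hN3 hle' h)
    obtain ⟨hu, ht⟩ := hb
    have hut : u ≠ t := by
      intro h
      subst h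
      apply hd
      have : ∑ x ∈ S.erase v, w s(v, x) = w s(v, u) := by
        rw [← add_sum_erase _ _ hu, sum_eq_zero, add_zero]
        intro x hx
        rw [mem_erase] at hx
        by_contra h
        rcases hN3 x hx.2 (Nat.pos_of_ne_zero h) with h1 | h1 <;> exact hx.1 h1
      rw [this]; exact hle' u hu
    have hsum := dsum_both hut hN3 hu ht
    have hupos : 0 < w s(v, u) := by
      have := hle' t ht
      omega
    have htpos : 0 < w s(v, t) := by
      have := hle' u hu
      omega
    have huv : u ≠ v := ne_of_mem_erase hu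
    have htv : t ≠ v := ne_of_mem_erase ht
    have huS : u ∈ S := hsub hu
    have htS : t ∈ S := hsub ht
    have hRR : R u t ∧ R t u := by
      have hwu := hwd v hvS u huS (fun h => huv h.symm)
      have hwt := hwd v hvS t htS (fun h => htv h.symm)
      refine hadj huS htS hut huv htv ?_ ?_
      · by_cases h1 : 0 < d v u
        · exact Or.inl (hdR v hvS u huS (fun h => huv h.symm) h1)
        · exact Or.inr (hdR u huS v hvS huv (by omega))
      · by_cases h1 : 0 < d v t
        · exact Or.inl (hdR v hvS t htS (fun h => htv h.symm) h1)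
        · exact Or.inr (hdR t htS v hvS htv (by omega))
    obtain ⟨τ, hτ⟩ : ∃ τ, w s(v, u) + w s(v, t) = 2 * k + τ :=
      ⟨w s(v, u) + w s(v, t) - 2 * k, by omega⟩
    have hwu := hwd v hvS u huS (fun h => huv h.symm)
    have hwt := hwd v hvS t htS (fun h => htv h.symm)
    have hinv : d u v + d t v ≤ 2 * k := by
      have h1 := hin v hvS
      have h2 : d u v + d t v ≤ ∑ x ∈ S.erase v, d x v := by
        have h3 : ∑ x ∈ ({u, t} : Finset V), d x v = d u v + d t v := sum_pair hut
        rw [← h3]
        apply sum_le_sum_of_subset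
        intro x hx
        rw [mem_insert, mem_singleton] at hx
        rcases hx with rfl | rfl <;> assumption
      omega
    have hτle : τ ≤ d v u + d v t := by omega
    obtain ⟨p, q, hpq, hp, hq⟩ : ∃ p q, p + q = τ ∧ p ≤ d v u ∧ q ≤ d v t :=
      ⟨min τ (d v u), τ - min τ (d v u), by omega, by omega, by omega⟩
    have htu : t ≠ u := fun h => hut h.symm
    obtain ⟨σ', h1, h2⟩ := IH k (Function.update w s(u, t) (w s(u, t) + τ))
      (fun x y => d x y + (if x = t ∧ y = u then p else 0) + (if x = u ∧ y = t then q else 0))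
      (by
        intro x hx y hy hxy
        have h0 := hwd x (hsub hx) y (hsub hy) hxy
        by_cases he : s(x, y) = s(u, t)
        · rw [he, Function.update_self, ← he, h0]
          rw [Sym2.eq_iff] at he
          rcases he with ⟨rfl, rfl⟩ | ⟨rfl, rfl⟩
          · simp [hut, htu]
            omega
          · simp [hut, htu]
            omega
        · rw [Function.update_of_ne he, h0]
          have e1 : ¬ (x = t ∧ y = u) := by
            rintro ⟨rfl, rfl⟩; exact he Sym2.eq_swap
          have e2 : ¬ (x = u ∧ y = t) := by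
            rintro ⟨rfl, rfl⟩; exact he rfl
          have e3 : ¬ (y = t ∧ x = u) := fun h => e2 ⟨h.2, h.1⟩
          have e4 : ¬ (y = u ∧ x = t) := fun h => e1 ⟨h.2, h.1⟩
          simp only [if_neg e1, if_neg e2, if_neg e3, if_neg e4, add_zero])
      (by
        intro x hx y hy hxy h
        by_cases e1 : x = t ∧ y = u
        · obtain ⟨rfl, rfl⟩ := e1; exact hRR.2
        · by_cases e2 : x = u ∧ y = t
          · obtain ⟨rfl, rfl⟩ := e2; exact hRR.1
          · simp only [if_neg e1, if_neg e2, add_zero] at h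
            exact hdR x (hsub hx) y (hsub hy) hxy h)
      (by
        intro y hy
        have hvy : v ∈ S.erase y := mem_erase.2 ⟨fun h => (ne_of_mem_erase hy) h.symm, hvS⟩
        have hsp : ∑ x ∈ S.erase y, d x y = d v y + ∑ x ∈ (S.erase v).erase y, d x y := by
          rw [← add_sum_erase _ _ hvy, erase_right_comm]
        have hy2 := hin y (hsub hy)
        rw [sum_add_distrib, sum_add_distrib]
        have hA : ∑ x ∈ (S.erase v).erase y, (if x = t ∧ y = u then p else 0) ≤
            (if y = u then p else 0) := by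
          by_cases hyu : y = u
          · rw [if_pos hyu]
            calc ∑ x ∈ (S.erase v).erase y, (if x = t ∧ y = u then p else 0)
                ≤ ∑ x ∈ (S.erase v).erase y, (if x = t then p else 0) := by
                  apply sum_le_sum
                  intro x _
                  by_cases hx : x = t <;> simp [hx]
                  split_ifs <;> omega
              _ ≤ p := by rw [sum_ite_eq']; split_ifs <;> omega
          · rw [if_neg hyu]
            rw [sum_eq_zero]
            intro x _
            rw [if_neg (fun h => hyu h.2)]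
        have hB : ∑ x ∈ (S.erase v).erase y, (if x = u ∧ y = t then q else 0) ≤
            (if y = t then q else 0) := by
          by_cases hyt : y = t
          · rw [if_pos hyt]
            calc ∑ x ∈ (S.erase v).erase y, (if x = u ∧ y = t then q else 0)
                ≤ ∑ x ∈ (S.erase v).erase y, (if x = u then q else 0) := by
                  apply sum_le_sum
                  intro x _
                  by_cases hx : x = u <;> simp [hx]
                  split_ifs <;> omega
              _ ≤ q := by rw [sum_ite_eq']; split_ifs <;> omega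
          · rw [if_neg hyt]
            rw [sum_eq_zero]
            intro x _
            rw [if_neg (fun h => hyt h.2)]
        by_cases hyu : y = u
        · subst hyu
          rw [if_pos rfl] at hA
          rw [if_neg hut] at hB
          omega
        · by_cases hyt : y = t
          · subst hyt
            rw [if_neg hyu] at hA
            rw [if_pos rfl] at hB
            omega
          · rw [if_neg hyu] at hA
            rw [if_neg hyt] at hB
            omega)
      (by
        intro X hX hne
        rw [esum_upd]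
        by_cases hb : u ∈ X ∧ t ∈ X
        · rw [if_pos hb]
          have hvX : v ∉ X := fun h => notMem_erase v S (hX h)
          have h3 := hw (insert v X) (by
            intro x hx
            rcases mem_insert.1 hx with rfl | hx
            · exact hvS
            · exact hsub (hX hx)) (insert_nonempty _ _)
          rw [esum_ins w hvX, hvv, card_insert_of_notMem hvX,
            dsum_both hut (fun x hx h => hN3 x (hX hx) h) hb.1 hb.2, mul_add] at h3
          omega
        · rw [if_neg hb]
          exact hw X (hX.trans hsub) hne)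
    have hst : s(u, t) = s(t, u) := Sym2.eq_swap
    have hN4 : ∀ x ∈ S, x ≠ v → 0 < w s(v, x) → x = t ∨ x = u :=
      fun x hx hxv h => (hN2 x hx hxv h).symm
    have hτ' : w s(v, t) + w s(v, u) = 2 * k + τ := by omega
    have key : ∃ σ : Sym2 V → Sym2 V,
      (∀ e ∈ S.sym2, w e % 2 = 1 → σ e ∈ S.sym2 ∧ w (σ e) % 2 = 1 ∧ σ (σ e) = e) ∧
      (∀ X ⊆ S.erase v, X.Nonempty → esum w X + unm w σ X ≤
        esum (Function.update w s(u, t) (w s(u, t) + τ)) X +
        unm (Function.update w s(u, t) (w s(u, t) + τ)) σ' X) ∧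
      (∀ X ⊆ S.erase v, X.Nonempty → esum w (insert v X) + unm w σ (insert v X) ≤
        esum (Function.update w s(u, t) (w s(u, t) + τ)) X +
        unm (Function.update w s(u, t) (w s(u, t) + τ)) σ' X + 2 * k) := by
      by_cases hev : τ % 2 = 0
      · exact SPX.caseB1 hvS hw hN2 hut hτ hev rfl h1
      · have hodd : τ % 2 = 1 := by omega
        by_cases hα : w s(v, u) % 2 = 1
        · by_cases h0 : w s(u, t) % 2 = 1
          · exact SPX.caseB2i hvS hw hN2 hu ht hut hτ hodd hα h0 rfl h1
          · exact SPX.caseB2ii hvS hw hN2 hu ht hut hτ hodd hα (by omega) rfl h1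
        · have hβ : w s(v, t) % 2 = 1 := by omega
          by_cases h0 : w s(u, t) % 2 = 1
          · exact SPX.caseB2i hvS hw hN4 ht hu (fun h => hut h.symm) hτ' hodd hβ (hst ▸ h0)
              (by rw [hst]) h1
          · exact SPX.caseB2ii hvS hw hN4 ht hu (fun h => hut h.symm) hτ' hodd hβ
              (by rw [← hst]; omega) (by rw [hst]) h1
    obtain ⟨σ, h3, h4, h5⟩ := key
    exact ⟨σ, h3, fin hvS hw h2 h4 (fun X hX hne _ => h5 X hX hne) hrel⟩

/-- the step `one` -/
theorem stepOne (hR2Q : S_R2Q) (hBASE : S_BASE) (hREL : S_REL) {R : V → V → Prop}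
    {S : Finset V} {v u : V} (hvS : v ∈ S)
    (hout : ∀ x ∈ S, x ≠ v → R v x → x = u)
    (hfill : ∀ a ∈ S, a ≠ v → a ≠ u → R a v → R v u → u ∈ S → u ≠ v → R a u)
    (IH : ∀ (k : ℕ) (w : Sym2 V → ℕ) (d : V → V → ℕ),
      (∀ x ∈ S.erase v, ∀ y ∈ S.erase v, x ≠ y → w s(x, y) = d x y + d y x) →
      (∀ x ∈ S.erase v, ∀ y ∈ S.erase v, x ≠ y → 0 < d x y → R x y) →
      (∀ y ∈ S.erase v, ∑ x ∈ (S.erase v).erase y, d x y ≤ 2 * k) →
      (∀ X ⊆ S.erase v, X.Nonempty → esum w X + 2 * k ≤ 2 * k * X.card) →
      ∃ σ : Sym2 V → Sym2 V, Inv w (S.erase v) σ ∧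
        ∀ X ⊆ S.erase v, Rlv R X → esum w X + 2 * k + unm w σ X ≤ 2 * k * X.card)
    (k : ℕ) (w : Sym2 V → ℕ) (d : V → V → ℕ)
    (hwd : ∀ x ∈ S, ∀ y ∈ S, x ≠ y → w s(x, y) = d x y + d y x)
    (hdR : ∀ x ∈ S, ∀ y ∈ S, x ≠ y → 0 < d x y → R x y)
    (hin : ∀ y ∈ S, ∑ x ∈ S.erase y, d x y ≤ 2 * k)
    (hw : ∀ X ⊆ S, X.Nonempty → esum w X + 2 * k ≤ 2 * k * X.card) :
    ∃ σ : Sym2 V → Sym2 V, Inv w S σ ∧
      ∀ X ⊆ S, Rlv R X → esum w X + 2 * k + unm w σ X ≤ 2 * k * X.card := by
  obtain ⟨hvv, hle⟩ := star_le hvS hw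
  have hsub : S.erase v ⊆ S := erase_subset _ _
  have hin' : ∀ y ∈ S.erase v, ∑ x ∈ (S.erase v).erase y, d x y ≤ 2 * k := by
    intro y hy
    exact le_trans (sum_le_sum_of_subset (erase_subset_erase y hsub)) (hin y (hsub hy))
  have hwv : ∀ a ∈ S.erase v, a ≠ u → w s(v, a) = d a v := by
    intro a ha hau
    have hav : a ≠ v := ne_of_mem_erase ha
    rw [hwd v hvS a (hsub ha) (fun h => hav h.symm)]
    have : d v a = 0 := by
      by_contra h
      exact hau (hout a (hsub ha) hav (hdR v hvS a (hsub ha) (fun h' => hav h'.symm)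
        (Nat.pos_of_ne_zero h)))
    omega
  have hrel : ∀ X ⊆ S, v ∈ X → Rlv R X → (X.erase v).Nonempty → Rlv R (X.erase v) := by
    intro X hX hvX hR hne
    refine (hREL V R X v hR hvX hne).2 ?_
    intro a ha b hb hav hbv h1 h2 hab
    have hb' := hout b (hX hb) hbv h2
    subst hb'
    exact hfill a (hX ha) hav hab h1 h2 (hX hb) hbv
  by_cases hu : u ∈ S.erase v ∧ R v u
  · obtain ⟨hu, hRvu⟩ := hu
    have huv : u ≠ v := ne_of_mem_erase hu
    have huS : u ∈ S := hsub hu
    have hwu := hwd v hvS u huS (fun h => huv h.symm)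
    have htot : ∑ a ∈ S.erase v, w s(v, a) =
        w s(v, u) + ∑ a ∈ (S.erase v).erase u, w s(v, a) := (add_sum_erase _ _ hu).symm
    have hrest : ∑ a ∈ (S.erase v).erase u, w s(v, a) = ∑ a ∈ (S.erase v).erase u, d a v :=
      sum_congr rfl fun a ha => hwv a (mem_of_mem_erase ha) (ne_of_mem_erase ha)
    have hinv : d u v + ∑ a ∈ (S.erase v).erase u, d a v ≤ 2 * k := by
      rw [add_sum_erase _ (fun a => d a v) hu]; exact hin v hvS
    set T := w s(v, v) + ∑ a ∈ S.erase v, w s(v, a) with hT
    obtain ⟨n, hn, hnt, hs, hσ⟩ := hR2Q V S v u k (T - 2 * k) w hvS hu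
      (fun X hX => hw X (hX.trans hsub))
      (by
        intro X hX _
        have hvX : v ∉ X := fun h => notMem_erase v S (hX h)
        have h3 := hw (insert v X) (by
          intro x hx
          rcases mem_insert.1 hx with rfl | hx
          · exact hvS
          · exact hsub (hX hx)) (insert_nonempty _ _)
        rw [card_insert_of_notMem hvX, mul_add] at h3
        omega)
      (by omega) (by omega) (by rw [hvv, hrest]; omega)
    have htle : T - 2 * k ≤ d v u := by omega
    -- value of addn
    have haddn : ∀ x ∈ S.erase v, ∀ y ∈ S.erase v, x ≠ y →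
        addn w u (S.erase v) n s(x, y) = w s(x, y) + (if y = u then n x else 0) +
          (if x = u then n y else 0) := by
      intro x hx y hy hxy
      unfold addn
      by_cases hyu : y = u
      · have hxu : x ≠ u := fun h => hxy (h.trans hyu.symm)
        rw [if_pos hyu, if_neg hxu, add_zero]
        congr 1
        rw [sum_eq_single_of_mem x hx]
        · rw [if_pos (by rw [hyu])]
        · intro a _ hax
          rw [if_neg]
          intro h
          rw [Sym2.eq_iff] at h
          rcases h with ⟨h, _⟩ | ⟨h, _⟩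
          · exact hax h.symm
          · exact hxu h
      · by_cases hxu : x = u
        · rw [if_neg hyu, if_pos hxu, add_zero]
          congr 1
          rw [sum_eq_single_of_mem y hy]
          · rw [if_pos (by rw [hxu]; exact Sym2.eq_swap)]
          · intro a _ hay
            rw [if_neg]
            intro h
            rw [Sym2.eq_iff] at h
            rcases h with ⟨_, h⟩ | ⟨_, h⟩
            · exact hyu h
            · exact hay h.symm
        · rw [if_neg hyu, if_neg hxu, add_zero, add_zero, sum_eq_zero, add_zero]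
          intro a _
          rw [if_neg]
          intro h
          rw [Sym2.eq_iff] at h
          rcases h with ⟨_, h⟩ | ⟨h, _⟩
          · exact hyu h
          · exact hxu h
    obtain ⟨σ', h1, h2⟩ := IH k (addn w u (S.erase v) n)
      (fun x y => d x y + (if y = u then n x else 0))
      (by
        intro x hx y hy hxy
        rw [haddn x hx y hy hxy, hwd x (hsub hx) y (hsub hy) hxy]
        ring)
      (by
        intro x hx y hy hxy h
        by_cases hyu : y = u
        · subst hyu
          by_cases hd : 0 < d x y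
          · exact hdR x (hsub hx) y (hsub hy) hxy hd
          · have hnx : 0 < n x := by
              simp only [if_true] at h
              omega
            have h3 := hn x hnx
            have hxv : x ≠ v := ne_of_mem_erase hx
            rw [hwv x hx hxy] at h3
            exact hfill x (hsub hx) hxv hxy (hdR x (hsub hx) v hvS hxv h3.2) hRvu huS huv
        · simp only [if_neg hyu, add_zero] at h
          exact hdR x (hsub hx) y (hsub hy) hxy h)
      (by
        intro y hy
        rw [sum_add_distrib]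
        by_cases hyu : y = u
        · subst hyu
          have hvy : v ∈ S.erase y := mem_erase.2 ⟨fun h => (ne_of_mem_erase hy) h.symm, hvS⟩
          have hsp : ∑ x ∈ S.erase y, d x y = d v y + ∑ x ∈ (S.erase v).erase y, d x y := by
            rw [← add_sum_erase _ _ hvy, erase_right_comm]
          have hy2 := hin y (hsub hy)
          have hn2 : ∑ x ∈ (S.erase v).erase y, (if y = y then n x else 0) ≤
              ∑ a ∈ S.erase v, n a := by
            simp only [if_true]
            exact sum_le_sum_of_subset (erase_subset _ _)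
          omega
        · simp only [if_neg hyu, sum_const_zero, add_zero]
          exact hin' y hy)
      hs
    obtain ⟨σ, h3, h4, h5⟩ := hσ σ' h1
    refine ⟨σ, h3, fin hvS hw h2 h4 (fun X hX hne hR => h5 X hX ?_) hrel⟩
    have hvX : v ∉ X := fun h => notMem_erase v S (hX h)
    obtain ⟨b, hb, hbv, hRb⟩ := (hREL V R (insert v X) v hR (mem_insert_self _ _)
      (by rw [erase_insert hvX]; exact hne)).1
    have hbX : b ∈ X := (mem_insert.1 hb).resolve_left hbv
    have hbu := hout b (hsub (hX hbX)) hbv hRb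
    exact hbu ▸ hbX
  · -- no out-neighbour
    have hnout : ∀ x ∈ S, x ≠ v → ¬ R v x := by
      intro x hx hxv hR
      have h1 := hout x hx hxv hR
      subst h1
      exact hu ⟨mem_erase.2 ⟨hxv, hx⟩, hR⟩
    obtain ⟨σ', h1, h2⟩ := IH k w d
      (fun x hx y hy => hwd x (hsub hx) y (hsub hy))
      (fun x hx y hy => hdR x (hsub hx) y (hsub hy)) hin'
      (fun X hX => hw X (hX.trans hsub))
    have hstar : w s(v, v) + ∑ a ∈ S.erase v, w s(v, a) ≤ 2 * k := by
      rw [hvv, zero_add]
      have : ∑ a ∈ S.erase v, w s(v, a) = ∑ a ∈ S.erase v, d a v := by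
        apply sum_congr rfl
        intro a ha
        have hav : a ≠ v := ne_of_mem_erase ha
        rw [hwd v hvS a (hsub ha) (fun h => hav h.symm)]
        have : d v a = 0 := by
          by_contra h
          exact hnout a (hsub ha) hav (hdR v hvS a (hsub ha) (fun h' => hav h'.symm)
            (Nat.pos_of_ne_zero h))
        omega
      rw [this]; exact hin v hvS
    obtain ⟨σ, h3, h4, h5⟩ := hBASE V S v k w σ' hvS hstar h1
    exact ⟨σ, h3, fin hvS hw h2 (fun X hX _ => Nat.add_le_add_left (h4 X hX) _)
      (fun X hX _ _ => h5 X hX) hrel⟩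

end Pool.Agent.T2h30.KA.SPY

namespace Pool.Agent.T2h30.KA
open Finset SP SPY

theorem t_SP2 (hR2Q : S_R2Q) (hBASE : S_BASE) (hREL : S_REL) : S_SP2 := by
  intro V _ R S hEL
  induction hEL with
  | empty =>
    intro k w d _ _ _ _
    refine ⟨id, ?_, ?_⟩
    · intro e he; simp at he
    · intro X hX hR
      obtain ⟨x, hx⟩ := hR.1
      exact absurd (hX hx) (notMem_empty x)
  | two S v u t hvS hN hadj _ IH => exact stepTwo hREL hvS hN hadj IH
  | one S v u hvS hout hin _ IH => exact stepOne hR2Q hBASE hREL hvS hout hin IH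

end Pool.Agent.T2h30.KA
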