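import Pool.Agent.T2h30.KA.Defs3
import Pool.Agent.T2h30.KA.T_SP2

set_option autoImplicit false

namespace Pool.Agent.T2h30.KA.SPZ
open Finset SP SPY

variable {V : Type} [DecidableEq V]

omit [DecidableEq V] in
theorem rlv_swap {R : V → V → Prop} {X : Finset V} (h : Rlv R X) :
    Rlv (fun x y => R y x) X := by
  refine ⟨h.1, fun x hx y hy => ?_⟩
  have key : ∀ z, Relation.ReflTransGen (fun a b => a ∈ X ∧ b ∈ X ∧ R a b) y z →
      Relation.ReflTransGen (fun a b => a ∈ X ∧ b ∈ X ∧ R b a) z y := by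
    intro z hz
    induction hz with
    | refl => exact Relation.ReflTransGen.refl
    | tail _ hbc ih => exact Relation.ReflTransGen.head ⟨hbc.2.1, hbc.1, hbc.2.2⟩ ih
  exact key x (h.2 y hy x hx)

theorem addn_val {S : Finset V} {v u : V} (w : Sym2 V → ℕ) (n : V → ℕ) :
    ∀ x ∈ S.erase v, ∀ y ∈ S.erase v, x ≠ y →
        addn w u (S.erase v) n s(x, y) = w s(x, y) + (if y = u then n x else 0) +
          (if x = u then n y else 0) := by
  intro x hx y hy hxy
  unfold addn
  by_cases hyu : y = u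
  · have hxu : x ≠ u := fun h => hxy (h.trans hyu.symm)
    rw [if_pos hyu, if_neg hxu, add_zero]
    congr 1
    rw [sum_eq_single_of_mem x hx]
    · rw [if_pos (by rw [hyu])]
    · intro a _ hax
      rw [if_neg]
      intro h
      rw [Sym2.eq_iff] at h
      rcases h with ⟨h, _⟩ | ⟨h, _⟩
      · exact hax h.symm
      · exact hxu h
  · by_cases hxu : x = u
    · rw [if_neg hyu, if_pos hxu, add_zero]
      congr 1
      rw [sum_eq_single_of_mem y hy]
      · rw [if_pos (by rw [hxu]; exact Sym2.eq_swap)]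
      · intro a _ hay
        rw [if_neg]
        intro h
        rw [Sym2.eq_iff] at h
        rcases h with ⟨_, h⟩ | ⟨_, h⟩
        · exact hyu h
        · exact hay h.symm
    · rw [if_neg hyu, if_neg hxu, add_zero, add_zero, sum_eq_zero, add_zero]
      intro a _
      rw [if_neg]
      intro h
      rw [Sym2.eq_iff] at h
      rcases h with ⟨_, h⟩ | ⟨h, _⟩
      · exact hyu h
      · exact hxu h

/-- the step `inn` -/
theorem stepInn (hR3Q : S_R3Q) (hREL : S_REL) {R : V → V → Prop}
    {S : Finset V} {v u : V} (hvS : v ∈ S)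
    (hinn : ∀ x ∈ S, x ≠ v → R x v → x = u)
    (hfill : ∀ b ∈ S, b ≠ v → b ≠ u → R v b → R u v → u ∈ S → u ≠ v → R u b)
    (IH : ∀ (k : ℕ) (w : Sym2 V → ℕ) (d : V → V → ℕ),
      (∀ x ∈ S.erase v, ∀ y ∈ S.erase v, x ≠ y → w s(x, y) = d x y + d y x) →
      (∀ x ∈ S.erase v, ∀ y ∈ S.erase v, x ≠ y → 0 < d x y → R x y) →
      (∀ y ∈ S.erase v, ∑ x ∈ (S.erase v).erase y, d x y ≤ 2 * k) →
      (∀ X ⊆ S.erase v, X.Nonempty → esum w X + 2 * k ≤ 2 * k * X.card) →
      ∃ σ : Sym2 V → Sym2 V, Inv w (S.erase v) σ ∧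
        ∀ X ⊆ S.erase v, Rlv R X → esum w X + 2 * k + unm w σ X ≤ 2 * k * X.card)
    (k : ℕ) (w : Sym2 V → ℕ) (d : V → V → ℕ)
    (hwd : ∀ x ∈ S, ∀ y ∈ S, x ≠ y → w s(x, y) = d x y + d y x)
    (hdR : ∀ x ∈ S, ∀ y ∈ S, x ≠ y → 0 < d x y → R x y)
    (hin : ∀ y ∈ S, ∑ x ∈ S.erase y, d x y ≤ 2 * k)
    (hw : ∀ X ⊆ S, X.Nonempty → esum w X + 2 * k ≤ 2 * k * X.card) :
    ∃ σ : Sym2 V → Sym2 V, Inv w S σ ∧
      ∀ X ⊆ S, Rlv R X → esum w X + 2 * k + unm w σ X ≤ 2 * k * X.card := by
  have hsub : S.erase v ⊆ S := erase_subset _ _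
  have hin' : ∀ y ∈ S.erase v, ∑ x ∈ (S.erase v).erase y, d x y ≤ 2 * k := by
    intro y hy
    exact le_trans (sum_le_sum_of_subset (erase_subset_erase y hsub)) (hin y (hsub hy))
  have hwv : ∀ a ∈ S.erase v, a ≠ u → w s(v, a) = d v a := by
    intro a ha hau
    have hav : a ≠ v := ne_of_mem_erase ha
    rw [hwd v hvS a (hsub ha) (fun h => hav h.symm)]
    have : d a v = 0 := by
      by_contra h
      exact hau (hinn a (hsub ha) hav (hdR a (hsub ha) v hvS hav (Nat.pos_of_ne_zero h)))
    omega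
  have hrel : ∀ X ⊆ S, v ∈ X → Rlv R X → (X.erase v).Nonempty → Rlv R (X.erase v) := by
    intro X hX hvX hR hne
    refine (hREL V R X v hR hvX hne).2 ?_
    intro a ha b hb hav hbv h1 h2 hab
    have ha' := hinn a (hX ha) hav h1
    subst ha'
    exact hfill b (hX hb) hbv (fun h => hab h.symm) h2 h1 (hX ha) hav
  by_cases hu : u ∈ S.erase v ∧ R u v
  · obtain ⟨hu, hRuv⟩ := hu
    have huv : u ≠ v := ne_of_mem_erase hu
    have huS : u ∈ S := hsub hu
    obtain ⟨n, hn, hnw, -, hs, hσ⟩ := hR3Q V S v u k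
      (w s(v, v) + ∑ a ∈ S.erase v, w s(v, a)) w hvS hu
      (fun X hX => hw X (hX.trans hsub))
      (by
        intro X hX _
        have hvX : v ∉ X := fun h => notMem_erase v S (hX h)
        have h3 := hw (insert v X) (by
          intro x hx
          rcases mem_insert.1 hx with rfl | hx
          · exact hvS
          · exact hsub (hX hx)) (insert_nonempty _ _)
        rw [card_insert_of_notMem hvX, mul_add] at h3
        omega)
      (by omega)
    have haddn := addn_val (S := S) (v := v) (u := u) w n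
    obtain ⟨σ', h1, h2⟩ := IH k (addn w u (S.erase v) n)
      (fun x y => d x y + (if x = u then n y else 0))
      (by
        intro x hx y hy hxy
        rw [haddn x hx y hy hxy, hwd x (hsub hx) y (hsub hy) hxy]
        ring)
      (by
        intro x hx y hy hxy h
        by_cases hxu : x = u
        · subst hxu
          by_cases hd : 0 < d x y
          · exact hdR x (hsub hx) y (hsub hy) hxy hd
          · have hnx : 0 < n y := by
              simp only [if_true] at h
              omega
            have h3 := hnw y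
            have hyv : y ≠ v := ne_of_mem_erase hy
            rw [hwv y hy (fun h => hxy h.symm)] at h3
            exact hfill y (hsub hy) hyv (fun h => hxy h.symm)
              (hdR v hvS y (hsub hy) (fun h => hyv h.symm) (by omega)) hRuv huS huv
        · simp only [if_neg hxu, add_zero] at h
          exact hdR x (hsub hx) y (hsub hy) hxy h)
      (by
        intro y hy
        rw [sum_add_distrib, sum_ite_eq']
        by_cases hyu : y = u
        · subst hyu
          rw [if_neg (notMem_erase _ _)]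
          exact hin' y hy
        · have hvy : v ∈ S.erase y := mem_erase.2 ⟨fun h => (ne_of_mem_erase hy) h.symm, hvS⟩
          have hsp : ∑ x ∈ S.erase y, d x y = d v y + ∑ x ∈ (S.erase v).erase y, d x y := by
            rw [← add_sum_erase _ _ hvy, erase_right_comm]
          have hy2 := hin y (hsub hy)
          have h3 := hnw y
          rw [hwv y hy hyu] at h3
          split_ifs <;> omega)
      hs
    obtain ⟨σ, h3, h4, h5⟩ := hσ σ' h1
    refine ⟨σ, h3, fin hvS hw h2 h4 (fun X hX hne hR => h5 X hX ?_) hrel⟩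
    have hvX : v ∉ X := fun h => notMem_erase v S (hX h)
    obtain ⟨b, hb, hbv, hRb⟩ := (hREL V (fun x y => R y x) (insert v X) v (rlv_swap hR)
      (mem_insert_self _ _) (by rw [erase_insert hvX]; exact hne)).1
    have hbX : b ∈ X := (mem_insert.1 hb).resolve_left hbv
    have hbu := hinn b (hsub (hX hbX)) hbv hRb
    exact hbu ▸ hbX
  · -- no in-neighbour
    have hnin : ∀ x ∈ S, x ≠ v → ¬ R x v := by
      intro x hx hxv hR
      have h1 := hinn x hx hxv hR
      subst h1
      exact hu ⟨mem_erase.2 ⟨hxv, hx⟩, hR⟩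
    obtain ⟨σ', h1, h2⟩ := IH k w d
      (fun x hx y hy => hwd x (hsub hx) y (hsub hy))
      (fun x hx y hy => hdR x (hsub hx) y (hsub hy)) hin'
      (fun X hX => hw X (hX.trans hsub))
    refine ⟨fun e => if e ∈ (S.erase v).sym2 then σ' e else e, ?_, ?_⟩
    · intro e he ho
      by_cases h3 : e ∈ (S.erase v).sym2
      · obtain ⟨h4, h5, h6⟩ := h1 e h3 ho
        simp only [if_pos h3, if_pos h4]
        exact ⟨sym2_sub hsub h4, h5, h6⟩
      · simp only [if_neg h3]
        exact ⟨he, ho, trivial⟩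
    · refine fin hvS hw h2 (fun X hX _ => Nat.add_le_add_left
        (unm_mono (fun _ _ h => h) (fun e he _ => if_pos (sym2_sub hX he))) _) ?_ hrel
      intro X hX hne hR
      exfalso
      have hvX : v ∉ X := fun h => notMem_erase v S (hX h)
      obtain ⟨b, hb, hbv, hRb⟩ := (hREL V (fun x y => R y x) (insert v X) v (rlv_swap hR)
        (mem_insert_self _ _) (by rw [erase_insert hvX]; exact hne)).1
      have hbX : b ∈ X := (mem_insert.1 hb).resolve_left hbv
      exact hnin b (hsub (hX hbX)) hbv hRb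

end Pool.Agent.T2h30.KA.SPZ

namespace Pool.Agent.T2h30.KA
open Finset SP SPY SPZ

theorem t_SP3 (hR2Q : S_R2Q) (hR3Q : S_R3Q) (hBASE : S_BASE) (hREL : S_REL) : S_SP3 := by
  intro V _ R S hEL
  induction hEL with
  | empty =>
    intro k w d _ _ _ _
    refine ⟨id, ?_, ?_⟩
    · intro e he; simp at he
    · intro X hX hR
      obtain ⟨x, hx⟩ := hR.1
      exact absurd (hX hx) (notMem_empty x)
  | two S v u t hvS hN hadj _ IH => exact stepTwo hREL hvS hN hadj IH
  | out S v u hvS hout hin _ IH => exact stepOne hR2Q hBASE hREL hvS hout hin IH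
  | inn S v u hvS hin hout _ IH => exact stepInn hR3Q hREL hvS hin hout IH

end Pool.Agent.T2h30.KA
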