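import Pool.Agent.T2h30.KA.Defs4
import Pool.Agent.T2h30.KA.T_SP3

set_option autoImplicit false

namespace Pool.Agent.T2h30.KA.SPW
open Finset SP SPY SPZ

variable {V : Type} [DecidableEq V]

/-- the step `two` -/
theorem stepTwo (hREL : S_REL) {R : V → V → Prop} {S : Finset V} {v u t : V} (hvS : v ∈ S)
    (hN : ∀ x ∈ S, x ≠ v → (R v x ∨ R x v) → x = u ∨ x = t)
    (hadj : u ∈ S → t ∈ S → u ≠ t → u ≠ v → t ≠ v → (R v u ∨ R u v) → (R v t ∨ R t v) →
        R u t ∧ R t u)
    (IH : ∀ (k : ℕ) (w : Sym2 V → ℕ),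
      (∀ x ∈ S.erase v, ∀ y ∈ S.erase v, x ≠ y → 0 < w s(x, y) → R x y ∨ R y x) →
      (∀ X ⊆ S.erase v, X.Nonempty → esum w X + 2 * k ≤ 2 * k * X.card) →
      ∃ σ : Sym2 V → Sym2 V, Inv w (S.erase v) σ ∧
        ∀ X ⊆ S.erase v, Rlv R X → esum w X + 2 * k + unm w σ X ≤ 2 * k * X.card)
    (k : ℕ) (w : Sym2 V → ℕ)
    (hwR : ∀ x ∈ S, ∀ y ∈ S, x ≠ y → 0 < w s(x, y) → R x y ∨ R y x)
    (hw : ∀ X ⊆ S, X.Nonempty → esum w X + 2 * k ≤ 2 * k * X.card) :
    ∃ σ : Sym2 V → Sym2 V, Inv w S σ ∧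
      ∀ X ⊆ S, Rlv R X → esum w X + 2 * k + unm w σ X ≤ 2 * k * X.card := by
  obtain ⟨hvv, hle⟩ := star_le hvS hw
  have hsub : S.erase v ⊆ S := erase_subset _ _
  have hN2 : ∀ x ∈ S, x ≠ v → 0 < w s(v, x) → x = u ∨ x = t := by
    intro x hx hxv h
    exact hN x hx hxv (hwR v hvS x hx (fun h' => hxv h'.symm) h)
  -- deleting `v` keeps strong connectivity
  have hrel : ∀ X ⊆ S, v ∈ X → Rlv R X → (X.erase v).Nonempty → Rlv R (X.erase v) := by
    intro X hX hvX hR hne
    refine (hREL V R X v hR hvX hne).2 ?_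
    intro a ha b hb hav hbv h1 h2 hab
    have ha' := hN a (hX ha) hav (Or.inr h1)
    have hb' := hN b (hX hb) hbv (Or.inl h2)
    rcases ha' with rfl | rfl <;> rcases hb' with rfl | rfl
    · exact absurd rfl hab
    · exact (hadj (hX ha) (hX hb) hab hav hbv (Or.inr h1) (Or.inl h2)).1
    · exact (hadj (hX hb) (hX ha) (fun h => hab h.symm) hbv hav (Or.inl h2) (Or.inr h1)).2
    · exact absurd rfl hab
  by_cases hd : ∑ x ∈ S.erase v, w s(v, x) ≤ 2 * k
  · obtain ⟨σ', h1, h2⟩ := IH k w
      (fun x hx y hy => hwR x (hsub hx) y (hsub hy))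
      (fun X hX => hw X (hX.trans hsub))
    obtain ⟨σ, h3, h4, h5⟩ := SPX.caseA hvS hw hN2 hd h1
    exact ⟨σ, h3, fin hvS hw h2 h4 (fun X hX hne _ => h5 X hX hne) hrel⟩
  · have hN3 : ∀ x ∈ S.erase v, 0 < w s(v, x) → x = u ∨ x = t :=
      fun x hx => hN2 x (hsub hx) (ne_of_mem_erase hx)
    have hle' : ∀ x ∈ S.erase v, w s(v, x) ≤ 2 * k := fun x hx => hle x (hsub hx)
    have hb : u ∈ S.erase v ∧ t ∈ S.erase v := by
      by_contra h
      exact hd (dsum_le hN3 hle' h)
    obtain ⟨hu, ht⟩ := hb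
    have hut : u ≠ t := by
      intro h
      subst h
      apply hd
      have : ∑ x ∈ S.erase v, w s(v, x) = w s(v, u) := by
        rw [← add_sum_erase _ _ hu, sum_eq_zero, add_zero]
        intro x hx
        rw [mem_erase] at hx
        by_contra h
        rcases hN3 x hx.2 (Nat.pos_of_ne_zero h) with h1 | h1 <;> exact hx.1 h1
      rw [this]; exact hle' u hu
    have hsum := dsum_both hut hN3 hu ht
    have hupos : 0 < w s(v, u) := by
      have := hle' t ht
      omega
    have htpos : 0 < w s(v, t) := by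
      have := hle' u hu
      omega
    have huv : u ≠ v := ne_of_mem_erase hu
    have htv : t ≠ v := ne_of_mem_erase ht
    have huS : u ∈ S := hsub hu
    have htS : t ∈ S := hsub ht
    have hRR : R u t ∧ R t u := hadj huS htS hut huv htv
      (hwR v hvS u huS (fun h => huv h.symm) hupos)
      (hwR v hvS t htS (fun h => htv h.symm) htpos)
    obtain ⟨τ, hτ⟩ : ∃ τ, w s(v, u) + w s(v, t) = 2 * k + τ :=
      ⟨w s(v, u) + w s(v, t) - 2 * k, by omega⟩
    obtain ⟨σ', h1, h2⟩ := IH k (Function.update w s(u, t) (w s(u, t) + τ))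
      (by
        intro x hx y hy hxy h
        by_cases he : s(x, y) = s(u, t)
        · rw [Sym2.eq_iff] at he
          rcases he with ⟨rfl, rfl⟩ | ⟨rfl, rfl⟩
          · exact Or.inl hRR.1
          · exact Or.inr hRR.1
        · rw [Function.update_of_ne he] at h
          exact hwR x (hsub hx) y (hsub hy) hxy h)
      (by
        intro X hX hne
        rw [esum_upd]
        by_cases hb : u ∈ X ∧ t ∈ X
        · rw [if_pos hb]
          have hvX : v ∉ X := fun h => notMem_erase v S (hX h)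
          have h3 := hw (insert v X) (by
            intro x hx
            rcases mem_insert.1 hx with rfl | hx
            · exact hvS
            · exact hsub (hX hx)) (insert_nonempty _ _)
          rw [esum_ins w hvX, hvv, card_insert_of_notMem hvX,
            dsum_both hut (fun x hx h => hN3 x (hX hx) h) hb.1 hb.2, mul_add] at h3
          omega
        · rw [if_neg hb]
          exact hw X (hX.trans hsub) hne)
    have hst : s(u, t) = s(t, u) := Sym2.eq_swap
    have hN4 : ∀ x ∈ S, x ≠ v → 0 < w s(v, x) → x = t ∨ x = u :=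
      fun x hx hxv h => (hN2 x hx hxv h).symm
    have hτ' : w s(v, t) + w s(v, u) = 2 * k + τ := by omega
    have key : ∃ σ : Sym2 V → Sym2 V,
      (∀ e ∈ S.sym2, w e % 2 = 1 → σ e ∈ S.sym2 ∧ w (σ e) % 2 = 1 ∧ σ (σ e) = e) ∧
      (∀ X ⊆ S.erase v, X.Nonempty → esum w X + unm w σ X ≤
        esum (Function.update w s(u, t) (w s(u, t) + τ)) X +
        unm (Function.update w s(u, t) (w s(u, t) + τ)) σ' X) ∧
      (∀ X ⊆ S.erase v, X.Nonempty → esum w (insert v X) + unm w σ (insert v X) ≤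
        esum (Function.update w s(u, t) (w s(u, t) + τ)) X +
        unm (Function.update w s(u, t) (w s(u, t) + τ)) σ' X + 2 * k) := by
      by_cases hev : τ % 2 = 0
      · exact SPX.caseB1 hvS hw hN2 hut hτ hev rfl h1
      · have hodd : τ % 2 = 1 := by omega
        by_cases hα : w s(v, u) % 2 = 1
        · by_cases h0 : w s(u, t) % 2 = 1
          · exact SPX.caseB2i hvS hw hN2 hu ht hut hτ hodd hα h0 rfl h1
          · exact SPX.caseB2ii hvS hw hN2 hu ht hut hτ hodd hα (by omega) rfl h1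
        · have hβ : w s(v, t) % 2 = 1 := by omega
          by_cases h0 : w s(u, t) % 2 = 1
          · exact SPX.caseB2i hvS hw hN4 ht hu (fun h => hut h.symm) hτ' hodd hβ (hst ▸ h0)
              (by rw [hst]) h1
          · exact SPX.caseB2ii hvS hw hN4 ht hu (fun h => hut h.symm) hτ' hodd hβ
              (by rw [← hst]; omega) (by rw [hst]) h1
    obtain ⟨σ, h3, h4, h5⟩ := key
    exact ⟨σ, h3, fin hvS hw h2 h4 (fun X hX hne _ => h5 X hX hne) hrel⟩

/-- deleting a vertex `v` whose neighbours are joined to `u` -/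
theorem rel2 {R : V → V → Prop} {X : Finset V} {v u : V} (h : Rlv R X) (huX : u ∈ X)
    (huv : u ≠ v) (h1 : ∀ a ∈ X, a ≠ v → a ≠ u → R a v → R a u)
    (h2 : ∀ b ∈ X, b ≠ v → b ≠ u → R v b → R u b) : Rlv R (X.erase v) := by
  have huE : u ∈ X.erase v := mem_erase.2 ⟨huv, huX⟩
  refine ⟨⟨u, huE⟩, fun x hx y hy => ?_⟩
  have hxv : x ≠ v := ne_of_mem_erase hx
  have hyv : y ≠ v := ne_of_mem_erase hy
  have key : ∀ z, Relation.ReflTransGen (fun a b => a ∈ X ∧ b ∈ X ∧ R a b) x z →
      Relation.ReflTransGen (fun a b => a ∈ X.erase v ∧ b ∈ X.erase v ∧ R a b) x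
        (if z = v then u else z) := by
    intro z hz
    induction hz with
    | refl => rw [if_neg hxv]
    | @tail b c _ hbc ih =>
      obtain ⟨hb, hc, hR⟩ := hbc
      by_cases hbv : b = v
      · rw [if_pos hbv] at ih
        by_cases hcv : c = v
        · rw [if_pos hcv]; exact ih
        · rw [if_neg hcv]
          by_cases hcu : c = u
          · rw [hcu]; exact ih
          · exact ih.tail ⟨huE, mem_erase.2 ⟨hcv, hc⟩, h2 c hc hcv hcu (hbv ▸ hR)⟩
      · rw [if_neg hbv] at ih
        by_cases hcv : c = v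
        · rw [if_pos hcv]
          by_cases hbu : b = u
          · rw [hbu] at ih; exact ih
          · exact ih.tail ⟨mem_erase.2 ⟨hbv, hb⟩, huE, h1 b hb hbv hbu (hcv ▸ hR)⟩
        · rw [if_neg hcv]
          exact ih.tail ⟨mem_erase.2 ⟨hbv, hb⟩, mem_erase.2 ⟨hcv, hc⟩, hR⟩
  have := key y (h.2 x (mem_of_mem_erase hx) y (mem_of_mem_erase hy))
  rwa [if_neg hyv] at this

/-- the step `dom` -/
theorem stepDom (hR3Q : S_R3Q) {R : V → V → Prop}
    {S : Finset V} {v u : V} (hvS : v ∈ S) (huv : u ≠ v)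
    (hcyc : ∀ X ⊆ S, v ∈ X → Rlv R X → (X.erase v).Nonempty → u ∈ X)
    (hin : ∀ a ∈ S, a ≠ v → a ≠ u → R a v → u ∈ S → R a u)
    (hout : ∀ b ∈ S, b ≠ v → b ≠ u → R v b → u ∈ S → R u b)
    (IH : ∀ (k : ℕ) (w : Sym2 V → ℕ),
      (∀ x ∈ S.erase v, ∀ y ∈ S.erase v, x ≠ y → 0 < w s(x, y) → R x y ∨ R y x) →
      (∀ X ⊆ S.erase v, X.Nonempty → esum w X + 2 * k ≤ 2 * k * X.card) →
      ∃ σ : Sym2 V → Sym2 V, Inv w (S.erase v) σ ∧
        ∀ X ⊆ S.erase v, Rlv R X → esum w X + 2 * k + unm w σ X ≤ 2 * k * X.card)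
    (k : ℕ) (w : Sym2 V → ℕ)
    (hwR : ∀ x ∈ S, ∀ y ∈ S, x ≠ y → 0 < w s(x, y) → R x y ∨ R y x)
    (hw : ∀ X ⊆ S, X.Nonempty → esum w X + 2 * k ≤ 2 * k * X.card) :
    ∃ σ : Sym2 V → Sym2 V, Inv w S σ ∧
      ∀ X ⊆ S, Rlv R X → esum w X + 2 * k + unm w σ X ≤ 2 * k * X.card := by
  have hsub : S.erase v ⊆ S := erase_subset _ _
  have hrel : ∀ X ⊆ S, v ∈ X → Rlv R X → (X.erase v).Nonempty → Rlv R (X.erase v) := by
    intro X hX hvX hR hne
    have huX := hcyc X hX hvX hR hne
    exact rel2 hR huX huv (fun a ha hav hau h => hin a (hX ha) hav hau h (hX huX))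
      (fun b hb hbv hbu h => hout b (hX hb) hbv hbu h (hX huX))
  by_cases hu : u ∈ S.erase v
  · have huS : u ∈ S := hsub hu
    obtain ⟨n, hn, hnw, -, hs, hσ⟩ := hR3Q V S v u k
      (w s(v, v) + ∑ a ∈ S.erase v, w s(v, a)) w hvS hu
      (fun X hX => hw X (hX.trans hsub))
      (by
        intro X hX _
        have hvX : v ∉ X := fun h => notMem_erase v S (hX h)
        have h3 := hw (insert v X) (by
          intro x hx
          rcases mem_insert.1 hx with rfl | hx
          · exact hvS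
          · exact hsub (hX hx)) (insert_nonempty _ _)
        rw [card_insert_of_notMem hvX, mul_add] at h3
        omega)
      (by omega)
    have haddn := addn_val (S := S) (v := v) (u := u) w n
    have hnR : ∀ x ∈ S.erase v, x ≠ u → 0 < n x → R x u ∨ R u x := by
      intro x hx hxu hnx
      have hxv : x ≠ v := ne_of_mem_erase hx
      have h3 := hnw x
      rcases hwR v hvS x (hsub hx) (fun h => hxv h.symm) (by omega) with h4 | h4
      · exact Or.inr (hout x (hsub hx) hxv hxu h4 huS)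
      · exact Or.inl (hin x (hsub hx) hxv hxu h4 huS)
    obtain ⟨σ', h1, h2⟩ := IH k (addn w u (S.erase v) n)
      (by
        intro x hx y hy hxy h
        rw [haddn x hx y hy hxy] at h
        by_cases h0 : 0 < w s(x, y)
        · exact hwR x (hsub hx) y (hsub hy) hxy h0
        · by_cases hyu : y = u
          · subst hyu
            rw [if_pos rfl, if_neg hxy] at h
            exact hnR x hx hxy (by omega)
          · by_cases hxu : x = u
            · subst hxu
              rw [if_neg hyu, if_pos rfl] at h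
              exact (hnR y hy hyu (by omega)).symm
            · rw [if_neg hyu, if_neg hxu] at h
              omega)
      hs
    obtain ⟨σ, h3, h4, h5⟩ := hσ σ' h1
    refine ⟨σ, h3, fin hvS hw h2 h4 (fun X hX hne hR => h5 X hX ?_) hrel⟩
    have hvX : v ∉ X := fun h => notMem_erase v S (hX h)
    have h6 := hcyc (insert v X) (insert_subset hvS (hX.trans hsub)) (mem_insert_self _ _) hR
      (by rw [erase_insert hvX]; exact hne)
    exact (mem_insert.1 h6).resolve_left huv
  · obtain ⟨σ', h1, h2⟩ := IH k w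
      (fun x hx y hy => hwR x (hsub hx) y (hsub hy))
      (fun X hX => hw X (hX.trans hsub))
    refine ⟨fun e => if e ∈ (S.erase v).sym2 then σ' e else e, ?_, ?_⟩
    · intro e he ho
      by_cases h3 : e ∈ (S.erase v).sym2
      · obtain ⟨h4, h5, h6⟩ := h1 e h3 ho
        simp only [if_pos h3, if_pos h4]
        exact ⟨sym2_sub hsub h4, h5, h6⟩
      · simp only [if_neg h3]
        exact ⟨he, ho, trivial⟩
    · refine fin hvS hw h2 (fun X hX _ => Nat.add_le_add_left
        (unm_mono (fun _ _ h => h) (fun e he _ => if_pos (sym2_sub hX he))) _) ?_ hrel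
      intro X hX hne hR
      exfalso
      have hvX : v ∉ X := fun h => notMem_erase v S (hX h)
      have h6 := hcyc (insert v X) (insert_subset hvS (hX.trans hsub)) (mem_insert_self _ _) hR
        (by rw [erase_insert hvX]; exact hne)
      exact hu (hX ((mem_insert.1 h6).resolve_left huv))

end Pool.Agent.T2h30.KA.SPW

namespace Pool.Agent.T2h30.KA
open Finset SP SPY SPZ SPW

theorem t_SP4 (hR3Q : S_R3Q) (hREL : S_REL) : S_SP4 := by
  intro V _ R S hEL
  induction hEL with
  | empty =>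
    intro k w _ _
    refine ⟨id, ?_, ?_⟩
    · intro e he; simp at he
    · intro X hX hR
      obtain ⟨x, hx⟩ := hR.1
      exact absurd (hX hx) (notMem_empty x)
  | two S v u t hvS hN hadj _ IH => exact SPW.stepTwo hREL hvS hN hadj IH
  | dom S v u hvS huv hcyc hin hout _ IH => exact stepDom hR3Q hvS huv hcyc hin hout IH

end Pool.Agent.T2h30.KA
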