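import Pool.Agent.T2h30.KA.Defs2

/-! # SRC: source components -/

set_option autoImplicit false

namespace Pool.Agent.T2h30.KA

open Finset

theorem t_SRC : S_SRC := by
  classical
  intro V _ R X hX
  obtain ⟨Q, hQ⟩ : ∃ Q : V → V → Prop, Q = fun a b => a ∈ X ∧ b ∈ X ∧ R a b := ⟨_, rfl⟩
  obtain ⟨b0, hb0, hmin⟩ := exists_min_image X
    (fun b => (X.filter fun a => Relation.ReflTransGen Q a b).card) hX
  obtain ⟨X0, hX0⟩ : ∃ X0 : Finset V, X0 = X.filter fun a => Relation.ReflTransGen Q a b0 :=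
    ⟨_, rfl⟩
  have hmem : ∀ a, a ∈ X0 ↔ a ∈ X ∧ Relation.ReflTransGen Q a b0 := by
    intro a
    rw [hX0, mem_filter]
  have hb00 : b0 ∈ X0 := (hmem b0).2 ⟨hb0, Relation.ReflTransGen.refl⟩
  have h1 : ∀ a ∈ X0, Relation.ReflTransGen Q b0 a := by
    intro a ha
    have h2 : (X.filter fun x => Relation.ReflTransGen Q x a) ⊆ X0 := by
      intro x hx
      rw [mem_filter] at hx
      exact (hmem x).2 ⟨hx.1, hx.2.trans ((hmem a).1 ha).2⟩
    have h3 : X0.card ≤ (X.filter fun x => Relation.ReflTransGen Q x a).card := by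
      rw [hX0]
      exact hmin a ((hmem a).1 ha).1
    have h4 := eq_of_subset_of_card_le h2 h3
    have h5 : b0 ∈ X.filter fun x => Relation.ReflTransGen Q x a := by
      rw [h4]
      exact hb00
    exact (mem_filter.1 h5).2
  refine ⟨X0, fun a ha => ((hmem a).1 ha).1, ⟨⟨b0, hb00⟩, ?_⟩, ?_⟩
  · intro x hx y hy
    have h2 : Relation.ReflTransGen Q x y := ((hmem x).1 hx).2.trans (h1 y hy)
    have hyb := ((hmem y).1 hy).2
    clear hx
    induction h2 using Relation.ReflTransGen.head_induction_on with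
    | refl => exact Relation.ReflTransGen.refl
    | head hab hbc ih =>
      rename_i a b
      have hab' := hab
      rw [hQ] at hab'
      have hb : b ∈ X0 := (hmem b).2 ⟨hab'.2.1, hbc.trans hyb⟩
      have ha : a ∈ X0 := (hmem a).2 ⟨hab'.1, (Relation.ReflTransGen.head hab hbc).trans hyb⟩
      exact Relation.ReflTransGen.head ⟨ha, hb, hab'.2.2⟩ ih
  · intro a ha b hb hab
    have hb' := (hmem b).1 hb
    refine (hmem a).2 ⟨ha, Relation.ReflTransGen.head ?_ hb'.2⟩
    rw [hQ]
    exact ⟨ha, hb'.1, hab⟩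

end Pool.Agent.T2h30.KA
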