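import Pool.Agent.T2h30.KA.Defs4
import Pool.Agent.T2h30.KA.T_TWO

set_option autoImplicit false

namespace Pool.Agent.T2h30.KA

open Finset

namespace TWO4Aux

variable {V A : Type} [Fintype A] [DecidableEq V]

theorem good_of_rlv (hSRC : S_SRC) (R : V → V → Prop) (tail head : A → V) (r0 : V) (k : ℕ)
    (x : A → ℕ)
    (hadj : ∀ a, tail a ≠ r0 → head a ≠ r0 → tail a ≠ head a → R (tail a) (head a))
    (h1 : ∀ v, v ≠ r0 → ∑ a ∈ univ.filter (fun a => head a = v), x a = k)
    (h2 : ∀ a, head a = r0 → x a = 0)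
    (h3 : ∀ X : Finset V, X.Nonempty → r0 ∉ X → Rlv R X →
      inner tail head x X + k ≤ k * X.card) : Good tail head r0 k x := by
  refine ⟨h1, h2, fun X hX hr => ?_⟩
  obtain ⟨X0, hX0s, hX0R, hX0⟩ := hSRC V R X hX
  have hr0 : r0 ∉ X0 := fun h => hr (hX0s h)
  have h4 := h3 X0 hX0R.1 hr0 hX0R
  have h5 : inner tail head x X ≤ inner tail head x X0 +
      ∑ v ∈ X \ X0, ∑ a ∈ univ.filter (fun a => head a = v), x a := by
    unfold inner
    have h6 : ∑ v ∈ X \ X0, ∑ a ∈ univ.filter (fun a => head a = v), x a =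
        ∑ a ∈ univ.filter (fun a => head a ∈ X \ X0), x a := by
      classical
      rw [← sum_biUnion]
      · apply sum_congr _ (fun _ _ => rfl)
        ext a
        simp
      · intro u _ v _ huv
        rw [Function.onFun, disjoint_left]
        intro a ha hb
        rw [mem_filter] at ha hb
        exact huv (ha.2.symm.trans hb.2)
    rw [h6]
    rw [← sum_filter_add_sum_filter_not (univ.filter (fun a => tail a ∈ X ∧ head a ∈ X))
      (fun a => head a ∈ X0)]
    apply Nat.add_le_add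
    · apply sum_le_sum_of_subset
      intro a ha
      rw [filter_filter, mem_filter] at ha
      obtain ⟨-, ⟨h7, h8⟩, h9⟩ := ha
      rw [mem_filter]
      refine ⟨mem_univ _, ?_, h9⟩
      by_cases h10 : tail a = head a
      · rw [h10]
        exact h9
      · have h11 : tail a ≠ r0 := fun h => hr (h ▸ h7)
        have h12 : head a ≠ r0 := fun h => hr (h ▸ h8)
        exact hX0 _ h7 _ h9 (hadj a h11 h12 h10)
    · apply sum_le_sum_of_subset
      intro a ha
      rw [filter_filter, mem_filter] at ha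
      rw [mem_filter, mem_sdiff]
      exact ⟨mem_univ _, ha.2.1.2, ha.2.2⟩
  have h6 : ∑ v ∈ X \ X0, ∑ a ∈ univ.filter (fun a => head a = v), x a =
      k * (X \ X0).card := by
    rw [sum_congr rfl (fun v hv => h1 v (fun h => hr (h ▸ (mem_sdiff.1 hv).1))), sum_const,
      smul_eq_mul, mul_comm]
  have h7 : (X \ X0).card + X0.card = X.card := card_sdiff_add_card_eq_card hX0s
  rw [h6] at h5
  rw [← h7, mul_add]
  omega

theorem good_half2 (hSRC : S_SRC) (R : V → V → Prop) (tail head : A → V) (r0 : V) (k : ℕ)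
    (m x : A → ℕ) (z : A → ℤ) (u : Finset V → ℕ)
    (hadj : ∀ a, tail a ≠ r0 → head a ≠ r0 → tail a ≠ head a → R (tail a) (head a))
    (hx : ∀ a, 2 * (x a : ℤ) = m a + z a)
    (hm : ∀ v, v ≠ r0 → ∑ a ∈ univ.filter (fun a => head a = v), m a = 2 * k)
    (hz : ∀ v, v ≠ r0 → ∑ a ∈ univ.filter (fun a => head a = v), z a = 0)
    (h0 : ∀ a, head a = r0 → m a = 0 ∧ z a = 0)
    (hX : ∀ X : Finset V, X.Nonempty → r0 ∉ X → Rlv R X →
      inner tail head m X + 2 * k + u X ≤ 2 * k * X.card)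
    (hzX : ∀ X : Finset V, X.Nonempty → r0 ∉ X →
      ∑ a ∈ univ.filter (fun a => tail a ∈ X ∧ head a ∈ X), z a ≤ (u X : ℤ)) :
    Good tail head r0 k x := by
  have key : ∀ s : Finset A, 2 * ((∑ a ∈ s, x a : ℕ) : ℤ) =
      ((∑ a ∈ s, m a : ℕ) : ℤ) + ∑ a ∈ s, z a := by
    intro s
    push_cast
    rw [Finset.mul_sum, ← Finset.sum_add_distrib]
    exact Finset.sum_congr rfl (fun a _ => hx a)
  refine good_of_rlv hSRC R tail head r0 k x hadj ?_ ?_ ?_
  · intro v hv
    have h1 := key (univ.filter (fun a => head a = v))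
    rw [hm v hv, hz v hv] at h1
    omega
  · intro a ha
    have h1 := h0 a ha
    have h2 := hx a
    rw [h1.1, h1.2] at h2
    omega
  · intro X hXn hr hR
    have h1 := key (univ.filter (fun a => tail a ∈ X ∧ head a ∈ X))
    have h2 := hX X hXn hr hR
    have h3 := hzX X hXn hr
    unfold inner at h2 ⊢
    have h4 : 2 * k * X.card = 2 * (k * X.card) := by ring
    rw [h4] at h2
    omega

end TWO4Aux

open TWO4Aux in
theorem t_TWO4 (hSP4 : S_SP4) (hMU : S_MU) (hC1 : S_COL1) (hC2 : S_COL2) (hSRC : S_SRC) :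
    S_TWO4 := by
  intro V A _ _ _ _ R tail head r0 k x0 y0 hEL hadj hx0 hy0
  obtain ⟨m, hm⟩ : ∃ m : A → ℕ, ∀ a, m a = x0 a + y0 a := ⟨_, fun _ => rfl⟩
  obtain ⟨w, hw⟩ : ∃ w : Sym2 V → ℕ, ∀ e, w e = ∑ a ∈ univ.filter
    (fun a => s(tail a, head a) = e), m a := ⟨_, fun _ => rfl⟩
  have hes := esum_eq_inner tail head m w hw
  have hmv : ∀ v, v ≠ r0 → ∑ a ∈ univ.filter (fun a => head a = v), m a = 2 * k := by
    intro v hv
    rw [Finset.sum_congr rfl (fun a _ => hm a), Finset.sum_add_distrib, hx0.1 v hv, hy0.1 v hv]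
    ring
  have hm0 : ∀ a, head a = r0 → m a = 0 := by
    intro a ha
    rw [hm a, hx0.2.1 a ha, hy0.2.1 a ha]
  have hmX : ∀ X : Finset V, X.Nonempty → r0 ∉ X →
      inner tail head m X + 2 * k ≤ 2 * k * X.card := by
    intro X hX hr
    have h1 := hx0.2.2 X hX hr
    have h2 := hy0.2.2 X hX hr
    have h3 : inner tail head m X = inner tail head x0 X + inner tail head y0 X := by
      unfold inner
      rw [Finset.sum_congr rfl (fun a _ => hm a), Finset.sum_add_distrib]
    have h4 : 2 * k * X.card = 2 * (k * X.card) := by ring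
    rw [h3, h4]
    omega
  have hsub : ∀ X : Finset V, X ⊆ univ.erase r0 → r0 ∉ X := by
    intro X hX hr
    exact (Finset.mem_erase.1 (hX hr)).1 rfl
  have hsub' : ∀ X : Finset V, r0 ∉ X → X ⊆ univ.erase r0 := by
    intro X hX v hv
    refine Finset.mem_erase.2 ⟨?_, mem_univ _⟩
    rintro rfl
    exact hX hv
  obtain ⟨σ, hσ1, hσ2⟩ := hSP4 V R (univ.erase r0) hEL k w (by
    intro x hx y hy hxy hpos
    rw [hw] at hpos
    obtain ⟨a, ha, -⟩ := Finset.exists_ne_zero_of_sum_ne_zero hpos.ne'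
    rw [mem_filter, Sym2.eq_iff] at ha
    have hx' := (Finset.mem_erase.1 hx).1
    have hy' := (Finset.mem_erase.1 hy).1
    rcases ha.2 with ⟨h1, h2⟩ | ⟨h1, h2⟩
    · left
      have h3 := hadj a (h1 ▸ hx') (h2 ▸ hy') (by rw [h1, h2]; exact hxy)
      rwa [h1, h2] at h3
    · right
      have h3 := hadj a (h1 ▸ hy') (h2 ▸ hx') (by rw [h1, h2]; exact fun h => hxy h.symm)
      rwa [h1, h2] at h3) (by
    intro X hX hXn
    rw [hes X]
    exact hmX X hXn (hsub X hX))
  obtain ⟨O, hO⟩ : ∃ O : Finset A, O = univ.filter (fun a => Odd (m a)) := ⟨_, rfl⟩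
  have hOm : ∀ a, a ∈ O ↔ Odd (m a) := by
    intro a
    rw [hO]
    simp
  obtain ⟨O', hO'⟩ : ∃ O' : Finset A, O' = O.filter (fun a => tail a ≠ r0 ∧ head a ≠ r0) :=
    ⟨_, rfl⟩
  have hOm' : ∀ a, a ∈ O' ↔ Odd (m a) ∧ tail a ≠ r0 ∧ head a ≠ r0 := by
    intro a
    rw [hO', mem_filter, hOm]
  have hmemS : ∀ a, s(tail a, head a) ∈ (univ.erase r0 : Finset V).sym2 ↔
      tail a ≠ r0 ∧ head a ≠ r0 := by
    intro a
    rw [Finset.mk_mem_sym2_iff]
    simp
  have hpar : ∀ e ∈ (univ.erase r0 : Finset V).sym2,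
      ((O'.filter (fun a => s(tail a, head a) = e)).card % 2 = 1 ↔ w e % 2 = 1) := by
    intro e he
    rw [← Nat.odd_iff, ← Nat.odd_iff, hw e, Finset.odd_sum_iff_odd_card_odd]
    have h1 : O'.filter (fun a => s(tail a, head a) = e) =
        (univ.filter (fun a => s(tail a, head a) = e)).filter (fun a => Odd (m a)) := by
      ext a
      simp only [mem_filter, mem_univ, true_and, hOm']
      constructor
      · rintro ⟨⟨h1, h2⟩, h3⟩
        exact ⟨h3, h1⟩
      · rintro ⟨h3, h1⟩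
        refine ⟨⟨h1, ?_⟩, h3⟩
        rw [← hmemS, h3]
        exact he
    rw [h1]
  obtain ⟨μ0, hμ1, hμ2⟩ := hMU A (Sym2 V) O' (fun a => s(tail a, head a))
    (univ.erase r0 : Finset V).sym2 σ (by
    intro a ha
    exact (hmemS a).2 ((hOm' a).1 ha).2) (by
    intro e he h1
    have h2 := hσ1 e he ((hpar e he).1 h1)
    exact ⟨h2.1, (hpar _ h2.1).2 h2.2.1, h2.2.2⟩)
  obtain ⟨P, hP⟩ := hC1 A V head O (by
    intro v
    by_cases hv : v = r0
    · have h1 : O.filter (fun a => head a = v) = ∅ := by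
        rw [Finset.filter_eq_empty_iff]
        intro a ha h2
        rw [hOm, hm0 a (h2.trans hv)] at ha
        exact absurd ha (by decide)
      rw [h1]
      simp
    · have h1 : O.filter (fun a => head a = v) =
          (univ.filter (fun a => head a = v)).filter (fun a => Odd (m a)) := by
        ext a
        simp only [mem_filter, mem_univ, true_and, hOm]
        tauto
      rw [h1, ← Finset.even_sum_iff_even_card_odd, hmv v hv]
      exact even_two_mul k)
  obtain ⟨μ, hμ⟩ : ∃ μ : A → A, ∀ a, μ a = if a ∈ O' then μ0 a else a := ⟨_, fun _ => rfl⟩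
  have hO'O : ∀ a ∈ O', a ∈ O := by
    intro a ha
    rw [hOm]
    exact ((hOm' a).1 ha).1
  obtain ⟨z, hz1, hz0, hzP, hzμ⟩ := hC2 A O P μ (fun a ha => ⟨(hP a ha).1, (hP a ha).2.1,
    (hP a ha).2.2.1⟩) (by
    intro a ha
    by_cases h : a ∈ O'
    · have h1 : μ a = μ0 a := by rw [hμ, if_pos h]
      have h2 : μ (μ0 a) = μ0 (μ0 a) := by rw [hμ (μ0 a), if_pos (hμ1 a h).1]
      rw [h1, h2]
      exact ⟨hO'O _ (hμ1 a h).1, (hμ1 a h).2⟩
    · have h1 : μ a = a := by rw [hμ, if_neg h]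
      rw [h1, h1]
      exact ⟨ha, rfl⟩)
  -- the sum of `z` over the arcs with head `v`
  have hzv : ∀ v, ∑ a ∈ univ.filter (fun a => head a = v), z a = 0 := by
    intro v
    have h1 : ∑ a ∈ univ.filter (fun a => head a = v), z a =
        ∑ a ∈ O.filter (fun a => head a = v), z a := by
      symm
      apply Finset.sum_subset
      · intro a ha
        rw [mem_filter] at ha ⊢
        exact ⟨mem_univ _, ha.2⟩
      · intro a ha hna
        apply hz0
        intro haO
        apply hna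
        rw [mem_filter] at ha ⊢
        exact ⟨haO, ha.2⟩
    rw [h1]
    refine Finset.sum_involution (fun a _ => P a) ?_ ?_ ?_ ?_
    · intro a ha
      rw [mem_filter] at ha
      rw [hzP a ha.1]
      ring
    · intro a ha _
      rw [mem_filter] at ha
      exact (hP a ha.1).2.2.1
    · intro a ha
      rw [mem_filter] at ha ⊢
      exact ⟨(hP a ha.1).1, (hP a ha.1).2.2.2.trans ha.2⟩
    · intro a ha
      rw [mem_filter] at ha
      exact (hP a ha.1).2.1
  -- the sum of `z` over the arcs in `X`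
  have hzX : ∀ X : Finset V, r0 ∉ X →
      |∑ a ∈ univ.filter (fun a => tail a ∈ X ∧ head a ∈ X), z a| ≤ (unm w σ X : ℤ) := by
    intro X hr
    have hXS := hsub' X hr
    obtain ⟨I, hI⟩ : ∃ I : Finset A, I = O.filter (fun a => tail a ∈ X ∧ head a ∈ X) := ⟨_, rfl⟩
    have h1 : ∑ a ∈ univ.filter (fun a => tail a ∈ X ∧ head a ∈ X), z a = ∑ a ∈ I, z a := by
      symm
      rw [hI]
      apply Finset.sum_subset
      · intro a ha
        rw [mem_filter] at ha ⊢
        exact ⟨mem_univ _, ha.2⟩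
      · intro a ha hna
        apply hz0
        intro haO
        apply hna
        rw [mem_filter] at ha ⊢
        exact ⟨haO, ha.2⟩
    have hII : ∀ a, a ∈ I ↔ a ∈ O' ∧ s(tail a, head a) ∈ X.sym2 := by
      intro a
      rw [hI, mem_filter, Finset.mk_mem_sym2_iff, hOm, hOm']
      constructor
      · rintro ⟨h1, h2, h3⟩
        exact ⟨⟨h1, (Finset.mem_erase.1 (hXS h2)).1, (Finset.mem_erase.1 (hXS h3)).1⟩, h2, h3⟩
      · rintro ⟨⟨h1, -⟩, h2⟩
        exact ⟨h1, h2⟩
    have hμI : ∀ a ∈ I, μ a = μ0 a := by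
      intro a ha
      rw [hμ, if_pos ((hII a).1 ha).1]
    rw [h1, ← Finset.sum_filter_add_sum_filter_not I (fun a => μ a ≠ a ∧ μ a ∈ I)]
    have h2 : ∑ a ∈ I.filter (fun a => μ a ≠ a ∧ μ a ∈ I), z a = 0 := by
      refine Finset.sum_involution (fun a _ => μ a) ?_ ?_ ?_ ?_
      · intro a ha
        rw [mem_filter] at ha
        rw [hzμ a (hO'O a ((hII a).1 ha.1).1) ha.2.1]
        ring
      · intro a ha _
        rw [mem_filter] at ha
        exact ha.2.1
      · intro a ha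
        rw [mem_filter] at ha ⊢
        have h3 : μ (μ a) = a := by
          rw [hμI _ ha.2.2, hμI a ha.1]
          exact (hμ1 a ((hII a).1 ha.1).1).2
        refine ⟨ha.2.2, ?_, ?_⟩
        · rw [h3]
          exact Ne.symm ha.2.1
        · rw [h3]
          exact ha.1
      · intro a ha
        rw [mem_filter] at ha
        rw [hμI _ ha.2.2, hμI a ha.1]
        exact (hμ1 a ((hII a).1 ha.1).1).2
    rw [h2, zero_add]
    have h3 : I.filter (fun a => ¬ (μ a ≠ a ∧ μ a ∈ I)) =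
        O'.filter (fun a => s(tail a, head a) ∈ X.sym2 ∧
          (μ0 a = a ∨ s(tail (μ0 a), head (μ0 a)) ∉ X.sym2)) := by
      ext a
      simp only [mem_filter]
      constructor
      · rintro ⟨ha, h3⟩
        refine ⟨((hII a).1 ha).1, ((hII a).1 ha).2, ?_⟩
        rw [hμI a ha] at h3
        by_contra h4
        push Not at h4
        exact h3 ⟨h4.1, (hII _).2 ⟨(hμ1 a ((hII a).1 ha).1).1, h4.2⟩⟩
      · rintro ⟨ha, h3, h4⟩
        have haI : a ∈ I := (hII a).2 ⟨ha, h3⟩
        refine ⟨haI, ?_⟩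
        rw [hμI a haI]
        rintro ⟨h5, h6⟩
        rcases h4 with h4 | h4
        · exact h5 h4
        · exact h4 ((hII _).1 h6).2
    rw [h3]
    have h4 := hμ2 X.sym2 (Finset.sym2_mono hXS)
    have h5 : (X.sym2.filter (fun e => (O'.filter (fun a => s(tail a, head a) = e)).card % 2 = 1 ∧
        (σ e = e ∨ σ e ∉ X.sym2))) =
        X.sym2.filter (fun e => w e % 2 = 1 ∧ (σ e = e ∨ σ e ∉ X.sym2)) := by
      apply Finset.filter_congr
      intro e he
      rw [hpar e (Finset.sym2_mono hXS he)]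
    have h6 : (O'.filter (fun a => s(tail a, head a) ∈ X.sym2 ∧
          (μ0 a = a ∨ s(tail (μ0 a), head (μ0 a)) ∉ X.sym2))).card ≤ unm w σ X := by
      unfold unm
      rw [← h5]
      exact h4
    refine (Finset.abs_sum_le_sum_abs _ _).trans ?_
    have h7 : ∑ a ∈ O'.filter (fun a => s(tail a, head a) ∈ X.sym2 ∧
          (μ0 a = a ∨ s(tail (μ0 a), head (μ0 a)) ∉ X.sym2)), |z a| ≤
        ∑ a ∈ O'.filter (fun a => s(tail a, head a) ∈ X.sym2 ∧
          (μ0 a = a ∨ s(tail (μ0 a), head (μ0 a)) ∉ X.sym2)), (1 : ℤ) := by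
      apply Finset.sum_le_sum
      intro a ha
      rw [mem_filter] at ha
      rcases hz1 a (hO'O a ha.1) with h | h <;> rw [h] <;> simp
    refine h7.trans ?_
    rw [Finset.sum_const, nsmul_eq_mul, mul_one]
    exact_mod_cast h6
  have hmX' : ∀ X : Finset V, X.Nonempty → r0 ∉ X → Rlv R X →
      inner tail head m X + 2 * k + unm w σ X ≤ 2 * k * X.card := by
    intro X _ hr hR
    rw [← hes X]
    exact hσ2 X (hsub' X hr) hR
  have hm00 : ∀ a, head a = r0 → m a = 0 ∧ z a = 0 := by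
    intro a ha
    refine ⟨hm0 a ha, hz0 a ?_⟩
    rw [hOm, hm0 a ha]
    decide
  obtain ⟨x, hx⟩ : ∃ x : A → ℕ, ∀ a, x a = (m a + (if z a = 1 then 1 else 0)) / 2 :=
    ⟨_, fun _ => rfl⟩
  obtain ⟨y, hy⟩ : ∃ y : A → ℕ, ∀ a, y a = (m a + (if z a = -1 then 1 else 0)) / 2 :=
    ⟨_, fun _ => rfl⟩
  have hcase : ∀ a, (m a % 2 = 1 ∧ z a = 1) ∨ (m a % 2 = 1 ∧ z a = -1) ∨
      (m a % 2 = 0 ∧ z a = 0) := by
    intro a
    by_cases h : a ∈ O
    · have h1 := Nat.odd_iff.1 ((hOm a).1 h)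
      rcases hz1 a h with h2 | h2
      · exact Or.inl ⟨h1, h2⟩
      · exact Or.inr (Or.inl ⟨h1, h2⟩)
    · have h1 := h
      rw [hOm, Nat.odd_iff] at h1
      exact Or.inr (Or.inr ⟨by omega, hz0 a h⟩)
  have hxz : ∀ a, 2 * (x a : ℤ) = m a + z a := by
    intro a
    rw [hx a]
    rcases hcase a with ⟨h1, h2⟩ | ⟨h1, h2⟩ | ⟨h1, h2⟩
    · rw [h2, if_pos rfl]; omega
    · rw [h2, if_neg (by decide)]; omega
    · rw [h2, if_neg (by decide)]; omega
  have hyz : ∀ a, 2 * (y a : ℤ) = m a + (-z a) := by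
    intro a
    rw [hy a]
    rcases hcase a with ⟨h1, h2⟩ | ⟨h1, h2⟩ | ⟨h1, h2⟩
    · rw [h2, if_neg (by decide)]; omega
    · rw [h2, if_pos rfl]; omega
    · rw [h2, if_neg (by decide)]; omega
  refine ⟨x, y, ?_, ?_, ?_, ?_⟩
  · intro a
    have h1 := hxz a
    have h2 := hyz a
    have h3 := hm a
    omega
  · intro a
    have h1 := hxz a
    have h2 := hyz a
    rcases hcase a with ⟨h4, h3⟩ | ⟨h4, h3⟩ | ⟨h4, h3⟩ <;> omega
  · exact good_half2 hSRC R tail head r0 k m x z (unm w σ) hadj hxz hmv (fun v _ => hzv v) hm00 hmX'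
      (fun X _ hr => (le_abs_self _).trans (hzX X hr))
  · refine good_half2 hSRC R tail head r0 k m y (fun a => -z a) (unm w σ) hadj hyz hmv ?_ ?_ hmX' ?_
    · intro v _
      rw [Finset.sum_neg_distrib, hzv v, neg_zero]
    · intro a ha
      exact ⟨(hm00 a ha).1, by simp only [(hm00 a ha).2, neg_zero]⟩
    · intro X _ hr
      rw [Finset.sum_neg_distrib]
      exact (neg_le_abs _).trans (hzX X hr)

end Pool.Agent.T2h30.KA
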