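import Pool.Agent.T2h30.KA.Scc
import Pool.Agent.T2h30.KA.T_FLIP
import Pool.Agent.T2h30.KA.T_BASE
import Pool.Agent.T2h30.KA.T_REL
import Pool.Agent.T2h30.KA.T_SRC
import Pool.Agent.T2h30.KA.T_R3Q
import Pool.Agent.T2h30.KA.T_SP4
import Pool.Agent.T2h30.KA.T_TWO4

set_option autoImplicit false

/-!
Final assembly: elimination orderings of the strong components of `D - r0`.
-/

namespace Pool.Agent.T2h30.KA

open Finset Scc

theorem two4_main : S_TWO4 :=
  t_TWO4 (t_SP4 (t_R3Q t_FLIP t_BASE) t_REL) t_MU t_COL1 t_COL2 t_SRC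

/-- The condition on the vertex `v` in an elimination ordering of `V \ {r0}` with respect to
the relation `R`. -/
def Step4 {V : Type} (R : V → V → Prop) (ord : V → ℕ) (r0 v : V) : Prop :=
  ((∀ T : Finset V, (∀ x ∈ T, x ≠ r0 ∧ ord v < ord x ∧ (R v x ∨ R x v)) → T.card ≤ 2) ∧
    (∀ x y, x ≠ r0 → y ≠ r0 → ord v < ord x → ord v < ord y → (R v x ∨ R x v) →
      (R v y ∨ R y v) → x ≠ y → R x y)) ∨
  (∃ u, u ≠ v ∧
    (∀ X : Finset V, v ∈ X → (∃ y ∈ X, y ≠ v) → (∀ x ∈ X, x ≠ v → x ≠ r0 ∧ ord v < ord x) →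
      Rlv R X → u ∈ X) ∧
    (u ≠ r0 → ord v < ord u →
      (∀ a, a ≠ r0 → ord v < ord a → a ≠ u → R a v → R a u) ∧
      (∀ b, b ≠ r0 → ord v < ord b → b ≠ u → R v b → R u b)))

theorem ord4 {V : Type} [DecidableEq V] (R : V → V → Prop) (ord : V → ℕ) (r0 : V)
    (hstep : ∀ v, v ≠ r0 → Step4 R ord r0 v) (hinj : Function.Injective ord) (S : Finset V)
    (hr : r0 ∉ S) : EL4 R S := by
  classical
  induction S using Finset.strongInduction with
  | H S ih =>
    rcases S.eq_empty_or_nonempty with rfl | hne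
    · exact EL4.empty
    obtain ⟨v, hv, hmin⟩ := S.exists_min_image ord hne
    have hlt : ∀ x ∈ S, x ≠ v → ord v < ord x := fun x hx hxv =>
      lt_of_le_of_ne (hmin x hx) fun h => hxv (hinj h).symm
    have hr0 : ∀ x ∈ S, x ≠ r0 := fun x hx h => hr (h ▸ hx)
    have hrec : EL4 R (S.erase v) :=
      ih (S.erase v) (erase_ssubset hv) (fun h => hr (mem_of_mem_erase h))
    rcases hstep v (hr0 v hv) with ⟨h1, h2⟩ | ⟨u, huv, h1, h2⟩
    · have hN : (S.filter (fun x => x ≠ v ∧ (R v x ∨ R x v))).card ≤ 2 := by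
        apply h1
        intro x hx
        rw [mem_filter] at hx
        exact ⟨hr0 x hx.1, hlt x hx.1 hx.2.1, hx.2.2⟩
      obtain ⟨u, t, hut⟩ : ∃ u t, S.filter (fun x => x ≠ v ∧ (R v x ∨ R x v)) ⊆ {u, t} := by
        have h : (S.filter (fun x => x ≠ v ∧ (R v x ∨ R x v))).card = 0 ∨
            (S.filter (fun x => x ≠ v ∧ (R v x ∨ R x v))).card = 1 ∨
            (S.filter (fun x => x ≠ v ∧ (R v x ∨ R x v))).card = 2 := by omega
        rcases h with h | h | h
        · rw [card_eq_zero] at h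
          exact ⟨v, v, by rw [h]; exact empty_subset _⟩
        · obtain ⟨u, hu⟩ := card_eq_one.1 h
          exact ⟨u, u, by rw [hu]; simp⟩
        · obtain ⟨u, t, -, hu⟩ := card_eq_two.1 h
          exact ⟨u, t, by rw [hu]⟩
      refine EL4.two S v u t hv ?_ ?_ hrec
      · intro x hx hxv hax
        have h := hut (mem_filter.2 ⟨hx, hxv, hax⟩)
        rwa [mem_insert, mem_singleton] at h
      · intro hu ht hut' huv htv hau hat
        exact ⟨h2 u t (hr0 u hu) (hr0 t ht) (hlt u hu huv) (hlt t ht htv) hau hat hut',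
          h2 t u (hr0 t ht) (hr0 u hu) (hlt t ht htv) (hlt u hu huv) hat hau
            (fun h => hut' h.symm)⟩
    · refine EL4.dom S v u hv huv ?_ ?_ ?_ hrec
      · intro X hX hvX hR hne'
        obtain ⟨y, hy⟩ := hne'
        exact h1 X hvX ⟨y, mem_of_mem_erase hy, ne_of_mem_erase hy⟩
          (fun x hx hxv => ⟨hr0 x (hX hx), hlt x (hX hx) hxv⟩) hR
      · intro a ha hav hau hRa hu
        exact (h2 (hr0 u hu) (hlt u hu huv)).1 a (hr0 a ha) (hlt a ha hav) hau hRa
      · intro b hb hbv hbu hRb hu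
        exact (h2 (hr0 u hu) (hlt u hu huv)).2 b (hr0 b hb) (hlt b hb hbv) hbu hRb

/-- The conjecture when the arcs on directed cycles of `D - r0` have a mixed elimination
ordering. -/
theorem main4 (V A : Type) [Fintype V] [Fintype A] [DecidableEq V] [DecidableEq A]
    (tail head : A → V) (r0 : V) (c : A → ℕ) (k l : ℕ) (R : V → V → Prop) (ord : V → ℕ)
    (hinj : Function.Injective ord)
    (hadj : ∀ a, tail a ≠ r0 → head a ≠ r0 → tail a ≠ head a →
      Reach tail head r0 (head a) (tail a) → R (tail a) (head a))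
    (hstep : ∀ v, v ≠ r0 → Step4 R ord r0 v)
    (hc : ∀ a : A, c a ≤ l)
    (hex : ∃ T : Fin (k * l) → Finset A, (∀ i, IsArb tail head r0 (T i)) ∧
      ∀ a : A, (univ.filter (fun i => a ∈ T i)).card ≤ c a) :
    ∃ B : Fin l → Fin k → Finset A, (∀ i j, IsArb tail head r0 (B i j)) ∧
      (∀ i : Fin l, ∀ j j' : Fin k, j ≠ j' → Disjoint (B i j) (B i j')) ∧
      ∀ a : A, (univ.filter (fun p : Fin l × Fin k => a ∈ B p.1 p.2)).card ≤ c a := by
  obtain ⟨T, hT1, hT2⟩ := hex
  have htw : EL4 R (univ.erase r0) := ord4 R ord r0 hstep hinj _ (notMem_erase _ _)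
  have hres : ∀ x0 y0 : A → ℕ, Good tail head r0 k x0 → Good tail head r0 k y0 →
      ∃ x y : A → ℕ, (∀ a, x a + y a = x0 a + y0 a) ∧ (∀ a, x a ≤ y a + 1 ∧ y a ≤ x a + 1) ∧
        Good tail head r0 k x ∧ Good tail head r0 k y := by
    intro x0 y0 hx hy
    have hL : ∀ a, tail a ≠ r0 → head a ≠ r0 →
        lev tail head r0 (tail a) ≤ lev tail head r0 (head a) := fun a => lev_le tail head r0
    obtain ⟨x, y, h1, h2, h3, h4⟩ := two4_main V A R
      (tail' tail head r0 (lev tail head r0)) head r0 k x0 y0 htw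
      (by
        intro a h1 h2 h3
        unfold tail' at h1 h3 ⊢
        by_cases h : lev tail head r0 (tail a) = lev tail head r0 (head a)
        · rw [if_pos h] at h1 h3 ⊢
          exact hadj a h1 h2 h3 (lev_eq tail head r0 h1 h2 h)
        · rw [if_neg h] at h1
          exact absurd rfl h1)
      ((good_iff tail head r0 _ hL k x0).2 hx) ((good_iff tail head r0 _ hL k y0).2 hy)
    exact ⟨x, y, h1, h2, (good_iff tail head r0 _ hL k x).1 h3,
      (good_iff tail head r0 _ hL k y).1 h4⟩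
  obtain ⟨χ, h1, h2⟩ := t_START V A tail head r0 c k l T hT1 hT2
  obtain ⟨χ', h3, h4, h5⟩ := t_POT V A tail head r0 k l hres χ h1
    (fun a => (h2 a).trans (hc a))
  have hF : ∀ i, (fun a => if a ∈ univ.filter (fun a => χ' i a = 1) then 1 else 0) = χ' i := by
    intro i
    funext a
    have h6 := h5 i a
    by_cases h7 : χ' i a = 1
    · simp [h7]
    · have h8 : χ' i a = 0 := by omega
      simp [h8]
  choose B hB1 hB2 hB3 using fun i => t_EDM V A tail head r0 k (univ.filter (fun a => χ' i a = 1))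
    (by rw [hF i]; exact h3 i)
  refine ⟨B, hB1, hB2, fun a => ?_⟩
  have hcount : ∀ i, (univ.filter (fun j : Fin k => a ∈ B i j)).card ≤ χ' i a := by
    intro i
    by_cases h7 : χ' i a = 1
    · rw [h7, card_le_one]
      intro j hj j' hj'
      rw [mem_filter] at hj hj'
      by_contra hne
      exact Finset.disjoint_left.1 (hB2 i j j' hne) hj.2 hj'.2
    · have h8 : (univ.filter (fun j : Fin k => a ∈ B i j)) = ∅ := by
        rw [filter_eq_empty_iff]
        intro j _ hj
        exact h7 (mem_filter.1 (hB3 i j hj)).2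
      rw [h8, card_empty]
      exact Nat.zero_le _
  calc (univ.filter (fun p : Fin l × Fin k => a ∈ B p.1 p.2)).card
      = ∑ i, (univ.filter (fun j : Fin k => a ∈ B i j)).card := by
        rw [card_filter, Fintype.sum_prod_type]
        refine sum_congr rfl fun i _ => ?_
        rw [card_filter]
    _ ≤ ∑ i, χ' i a := sum_le_sum fun i _ => hcount i
    _ = ∑ i, χ i a := h4 a
    _ ≤ c a := h2 a

end Pool.Agent.T2h30.KA
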