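import Pool.Agent.T2h30.KA.SP2

set_option autoImplicit false

namespace Pool.Agent.T2h30.KA.SP
open Finset

variable {V : Type} [DecidableEq V]

theorem sym2_sub {X Y : Finset V} (h : X ⊆ Y) {e : Sym2 V} (he : e ∈ X.sym2) : e ∈ Y.sym2 := by
  rw [Finset.mem_sym2_iff] at he ⊢
  exact fun a ha => h (he a ha)

theorem caseA {S : Finset V} {v u t : V} (hvS : v ∈ S) {k : ℕ} {w : Sym2 V → ℕ}
    (hw : ∀ X ⊆ S, X.Nonempty → esum w X + 2 * k ≤ 2 * k * X.card)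
    (hN : ∀ x ∈ S, x ≠ v → 0 < w s(v, x) → x = u ∨ x = t)
    (hd : ∑ x ∈ S.erase v, w s(v, x) ≤ 2 * k) {σ' : Sym2 V → Sym2 V}
    (hσ' : ∀ e ∈ (S.erase v).sym2, w e % 2 = 1 →
      σ' e ∈ (S.erase v).sym2 ∧ w (σ' e) % 2 = 1 ∧ σ' (σ' e) = e)
    (ih : ∀ X ⊆ S.erase v, X.Nonempty → esum w X + 2 * k + unm w σ' X ≤ 2 * k * X.card) :
    ∃ σ : Sym2 V → Sym2 V,
      (∀ e ∈ S.sym2, w e % 2 = 1 → σ e ∈ S.sym2 ∧ w (σ e) % 2 = 1 ∧ σ (σ e) = e) ∧
      ∀ X ⊆ S, X.Nonempty → esum w X + 2 * k + unm w σ X ≤ 2 * k * X.card := by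
  obtain ⟨hvv, hle⟩ := star_le hvS hw
  refine ⟨sig1 w S v u t σ', sig1_inv hvS hvv (fun _ _ => rfl) hσ', ?_⟩
  have hs : ∀ X ⊆ S.erase v, ∀ e ∈ X.sym2, w e % 2 = 1 → sig1 w S v u t σ' e = σ' e := by
    intro X hX e he _
    unfold sig1
    rw [if_pos (sym2_sub hX he)]
  refine step_suff hvS hw ih (fun X hX _ => ?_) (fun X hX _ => ?_)
  · exact Nat.add_le_add_left (unm_mono (fun _ _ h => h) (hs X hX)) _
  · have hvX : v ∉ X := fun h => notMem_erase v S (hX h)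
    rw [esum_ins w hvX, hvv]
    have h1 := unm_ins_le (w := w) (w' := w) (σ := sig1 w S v u t σ') (σ' := σ') hvv hvX
      (fun _ _ h => h) (hs X hX)
    have h2 := extra_card (w := w) (σ := sig1 w S v u t σ') (v := v) (u := u) (t := t) (X := X)
      hvX hvv (fun x hx h => hN x (erase_subset _ _ (hX hx)) (fun h' => hvX (h' ▸ hx)) h)
      (sig1_star hX)
    have h3 : ∑ x ∈ X, w s(v, x) ≤ 2 * k :=
      le_trans (sum_le_sum_of_subset hX) hd
    rcases (extra w (sig1 w S v u t σ') v X).eq_empty_or_nonempty with h4 | h4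
    · rw [h4, card_empty] at h1
      omega
    · have h5 := h2.2 h4
      have h6 := h2.1
      omega

theorem esum_upd (w : Sym2 V → ℕ) (X : Finset V) (u t : V) (τ : ℕ) :
    esum (Function.update w s(u, t) (w s(u, t) + τ)) X =
      esum w X + (if u ∈ X ∧ t ∈ X then τ else 0) := by
  unfold esum
  by_cases h : u ∈ X ∧ t ∈ X
  · have hm : s(u, t) ∈ X.sym2 := Finset.mk_mem_sym2_iff.2 h
    rw [sum_update_of_mem hm, if_pos h, sdiff_singleton_eq_erase, ← add_sum_erase _ w hm]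
    ring
  · have hm : s(u, t) ∉ X.sym2 := fun h' => h (Finset.mk_mem_sym2_iff.1 h')
    rw [sum_update_of_notMem hm, if_neg h]
    rfl

theorem dsum_both {w : Sym2 V → ℕ} {v u t : V} {X : Finset V} (hut : u ≠ t)
    (hN : ∀ x ∈ X, 0 < w s(v, x) → x = u ∨ x = t) (hu : u ∈ X) (ht : t ∈ X) :
    ∑ x ∈ X, w s(v, x) = w s(v, u) + w s(v, t) := by
  rw [← add_sum_erase _ _ hu]
  congr 1
  rw [← add_sum_erase _ _ (mem_erase.2 ⟨fun h => hut h.symm, ht⟩)]
  rw [sum_eq_zero, add_zero]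
  intro x hx
  rw [mem_erase, mem_erase] at hx
  by_contra h
  rcases hN x hx.2.2 (Nat.pos_of_ne_zero h) with h1 | h1
  · exact hx.2.1 h1
  · exact hx.1 h1

theorem dsum_u {w : Sym2 V → ℕ} {v u t : V} {X : Finset V}
    (hN : ∀ x ∈ X, 0 < w s(v, x) → x = u ∨ x = t) (hu : u ∈ X) (ht : t ∉ X) :
    ∑ x ∈ X, w s(v, x) = w s(v, u) := by
  rw [← add_sum_erase _ _ hu]
  rw [sum_eq_zero, add_zero]
  intro x hx
  rw [mem_erase] at hx
  by_contra h
  rcases hN x hx.2 (Nat.pos_of_ne_zero h) with h1 | h1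
  · exact hx.1 h1
  · exact ht (h1 ▸ hx.2)

theorem dsum_none {w : Sym2 V → ℕ} {v u t : V} {X : Finset V}
    (hN : ∀ x ∈ X, 0 < w s(v, x) → x = u ∨ x = t) (hu : u ∉ X) (ht : t ∉ X) :
    ∑ x ∈ X, w s(v, x) = 0 := by
  rw [sum_eq_zero]
  intro x hx
  by_contra h
  rcases hN x hx (Nat.pos_of_ne_zero h) with h1 | h1
  · exact hu (h1 ▸ hx)
  · exact ht (h1 ▸ hx)

/-- not both neighbours inside: the star is at most `2k` -/
theorem dsum_le {w : Sym2 V → ℕ} {v u t : V} {X : Finset V} {k : ℕ}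
    (hN : ∀ x ∈ X, 0 < w s(v, x) → x = u ∨ x = t) (hle : ∀ x ∈ X, w s(v, x) ≤ 2 * k)
    (h : ¬ (u ∈ X ∧ t ∈ X)) : ∑ x ∈ X, w s(v, x) ≤ 2 * k := by
  by_cases hu : u ∈ X
  · have ht : t ∉ X := fun ht => h ⟨hu, ht⟩
    rw [dsum_u hN hu ht]; exact hle u hu
  · by_cases ht : t ∈ X
    · rw [dsum_u (fun x hx h' => (hN x hx h').symm) ht hu]; exact hle t ht
    · rw [dsum_none hN hu ht]; exact Nat.zero_le _

theorem caseB1 {S : Finset V} {v u t : V} (hvS : v ∈ S) {k : ℕ} {w : Sym2 V → ℕ}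
    (hw : ∀ X ⊆ S, X.Nonempty → esum w X + 2 * k ≤ 2 * k * X.card)
    (hN : ∀ x ∈ S, x ≠ v → 0 < w s(v, x) → x = u ∨ x = t)
    (hut : u ≠ t) {τ : ℕ} (hτ : w s(v, u) + w s(v, t) = 2 * k + τ) (hev : τ % 2 = 0)
    {σ' : Sym2 V → Sym2 V} {w' : Sym2 V → ℕ}
    (hw' : w' = Function.update w s(u, t) (w s(u, t) + τ))
    (hσ' : ∀ e ∈ (S.erase v).sym2, w' e % 2 = 1 →
      σ' e ∈ (S.erase v).sym2 ∧ w' (σ' e) % 2 = 1 ∧ σ' (σ' e) = e)
    (ih : ∀ X ⊆ S.erase v, X.Nonempty → esum w' X + 2 * k + unm w' σ' X ≤ 2 * k * X.card) :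
    ∃ σ : Sym2 V → Sym2 V,
      (∀ e ∈ S.sym2, w e % 2 = 1 → σ e ∈ S.sym2 ∧ w (σ e) % 2 = 1 ∧ σ (σ e) = e) ∧
      ∀ X ⊆ S, X.Nonempty → esum w X + 2 * k + unm w σ X ≤ 2 * k * X.card := by
  obtain ⟨hvv, hle⟩ := star_le hvS hw
  have hpar : ∀ e, w' e % 2 = w e % 2 := by
    intro e
    rw [hw']
    by_cases h : e = s(u, t)
    · rw [h, Function.update_self]; omega
    · rw [Function.update_of_ne h]
  refine ⟨sig1 w S v u t σ', sig1_inv hvS hvv (fun e _ => hpar e) hσ', ?_⟩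
  have hs : ∀ X ⊆ S.erase v, ∀ e ∈ X.sym2, w e % 2 = 1 → sig1 w S v u t σ' e = σ' e := by
    intro X hX e he _
    unfold sig1
    rw [if_pos (sym2_sub hX he)]
  have hes : ∀ X, esum w' X = esum w X + (if u ∈ X ∧ t ∈ X then τ else 0) := by
    intro X; rw [hw']; exact esum_upd w X u t τ
  refine step_suff hvS hw ih (fun X hX _ => ?_) (fun X hX _ => ?_)
  · have h1 := unm_mono (w := w) (w' := w') (fun e _ h => (by rw [hpar e]; exact h)) (hs X hX)
    rw [hes X]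
    omega
  · have hvX : v ∉ X := fun h => notMem_erase v S (hX h)
    have hN' : ∀ x ∈ X, 0 < w s(v, x) → x = u ∨ x = t :=
      fun x hx h => hN x (erase_subset _ _ (hX hx)) (fun h' => hvX (h' ▸ hx)) h
    rw [esum_ins w hvX, hvv, hes X]
    have h1 := unm_ins_le (w := w) (w' := w') (σ := sig1 w S v u t σ') (σ' := σ') hvv hvX
      (fun e _ h => (by rw [hpar e]; exact h)) (hs X hX)
    have h2 := extra_card (w := w) (σ := sig1 w S v u t σ') (v := v) (u := u) (t := t) (X := X)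
      hvX hvv hN' (sig1_star hX)
    by_cases hb : u ∈ X ∧ t ∈ X
    · rw [if_pos hb]
      have h3 := dsum_both hut hN' hb.1 hb.2
      rcases (extra w (sig1 w S v u t σ') v X).eq_empty_or_nonempty with h4 | h4
      · rw [h4, card_empty] at h1
        omega
      · have h5 := h2.2 h4
        omega
    · rw [if_neg hb]
      have h3 := dsum_le hN' (fun x hx => hle x (erase_subset _ _ (hX hx))) hb
      rcases (extra w (sig1 w S v u t σ') v X).eq_empty_or_nonempty with h4 | h4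
      · rw [h4, card_empty] at h1
        omega
      · have h5 := h2.2 h4
        have h6 := h2.1
        omega

end Pool.Agent.T2h30.KA.SP
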