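import Pool.Agent.T2h30.KA.SP3

set_option autoImplicit false

namespace Pool.Agent.T2h30.KA.SP
open Finset

variable {V : Type} [DecidableEq V]

/-- `u` odd star, `t` even star, `w s(u,t)` odd -/
theorem caseB2i {S : Finset V} {v u t : V} (hvS : v ∈ S) {k : ℕ} {w : Sym2 V → ℕ}
    (hw : ∀ X ⊆ S, X.Nonempty → esum w X + 2 * k ≤ 2 * k * X.card)
    (hN : ∀ x ∈ S, x ≠ v → 0 < w s(v, x) → x = u ∨ x = t)
    (hu : u ∈ S.erase v) (ht : t ∈ S.erase v)
    (hut : u ≠ t) {τ : ℕ} (hτ : w s(v, u) + w s(v, t) = 2 * k + τ) (hodd : τ % 2 = 1)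
    (hα : w s(v, u) % 2 = 1) (h0 : w s(u, t) % 2 = 1)
    {σ' : Sym2 V → Sym2 V} {w' : Sym2 V → ℕ}
    (hw' : w' = Function.update w s(u, t) (w s(u, t) + τ))
    (hσ' : ∀ e ∈ (S.erase v).sym2, w' e % 2 = 1 →
      σ' e ∈ (S.erase v).sym2 ∧ w' (σ' e) % 2 = 1 ∧ σ' (σ' e) = e)
    (ih : ∀ X ⊆ S.erase v, X.Nonempty → esum w' X + 2 * k + unm w' σ' X ≤ 2 * k * X.card) :
    ∃ σ : Sym2 V → Sym2 V,
      (∀ e ∈ S.sym2, w e % 2 = 1 → σ e ∈ S.sym2 ∧ w (σ e) % 2 = 1 ∧ σ (σ e) = e) ∧
      ∀ X ⊆ S, X.Nonempty → esum w X + 2 * k + unm w σ X ≤ 2 * k * X.card := by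
  obtain ⟨hvv, hle⟩ := star_le hvS hw
  have hnv : ∀ x : V, s(v, x) ∉ (S.erase v).sym2 := fun x => not_mem_star (notMem_erase v S)
  have he0 : s(u, t) ∈ (S.erase v).sym2 := Finset.mk_mem_sym2_iff.2 ⟨hu, ht⟩
  have huv : u ≠ v := fun h => notMem_erase v S (h ▸ hu)
  have htv : t ≠ v := fun h => notMem_erase v S (h ▸ ht)
  have hne : s(v, u) ≠ s(u, t) := fun h => hnv u (h ▸ he0)
  have hw0 : w' s(u, t) % 2 = 0 := by rw [hw', Function.update_self]; omega
  have hwe : ∀ e, e ≠ s(u, t) → w' e = w e := by
    intro e he; rw [hw', Function.update_of_ne he]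
  have hes : ∀ X, esum w' X = esum w X + (if u ∈ X ∧ t ∈ X then τ else 0) := by
    intro X; rw [hw']; exact esum_upd w X u t τ
  have hsub : ∀ e ∈ (S.erase v).sym2, e ∈ S.sym2 := fun e he => sym2_sub (erase_subset _ _) he
  -- classification of odd elements of S.sym2
  have hcl : ∀ e ∈ S.sym2, w e % 2 = 1 → e = s(v, u) ∨ e ∈ (S.erase v).sym2 := by
    intro e he ho
    by_cases hve : v ∈ e
    · obtain ⟨x, rfl⟩ := Sym2.mem_iff_exists.1 hve
      left
      rw [Finset.mk_mem_sym2_iff] at he
      by_cases hxv : x = v
      · subst hxv; rw [hvv] at ho; omega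
      · rcases hN x he.2 hxv (by omega) with h | h
        · rw [h]
        · subst h; omega
    · right
      rw [Finset.mem_sym2_iff] at he ⊢
      exact fun a ha => mem_erase.2 ⟨fun h => hve (h ▸ ha), he a ha⟩
  let σ : Sym2 V → Sym2 V := fun e => if e = s(v, u) then s(u, t) else
    if e = s(u, t) then s(v, u) else σ' e
  have hσ1 : σ s(v, u) = s(u, t) := if_pos rfl
  have hσ2 : σ s(u, t) = s(v, u) := by
    show (if s(u, t) = s(v, u) then _ else _) = _
    rw [if_neg (fun h => hne h.symm), if_pos rfl]
  have hσ3 : ∀ e, e ≠ s(v, u) → e ≠ s(u, t) → σ e = σ' e := by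
    intro e h1 h2
    show (if e = s(v, u) then _ else _) = _
    rw [if_neg h1, if_neg h2]
  have hne' : ∀ e ∈ (S.erase v).sym2, e ≠ s(v, u) := fun e he h => hnv u (h ▸ he)
  refine ⟨σ, ?_, ?_⟩
  · intro e he ho
    rcases hcl e he ho with rfl | he'
    · rw [hσ1, hσ2]; exact ⟨hsub _ he0, h0, rfl⟩
    · by_cases h1 : e = s(u, t)
      · subst h1
        rw [hσ2, hσ1]
        exact ⟨Finset.mk_mem_sym2_iff.2 ⟨hvS, erase_subset _ _ hu⟩, hα, rfl⟩
      · have h2 := hσ' e he' (by rw [hwe e h1]; exact ho)
        have h3 : σ' e ≠ s(u, t) := by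
          intro h; rw [h, hw0] at h2; omega
        rw [hσ3 e (hne' e he') h1, hσ3 _ (hne' _ h2.1) h3]
        refine ⟨hsub _ h2.1, ?_, h2.2.2⟩
        rw [← hwe _ h3]; exact h2.2.1
  · refine step_suff hvS hw ih (fun X hX _ => ?_) (fun X hX _ => ?_)
    · rw [hes X]
      have h1 : unm w σ X ≤ unm w' σ' X + (if u ∈ X ∧ t ∈ X then 1 else 0) := by
        unfold unm
        have : (X.sym2.filter (fun e => w e % 2 = 1 ∧ (σ e = e ∨ σ e ∉ X.sym2))) ⊆
            (X.sym2.filter (fun e => w' e % 2 = 1 ∧ (σ' e = e ∨ σ' e ∉ X.sym2))) ∪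
            (if u ∈ X ∧ t ∈ X then {s(u, t)} else ∅) := by
          intro e he
          rw [mem_filter] at he
          obtain ⟨h1, h2, h3⟩ := he
          rw [mem_union]
          by_cases h4 : e = s(u, t)
          · right
            subst h4
            rw [Finset.mk_mem_sym2_iff] at h1
            rw [if_pos h1]; exact mem_singleton_self _
          · left
            rw [hσ3 e (hne' e (sym2_sub hX h1)) h4] at h3
            rw [mem_filter]
            exact ⟨h1, by rw [hwe e h4]; exact h2, h3⟩
        refine le_trans (card_le_card this) (le_trans (card_union_le _ _) ?_)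
        apply Nat.add_le_add_left
        split_ifs <;> simp
      split_ifs at h1 ⊢ <;> omega
    · have hvX : v ∉ X := fun h => notMem_erase v S (hX h)
      have hN' : ∀ x ∈ X, 0 < w s(v, x) → x = u ∨ x = t :=
        fun x hx h => hN x (erase_subset _ _ (hX hx)) (fun h' => hvX (h' ▸ hx)) h
      rw [esum_ins w hvX, hvv, hes X]
      have h1 : unm w σ (insert v X) ≤ unm w' σ' X + (if u ∈ X ∧ t ∉ X then 1 else 0) := by
        unfold unm
        have : ((insert v X).sym2.filter
            (fun e => w e % 2 = 1 ∧ (σ e = e ∨ σ e ∉ (insert v X).sym2))) ⊆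
            (X.sym2.filter (fun e => w' e % 2 = 1 ∧ (σ' e = e ∨ σ' e ∉ X.sym2))) ∪
            (if u ∈ X ∧ t ∉ X then {s(v, u)} else ∅) := by
          intro e he
          rw [mem_filter] at he
          obtain ⟨h1, h2, h3⟩ := he
          rw [mem_union]
          have hXS : insert v X ⊆ S := by
            intro x hx
            rcases mem_insert.1 hx with rfl | hx
            · exact hvS
            · exact erase_subset _ _ (hX hx)
          rcases hcl e (sym2_sub hXS h1) h2 with h4 | h4
          · right
            subst h4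
            rw [Finset.mk_mem_sym2_iff] at h1
            have huX : u ∈ X := by
              rcases mem_insert.1 h1.2 with h5 | h5
              · exact absurd h5 huv
              · exact h5
            rw [hσ1] at h3
            rcases h3 with h3 | h3
            · exact absurd h3.symm hne
            · have htX : t ∉ X := by
                intro h
                apply h3
                rw [Finset.mk_mem_sym2_iff]
                exact ⟨mem_insert_of_mem huX, mem_insert_of_mem h⟩
              rw [if_pos ⟨huX, htX⟩]; exact mem_singleton_self _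
          · left
            have h5 : e ∈ X.sym2 := by
              rw [Finset.mem_sym2_iff] at h1 h4 ⊢
              intro a ha
              rcases mem_insert.1 (h1 a ha) with h6 | h6
              · exact absurd h6 (mem_erase.1 (h4 a ha)).1
              · exact h6
            by_cases h6 : e = s(u, t)
            · exfalso
              subst h6
              rw [hσ2] at h3
              rw [Finset.mk_mem_sym2_iff] at h5
              rcases h3 with h3 | h3
              · exact hne h3
              · apply h3
                rw [Finset.mk_mem_sym2_iff]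
                exact ⟨mem_insert_self _ _, mem_insert_of_mem h5.1⟩
            · rw [hσ3 e (hne' e h4) h6] at h3
              rw [mem_filter]
              refine ⟨h5, by rw [hwe e h6]; exact h2, ?_⟩
              rcases h3 with h3 | h3
              · exact Or.inl h3
              · exact Or.inr (fun h7 => h3 (sym2_sub (subset_insert _ _) h7))
        refine le_trans (card_le_card this) (le_trans (card_union_le _ _) ?_)
        apply Nat.add_le_add_left
        split_ifs <;> simp
      have h2k := hle u (erase_subset _ _ hu)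
      by_cases huX : u ∈ X
      · by_cases htX : t ∈ X
        · have h3 := dsum_both hut hN' huX htX
          rw [if_neg (fun h => h.2 htX)] at h1
          rw [if_pos ⟨huX, htX⟩]
          omega
        · have h3 := dsum_u hN' huX htX
          rw [if_pos ⟨huX, htX⟩] at h1
          rw [if_neg (fun h => htX h.2)]
          omega
      · have h3 := dsum_le hN' (fun x hx => hle x (erase_subset _ _ (hX hx)))
          (fun h => huX h.1)
        rw [if_neg (fun h => huX h.1)] at h1
        rw [if_neg (fun h => huX h.1)]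
        omega

end Pool.Agent.T2h30.KA.SP
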