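import Pool.Agent.T2h30.KA.SP4

set_option autoImplicit false

namespace Pool.Agent.T2h30.KA.SP
open Finset

variable {V : Type} [DecidableEq V]

/-- `u` odd star, `t` even star, `w s(u,t)` even -/
theorem caseB2ii {S : Finset V} {v u t : V} (hvS : v ∈ S) {k : ℕ} {w : Sym2 V → ℕ}
    (hw : ∀ X ⊆ S, X.Nonempty → esum w X + 2 * k ≤ 2 * k * X.card)
    (hN : ∀ x ∈ S, x ≠ v → 0 < w s(v, x) → x = u ∨ x = t)
    (hu : u ∈ S.erase v) (ht : t ∈ S.erase v)
    (hut : u ≠ t) {τ : ℕ} (hτ : w s(v, u) + w s(v, t) = 2 * k + τ) (hodd : τ % 2 = 1)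
    (hα : w s(v, u) % 2 = 1) (h0 : w s(u, t) % 2 = 0)
    {σ' : Sym2 V → Sym2 V} {w' : Sym2 V → ℕ}
    (hw' : w' = Function.update w s(u, t) (w s(u, t) + τ))
    (hσ' : ∀ e ∈ (S.erase v).sym2, w' e % 2 = 1 →
      σ' e ∈ (S.erase v).sym2 ∧ w' (σ' e) % 2 = 1 ∧ σ' (σ' e) = e)
    (ih : ∀ X ⊆ S.erase v, X.Nonempty → esum w' X + 2 * k + unm w' σ' X ≤ 2 * k * X.card) :
    ∃ σ : Sym2 V → Sym2 V,
      (∀ e ∈ S.sym2, w e % 2 = 1 → σ e ∈ S.sym2 ∧ w (σ e) % 2 = 1 ∧ σ (σ e) = e) ∧
      ∀ X ⊆ S, X.Nonempty → esum w X + 2 * k + unm w σ X ≤ 2 * k * X.card := by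
  obtain ⟨hvv, hle⟩ := star_le hvS hw
  have hnv : ∀ x : V, s(v, x) ∉ (S.erase v).sym2 := fun x => not_mem_star (notMem_erase v S)
  have he0 : s(u, t) ∈ (S.erase v).sym2 := Finset.mk_mem_sym2_iff.2 ⟨hu, ht⟩
  have huv : u ≠ v := fun h => notMem_erase v S (h ▸ hu)
  have htv : t ≠ v := fun h => notMem_erase v S (h ▸ ht)
  have hne : s(v, u) ≠ s(u, t) := fun h => hnv u (h ▸ he0)
  have hw0 : w' s(u, t) % 2 = 1 := by rw [hw', Function.update_self]; omega
  have hwe : ∀ e, e ≠ s(u, t) → w' e = w e := by
    intro e he; rw [hw', Function.update_of_ne he]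
  have hes : ∀ X, esum w' X = esum w X + (if u ∈ X ∧ t ∈ X then τ else 0) := by
    intro X; rw [hw']; exact esum_upd w X u t τ
  have hsub : ∀ e ∈ (S.erase v).sym2, e ∈ S.sym2 := fun e he => sym2_sub (erase_subset _ _) he
  have hcl : ∀ e ∈ S.sym2, w e % 2 = 1 → e = s(v, u) ∨ e ∈ (S.erase v).sym2 := by
    intro e he ho
    by_cases hve : v ∈ e
    · obtain ⟨x, rfl⟩ := Sym2.mem_iff_exists.1 hve
      left
      rw [Finset.mk_mem_sym2_iff] at he
      by_cases hxv : x = v
      · subst hxv; rw [hvv] at ho; omega
      · rcases hN x he.2 hxv (by omega) with h | h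
        · rw [h]
        · subst h; omega
    · right
      rw [Finset.mem_sym2_iff] at he ⊢
      exact fun a ha => mem_erase.2 ⟨fun h => hve (h ▸ ha), he a ha⟩
  obtain ⟨hgS, hgo, hgg⟩ := hσ' _ he0 hw0
  set g := σ' s(u, t) with hg
  let σ : Sym2 V → Sym2 V := fun e => if e = s(v, u) then (if g = s(u, t) then s(v, u) else g)
    else if e = g ∧ g ≠ s(u, t) then s(v, u) else σ' e
  have hne' : ∀ e ∈ (S.erase v).sym2, e ≠ s(v, u) := fun e he h => hnv u (h ▸ he)
  have hσ1 : σ s(v, u) = if g = s(u, t) then s(v, u) else g := if_pos rfl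
  have hσ2 : g ≠ s(u, t) → σ g = s(v, u) := by
    intro h
    show (if g = s(v, u) then _ else _) = _
    rw [if_neg (hne' g hgS), if_pos ⟨rfl, h⟩]
  have hσ3 : ∀ e, e ≠ s(v, u) → e ≠ g → σ e = σ' e := by
    intro e h1 h2
    show (if e = s(v, u) then _ else _) = _
    rw [if_neg h1, if_neg (fun h => h2 h.1)]
  refine ⟨σ, ?_, ?_⟩
  · intro e he ho
    rcases hcl e he ho with rfl | he'
    · rw [hσ1]
      by_cases h1 : g = s(u, t)
      · rw [if_pos h1, hσ1, if_pos h1]; exact ⟨he, ho, rfl⟩
      · rw [if_neg h1, hσ2 h1]
        exact ⟨hsub _ hgS, by rw [← hwe _ h1]; exact hgo, rfl⟩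
    · have h1 : e ≠ s(u, t) := by intro h; rw [h, h0] at ho; omega
      by_cases h2 : e = g
      · have h3 : g ≠ s(u, t) := h2 ▸ h1
        rw [h2, hσ2 h3, hσ1, if_neg h3]
        exact ⟨Finset.mk_mem_sym2_iff.2 ⟨hvS, erase_subset _ _ hu⟩, hα, rfl⟩
      · have h3 := hσ' e he' (by rw [hwe e h1]; exact ho)
        have h4 : σ' e ≠ g := by
          intro h
          have h5 : σ' (σ' e) = σ' g := by rw [h]
          rw [h3.2.2, hgg] at h5
          exact h1 h5
        have h5 : σ' e ≠ s(u, t) := by
          intro h
          have h6 : σ' (σ' e) = g := by rw [h]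
          rw [h3.2.2] at h6
          exact h2 h6
        rw [hσ3 e (hne' e he') h2, hσ3 _ (hne' _ h3.1) h4]
        refine ⟨hsub _ h3.1, ?_, h3.2.2⟩
        rw [← hwe _ h5]; exact h3.2.1
  · refine step_suff hvS hw ih (fun X hX _ => ?_) (fun X hX _ => ?_)
    · rw [hes X]
      have h1 : unm w σ X ≤ unm w' σ' X + (if u ∈ X ∧ t ∈ X then 1 else 0) := by
        unfold unm
        have : (X.sym2.filter (fun e => w e % 2 = 1 ∧ (σ e = e ∨ σ e ∉ X.sym2))) ⊆
            (X.sym2.filter (fun e => w' e % 2 = 1 ∧ (σ' e = e ∨ σ' e ∉ X.sym2))) ∪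
            (if u ∈ X ∧ t ∈ X then {g} else ∅) := by
          intro e he
          rw [mem_filter] at he
          obtain ⟨h1, h2, h3⟩ := he
          rw [mem_union]
          have h5 : e ≠ s(u, t) := by intro h; rw [h, h0] at h2; omega
          by_cases h4 : e = g
          · by_cases hb : u ∈ X ∧ t ∈ X
            · right
              rw [if_pos hb, h4]; exact mem_singleton_self _
            · left
              rw [mem_filter]
              refine ⟨h1, by rw [hwe e h5]; exact h2, Or.inr ?_⟩
              rw [h4, hgg, Finset.mk_mem_sym2_iff]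
              exact hb
          · left
            rw [hσ3 e (hne' e (sym2_sub hX h1)) h4] at h3
            rw [mem_filter]
            exact ⟨h1, by rw [hwe e h5]; exact h2, h3⟩
        refine le_trans (card_le_card this) (le_trans (card_union_le _ _) ?_)
        apply Nat.add_le_add_left
        split_ifs <;> simp
      split_ifs at h1 ⊢ <;> omega
    · have hvX : v ∉ X := fun h => notMem_erase v S (hX h)
      have hN' : ∀ x ∈ X, 0 < w s(v, x) → x = u ∨ x = t :=
        fun x hx h => hN x (erase_subset _ _ (hX hx)) (fun h' => hvX (h' ▸ hx)) h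
      rw [esum_ins w hvX, hvv, hes X]
      have hXS : insert v X ⊆ S := by
        intro x hx
        rcases mem_insert.1 hx with rfl | hx
        · exact hvS
        · exact erase_subset _ _ (hX hx)
      -- non-star bad elements
      have hns : ∀ e ∈ (insert v X).sym2, w e % 2 = 1 → (σ e = e ∨ σ e ∉ (insert v X).sym2) →
          e ≠ s(v, u) → (e ∈ (X.sym2.filter
            (fun e => w' e % 2 = 1 ∧ (σ' e = e ∨ σ' e ∉ X.sym2)))) ∧ e ≠ s(u, t) := by
        intro e h1 h2 h3 h4
        have h5 : e ≠ s(u, t) := by intro h; rw [h, h0] at h2; omega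
        have h6 : e ∈ (S.erase v).sym2 := (hcl e (sym2_sub hXS h1) h2).resolve_left h4
        have h7 : e ∈ X.sym2 := by
          rw [Finset.mem_sym2_iff] at h1 h6 ⊢
          intro a ha
          rcases mem_insert.1 (h1 a ha) with h8 | h8
          · exact absurd h8 (mem_erase.1 (h6 a ha)).1
          · exact h8
        refine ⟨?_, h5⟩
        rw [mem_filter]
        refine ⟨h7, by rw [hwe e h5]; exact h2, ?_⟩
        by_cases h8 : e = g
        · have h9 : g ≠ s(u, t) := h8 ▸ h5
          rw [h8, hσ2 h9] at h3
          right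
          rw [h8, hgg]
          intro h10
          rw [Finset.mk_mem_sym2_iff] at h10
          rcases h3 with h3 | h3
          · exact hne' g hgS h3.symm
          · apply h3
            rw [Finset.mk_mem_sym2_iff]
            exact ⟨mem_insert_self _ _, mem_insert_of_mem h10.1⟩
        · rw [hσ3 e h4 h8] at h3
          rcases h3 with h3 | h3
          · exact Or.inl h3
          · exact Or.inr (fun h10 => h3 (sym2_sub (subset_insert _ _) h10))
      have h2k := hle u (erase_subset _ _ hu)
      by_cases huX : u ∈ X
      · by_cases htX : t ∈ X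
        · have h3 := dsum_both hut hN' huX htX
          rw [if_pos ⟨huX, htX⟩]
          have h1 : unm w σ (insert v X) ≤ unm w' σ' X := by
            unfold unm
            by_cases hb : g = s(u, t) ∨ g ∉ (insert v X).sym2
            · -- e0 is bad for σ'
              have hbad : s(u, t) ∈ (X.sym2.filter
                  (fun e => w' e % 2 = 1 ∧ (σ' e = e ∨ σ' e ∉ X.sym2))) := by
                rw [mem_filter]
                refine ⟨Finset.mk_mem_sym2_iff.2 ⟨huX, htX⟩, hw0, ?_⟩
                rcases hb with hb | hb
                · exact Or.inl hb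
                · exact Or.inr (fun h => hb (sym2_sub (subset_insert _ _) h))
              have hsubs : ((insert v X).sym2.filter
                  (fun e => w e % 2 = 1 ∧ (σ e = e ∨ σ e ∉ (insert v X).sym2))) ⊆
                  insert s(v, u) ((X.sym2.filter
                    (fun e => w' e % 2 = 1 ∧ (σ' e = e ∨ σ' e ∉ X.sym2))).erase s(u, t)) := by
                intro e he
                rw [mem_filter] at he
                rw [mem_insert]
                by_cases h4 : e = s(v, u)
                · exact Or.inl h4
                · have h5 := hns e he.1 he.2.1 he.2.2 h4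
                  exact Or.inr (mem_erase.2 ⟨h5.2, h5.1⟩)
              have h6 := card_le_card hsubs
              have h7 := card_insert_le s(v, u) ((X.sym2.filter
                    (fun e => w' e % 2 = 1 ∧ (σ' e = e ∨ σ' e ∉ X.sym2))).erase s(u, t))
              have h8 := card_erase_add_one hbad
              omega
            · rw [not_or, not_not] at hb
              apply card_le_card
              intro e he
              rw [mem_filter] at he
              by_cases h4 : e = s(v, u)
              · exfalso
                have h5 := he.2.2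
                rw [h4, hσ1, if_neg hb.1] at h5
                rcases h5 with h5 | h5
                · exact hne' g hgS h5
                · exact h5 hb.2
              · exact (hns e he.1 he.2.1 he.2.2 h4).1
          omega
        · have h3 := dsum_u hN' huX htX
          rw [if_neg (fun h => htX h.2)]
          have h1 : unm w σ (insert v X) ≤ unm w' σ' X + 1 := by
            unfold unm
            have hsubs : ((insert v X).sym2.filter
                (fun e => w e % 2 = 1 ∧ (σ e = e ∨ σ e ∉ (insert v X).sym2))) ⊆
                insert s(v, u) (X.sym2.filter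
                  (fun e => w' e % 2 = 1 ∧ (σ' e = e ∨ σ' e ∉ X.sym2))) := by
              intro e he
              rw [mem_filter] at he
              rw [mem_insert]
              by_cases h4 : e = s(v, u)
              · exact Or.inl h4
              · exact Or.inr (hns e he.1 he.2.1 he.2.2 h4).1
            exact le_trans (card_le_card hsubs) (card_insert_le _ _)
          omega
      · have h3 := dsum_le hN' (fun x hx => hle x (erase_subset _ _ (hX hx)))
          (fun h => huX h.1)
        rw [if_neg (fun h => huX h.1)]
        have h1 : unm w σ (insert v X) ≤ unm w' σ' X := by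
          unfold unm
          apply card_le_card
          intro e he
          rw [mem_filter] at he
          by_cases h4 : e = s(v, u)
          · exfalso
            have h5 := he.1
            rw [h4, Finset.mk_mem_sym2_iff] at h5
            rcases mem_insert.1 h5.2 with h6 | h6
            · exact huv h6
            · exact huX h6
          · exact (hns e he.1 he.2.1 he.2.2 h4).1
        omega

end Pool.Agent.T2h30.KA.SP

namespace Pool.Agent.T2h30.KA
open Finset SP

theorem t_SP : S_SP := by
  intro V _ adj S hsymm hTW
  induction hTW with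
  | empty =>
    intro k w _ _
    refine ⟨id, ?_, ?_⟩
    · intro e he; simp at he
    · intro X hX hne
      obtain ⟨x, hx⟩ := hne
      exact absurd (hX hx) (notMem_empty x)
  | step S v u t hvS hN hadj _ IH =>
    intro k w hwadj hw
    obtain ⟨hvv, hle⟩ := star_le hvS hw
    have hN2 : ∀ x ∈ S, x ≠ v → 0 < w s(v, x) → x = u ∨ x = t := by
      intro x hx hxv h
      exact hN x hx hxv (hwadj v hvS x hx (fun h' => hxv h'.symm) h)
    by_cases hd : ∑ x ∈ S.erase v, w s(v, x) ≤ 2 * k
    · obtain ⟨σ', h1, h2⟩ := IH k w
        (fun x hx y hy => hwadj x (erase_subset _ _ hx) y (erase_subset _ _ hy))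
        (fun X hX => hw X (hX.trans (erase_subset _ _)))
      exact caseA hvS hw hN2 hd h1 h2
    · -- both neighbours are present
      have hN3 : ∀ x ∈ S.erase v, 0 < w s(v, x) → x = u ∨ x = t :=
        fun x hx => hN2 x (erase_subset _ _ hx) (ne_of_mem_erase hx)
      have hle' : ∀ x ∈ S.erase v, w s(v, x) ≤ 2 * k := fun x hx => hle x (erase_subset _ _ hx)
      have hb : u ∈ S.erase v ∧ t ∈ S.erase v := by
        by_contra h
        exact hd (dsum_le hN3 hle' h)
      obtain ⟨hu, ht⟩ := hb
      have hut : u ≠ t := by
        intro h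
        subst h
        apply hd
        have : ∑ x ∈ S.erase v, w s(v, x) = w s(v, u) := by
          rw [← add_sum_erase _ _ hu, sum_eq_zero, add_zero]
          intro x hx
          rw [mem_erase] at hx
          by_contra h
          rcases hN3 x hx.2 (Nat.pos_of_ne_zero h) with h1 | h1 <;> exact hx.1 h1
        rw [this]; exact hle' u hu
      have hsum := dsum_both hut hN3 hu ht
      have hupos : 0 < w s(v, u) := by
        have := hle' t ht
        omega
      have htpos : 0 < w s(v, t) := by
        have := hle' u hu
        omega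
      have huv : u ≠ v := ne_of_mem_erase hu
      have htv : t ≠ v := ne_of_mem_erase ht
      have huS : u ∈ S := erase_subset _ _ hu
      have htS : t ∈ S := erase_subset _ _ ht
      have hadjut : adj u t := hadj huS htS hut huv htv
        (hwadj v hvS u huS (fun h => huv h.symm) hupos)
        (hwadj v hvS t htS (fun h => htv h.symm) htpos)
      obtain ⟨τ, hτ⟩ : ∃ τ, w s(v, u) + w s(v, t) = 2 * k + τ :=
        ⟨w s(v, u) + w s(v, t) - 2 * k, by omega⟩
      obtain ⟨σ', h1, h2⟩ := IH k (Function.update w s(u, t) (w s(u, t) + τ))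
        (by
          intro x hx y hy hxy h
          by_cases he : s(x, y) = s(u, t)
          · rw [Sym2.eq_iff] at he
            rcases he with ⟨rfl, rfl⟩ | ⟨rfl, rfl⟩
            · exact hadjut
            · exact hsymm _ _ hadjut
          · rw [Function.update_of_ne he] at h
            exact hwadj x (erase_subset _ _ hx) y (erase_subset _ _ hy) hxy h)
        (by
          intro X hX hne
          rw [esum_upd]
          by_cases hb : u ∈ X ∧ t ∈ X
          · rw [if_pos hb]
            have hvX : v ∉ X := fun h => notMem_erase v S (hX h)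
            have h3 := hw (insert v X) (by
              intro x hx
              rcases mem_insert.1 hx with rfl | hx
              · exact hvS
              · exact erase_subset _ _ (hX hx)) (insert_nonempty _ _)
            rw [esum_ins w hvX, hvv, card_insert_of_notMem hvX,
              dsum_both hut (fun x hx h => hN3 x (hX hx) h) hb.1 hb.2, mul_add] at h3
            omega
          · rw [if_neg hb]
            exact hw X (hX.trans (erase_subset _ _)) hne)
      by_cases hev : τ % 2 = 0
      · exact caseB1 hvS hw hN2 hut hτ hev rfl h1 h2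
      · have hodd : τ % 2 = 1 := by omega
        by_cases hα : w s(v, u) % 2 = 1
        · by_cases h0 : w s(u, t) % 2 = 1
          · exact caseB2i hvS hw hN2 hu ht hut hτ hodd hα h0 rfl h1 h2
          · exact caseB2ii hvS hw hN2 hu ht hut hτ hodd hα (by omega) rfl h1 h2
        · have hβ : w s(v, t) % 2 = 1 := by omega
          have hst : s(u, t) = s(t, u) := Sym2.eq_swap
          have hN4 : ∀ x ∈ S, x ≠ v → 0 < w s(v, x) → x = t ∨ x = u :=
            fun x hx hxv h => (hN2 x hx hxv h).symm
          have hτ' : w s(v, t) + w s(v, u) = 2 * k + τ := by omega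
          by_cases h0 : w s(u, t) % 2 = 1
          · exact caseB2i hvS hw hN4 ht hu (fun h => hut h.symm) hτ' hodd hβ (hst ▸ h0)
              (by rw [hst]) h1 h2
          · exact caseB2ii hvS hw hN4 ht hu (fun h => hut h.symm) hτ' hodd hβ
              (by rw [← hst]; omega) (by rw [hst]) h1 h2

end Pool.Agent.T2h30.KA
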