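import Mathlib
import Pool.Agent.T2h30.KA.Defs

set_option autoImplicit false

namespace Pool.Agent.T2h30.KA

open Finset

theorem t_COL1 : S_COL1 := by
  intro A V _ _ f O
  induction O using Finset.strongInduction with
  | H O ih =>
    intro hev
    rcases O.eq_empty_or_nonempty with rfl | ⟨a, ha⟩
    · exact ⟨id, fun a ha => absurd ha (notMem_empty a)⟩
    have hmem : a ∈ O.filter (fun x => f x = f a) := mem_filter.2 ⟨ha, rfl⟩
    obtain ⟨b, hb, hba⟩ : ∃ b ∈ O.filter (fun x => f x = f a), b ≠ a := by
      have h2 : 0 < (O.filter (fun x => f x = f a)).card := card_pos.2 ⟨a, hmem⟩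
      have h3 : 1 < (O.filter (fun x => f x = f a)).card := by
        obtain ⟨r, hr⟩ := hev (f a)
        omega
      exact exists_mem_ne h3 a
    rw [mem_filter] at hb
    obtain ⟨hbO, hfb⟩ := hb
    have hss : (O.erase a).erase b ⊂ O :=
      lt_of_le_of_lt (erase_subset _ _) (erase_ssubset ha)
    have hev' : ∀ v, Even (((O.erase a).erase b).filter (fun x => f x = v)).card := by
      intro v
      rw [filter_erase, filter_erase]
      by_cases hv : f a = v
      · have h1 : a ∈ O.filter (fun x => f x = v) := mem_filter.2 ⟨ha, hv⟩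
        have h2 : b ∈ (O.filter (fun x => f x = v)).erase a :=
          mem_erase.2 ⟨hba, mem_filter.2 ⟨hbO, hfb.trans hv⟩⟩
        rw [card_erase_of_mem h2, card_erase_of_mem h1]
        obtain ⟨r, hr⟩ := hev v
        refine ⟨r - 1, ?_⟩
        omega
      · have h1 : a ∉ O.filter (fun x => f x = v) := fun h => hv (mem_filter.1 h).2
        have h2 : b ∉ (O.filter (fun x => f x = v)).erase a := fun h =>
          hv (hfb.symm.trans (mem_filter.1 (mem_of_mem_erase h)).2)
        rw [erase_eq_of_notMem h2, erase_eq_of_notMem h1]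
        exact hev v
    obtain ⟨P, hP⟩ := ih _ hss hev'
    refine ⟨fun x => if x = a then b else if x = b then a else P x, fun x hx => ?_⟩
    by_cases hxa : x = a
    · subst hxa
      simp only [if_true, hba, if_false]
      exact ⟨hbO, trivial, hba, hfb⟩
    by_cases hxb : x = b
    · subst hxb
      simp only [hxa, if_false, if_true]
      exact ⟨ha, trivial, Ne.symm hxa, hfb.symm⟩
    have hx' : x ∈ (O.erase a).erase b := mem_erase.2 ⟨hxb, mem_erase.2 ⟨hxa, hx⟩⟩
    obtain ⟨h1, h2, h3, h4⟩ := hP x hx'
    have h5 : P x ≠ a := fun h => by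
      rw [h] at h1
      exact (mem_erase.1 (mem_of_mem_erase h1)).1 rfl
    have h6 : P x ≠ b := fun h => by
      rw [h] at h1
      exact (mem_erase.1 h1).1 rfl
    simp only [hxa, hxb, h5, h6, if_false]
    exact ⟨mem_of_mem_erase (mem_of_mem_erase h1), h2, h3, h4⟩

end Pool.Agent.T2h30.KA
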