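import Pool.Agent.T2h30.KA.Defs

/-! COL2: alternating colouring of two involutions -/

set_option autoImplicit false

namespace Pool.Agent.T2h30.KA

open Finset

theorem t_COL2 : S_COL2 := by
  intro A _ O
  induction O using Finset.strongInduction with
  | H O ih =>
    intro P μ hP hμ
    rcases O.eq_empty_or_nonempty with h | ⟨a0, ha0⟩
    · subst h
      exact ⟨fun _ => 0, fun a ha => absurd ha (notMem_empty a), fun _ _ => rfl,
        fun a ha => absurd ha (notMem_empty a), fun a ha => absurd ha (notMem_empty a)⟩
    · by_cases hB : ∃ a ∈ O, μ a ≠ a ∧ μ a ≠ P a
      · obtain ⟨a, ha, hμa, hμP⟩ := hB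
        -- names
        obtain ⟨b, hb⟩ : ∃ b, b = μ a := ⟨_, rfl⟩
        obtain ⟨c, hc⟩ : ∃ c, c = P a := ⟨_, rfl⟩
        obtain ⟨d, hd⟩ : ∃ d, d = P b := ⟨_, rfl⟩
        have hbO : b ∈ O := by rw [hb]; exact (hμ a ha).1
        have hμb : μ b = a := by rw [hb]; exact (hμ a ha).2
        have hba : b ≠ a := by rw [hb]; exact hμa
        have hbc : b ≠ c := by rw [hb, hc]; exact hμP
        have hcO : c ∈ O := by rw [hc]; exact (hP a ha).1
        have hPc : P c = a := by rw [hc]; exact (hP a ha).2.1
        have hca : c ≠ a := by rw [hc]; exact (hP a ha).2.2
        have hdO : d ∈ O := by rw [hd]; exact (hP b hbO).1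
        have hPd : P d = b := by rw [hd]; exact (hP b hbO).2.1
        have hdb : d ≠ b := by rw [hd]; exact (hP b hbO).2.2
        have hda : d ≠ a := by
          intro h
          have : P d = P a := by rw [h]
          rw [hPd, ← hc] at this
          exact hbc this
        have hcd : c ≠ d := by
          intro h
          have : P c = P d := by rw [h]
          rw [hPc, hPd] at this
          exact hba this.symm
        set O' := (O.erase a).erase b with hO'
        have hmem : ∀ x, x ∈ O' ↔ x ≠ b ∧ x ≠ a ∧ x ∈ O := fun x => by
          rw [hO', mem_erase, mem_erase]
        have hss : O' ⊂ O := by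
          refine ⟨fun x hx => ((hmem x).1 hx).2.2, fun h => ?_⟩
          exact ((hmem a).1 (h ha)).2.1 rfl
        have hcO' : c ∈ O' := (hmem c).2 ⟨hbc.symm, hca, hcO⟩
        have hdO' : d ∈ O' := (hmem d).2 ⟨hdb, hda, hdO⟩
        -- other points
        have hoth : ∀ x ∈ O', x ≠ c → x ≠ d → P x ∈ O' ∧ P x ≠ c ∧ P x ≠ d := by
          intro x hx hxc hxd
          obtain ⟨q1, q2, q3⟩ := (hmem x).1 hx
          obtain ⟨p1, p2, p3⟩ := hP x q3
          refine ⟨(hmem _).2 ⟨?_, ?_, p1⟩, ?_, ?_⟩
          · intro h
            rw [h, ← hd] at p2
            exact hxd p2.symm
          · intro h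
            rw [h, ← hc] at p2
            exact hxc p2.symm
          · intro h
            rw [h, hPc] at p2
            exact q2 p2.symm
          · intro h
            rw [h, hPd] at p2
            exact q1 p2.symm
        obtain ⟨z, hz1, hz2, hz3, hz4⟩ := ih O' hss
          (fun x => if x = c then d else if x = d then c else P x) μ
          (by
            intro x hx
            by_cases hxc : x = c
            · subst hxc
              simp only [if_true, if_neg hcd.symm]
              exact ⟨hdO', trivial, hcd.symm⟩
            · by_cases hxd : x = d
              · subst hxd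
                simp only [if_neg hxc, if_true]
                exact ⟨hcO', trivial, hcd⟩
              · obtain ⟨p1, p2, p3⟩ := hoth x hx hxc hxd
                obtain ⟨q1, q2, q3⟩ := (hmem x).1 hx
                simp only [if_neg hxc, if_neg hxd, if_neg p2, if_neg p3]
                exact ⟨p1, (hP x q3).2.1, (hP x q3).2.2⟩)
          (by
            intro x hx
            obtain ⟨q1, q2, q3⟩ := (hmem x).1 hx
            obtain ⟨p1, p2⟩ := hμ x q3
            refine ⟨(hmem _).2 ⟨?_, ?_, p1⟩, p2⟩
            · intro h
              rw [h, hμb] at p2
              exact q2 p2.symm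
            · intro h
              rw [h, ← hb] at p2
              exact q1 p2.symm)
        have hzcd : z d = - z c := by
          have := hz3 c hcO'
          simpa using this
        refine ⟨fun x => if x = a then - z c else if x = b then z c else z x, ?_, ?_, ?_, ?_⟩
        · intro x hx
          by_cases hxa : x = a
          · simp only [if_pos hxa]
            rcases hz1 c hcO' with h | h
            · right; rw [h]
            · left; rw [h]; norm_num
          · by_cases hxb : x = b
            · simp only [if_neg hxa, if_pos hxb]
              exact hz1 c hcO'
            · simp only [if_neg hxa, if_neg hxb]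
              exact hz1 x ((hmem x).2 ⟨hxb, hxa, hx⟩)
        · intro x hx
          have hxa : x ≠ a := fun h => hx (h ▸ ha)
          have hxb : x ≠ b := fun h => hx (h ▸ hbO)
          simp only [if_neg hxa, if_neg hxb]
          exact hz2 x fun h => hx ((hmem x).1 h).2.2
        · intro x hx
          by_cases hxa : x = a
          · subst hxa
            rw [← hc]
            simp only [if_neg hca, if_neg hbc.symm, if_true]
            ring
          · by_cases hxb : x = b
            · subst hxb
              rw [← hd]
              simp only [if_neg hda, if_neg hdb, if_true, if_neg hxa]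
              exact hzcd
            · have hx' := (hmem x).2 ⟨hxb, hxa, hx⟩
              by_cases hxc : x = c
              · subst hxc
                rw [hPc]
                simp only [if_true, if_neg hxa, if_neg hxb]
              · by_cases hxd : x = d
                · subst hxd
                  rw [hPd]
                  simp only [if_true, if_neg hxa, if_neg hxb, if_neg hba]
                  rw [hzcd]
                  ring
                · obtain ⟨p1, p2, p3⟩ := hoth x hx' hxc hxd
                  obtain ⟨q1, q2, q3⟩ := (hmem _).1 p1
                  simp only [if_neg hxa, if_neg hxb, if_neg q1, if_neg q2]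
                  have := hz3 x hx'
                  simp only [if_neg hxc, if_neg hxd] at this
                  exact this
        · intro x hx hne
          by_cases hxa : x = a
          · subst hxa
            rw [← hb]
            simp only [if_true, if_neg hba]
            ring
          · by_cases hxb : x = b
            · subst hxb
              rw [hμb]
              simp only [if_true, if_neg hxa]
            · have hx' := (hmem x).2 ⟨hxb, hxa, hx⟩
              obtain ⟨p1, p2⟩ := hμ x hx
              have q2 : μ x ≠ a := by
                intro h
                rw [h, ← hb] at p2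
                exact hxb p2.symm
              have q1 : μ x ≠ b := by
                intro h
                rw [h, hμb] at p2
                exact hxa p2.symm
              simp only [if_neg hxa, if_neg hxb, if_neg q1, if_neg q2]
              exact hz4 x hx' hne
      · -- every orbit of `μ` is contained in one of `P`
        push Not at hB
        obtain ⟨a, ha⟩ : ∃ a, a = a0 := ⟨_, rfl⟩
        have haO : a ∈ O := by rw [ha]; exact ha0
        obtain ⟨b, hb⟩ : ∃ b, b = P a := ⟨_, rfl⟩
        have hbO : b ∈ O := by rw [hb]; exact (hP a haO).1
        have hPb : P b = a := by rw [hb]; exact (hP a haO).2.1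
        have hba : b ≠ a := by rw [hb]; exact (hP a haO).2.2
        set O' := (O.erase a).erase b with hO'
        have hmem : ∀ x, x ∈ O' ↔ x ≠ b ∧ x ≠ a ∧ x ∈ O := fun x => by
          rw [hO', mem_erase, mem_erase]
        have hss : O' ⊂ O := by
          refine ⟨fun x hx => ((hmem x).1 hx).2.2, fun h => ?_⟩
          exact ((hmem a).1 (h haO)).2.1 rfl
        have hPO' : ∀ x ∈ O', P x ∈ O' := by
          intro x hx
          obtain ⟨q1, q2, q3⟩ := (hmem x).1 hx
          obtain ⟨p1, p2, p3⟩ := hP x q3
          refine (hmem _).2 ⟨?_, ?_, p1⟩
          · intro h
            rw [h, hPb] at p2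
            exact q2 p2.symm
          · intro h
            rw [h, ← hb] at p2
            exact q1 p2.symm
        have hμO' : ∀ x ∈ O', μ x ∈ O' := by
          intro x hx
          obtain ⟨q1, q2, q3⟩ := (hmem x).1 hx
          by_cases h : μ x = x
          · rw [h]; exact hx
          · rw [hB x q3 h]
            exact hPO' x hx
        obtain ⟨z, hz1, hz2, hz3, hz4⟩ := ih O' hss P μ
          (fun x hx => ⟨hPO' x hx, (hP x ((hmem x).1 hx).2.2).2⟩)
          (fun x hx => ⟨hμO' x hx, (hμ x ((hmem x).1 hx).2.2).2⟩)
        have hPz : ∀ x ∈ O, (if P x = a then (1 : ℤ) else if P x = b then -1 else z (P x)) =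
            - (if x = a then (1 : ℤ) else if x = b then -1 else z x) := by
          intro x hx
          by_cases hxa : x = a
          · subst hxa
            rw [← hb]
            simp only [if_true, if_neg hba]
          · by_cases hxb : x = b
            · subst hxb
              rw [hPb]
              simp only [if_true, if_neg hba]
              norm_num
            · have hx' := (hmem x).2 ⟨hxb, hxa, hx⟩
              obtain ⟨q1, q2, q3⟩ := (hmem _).1 (hPO' x hx')
              simp only [if_neg hxa, if_neg hxb, if_neg q1, if_neg q2]
              exact hz3 x hx'
        refine ⟨fun x => if x = a then 1 else if x = b then -1 else z x, ?_, ?_, hPz, ?_⟩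
        · intro x hx
          by_cases hxa : x = a
          · left; simp only [if_pos hxa]
          · by_cases hxb : x = b
            · right; simp only [if_neg hxa, if_pos hxb]
            · simp only [if_neg hxa, if_neg hxb]
              exact hz1 x ((hmem x).2 ⟨hxb, hxa, hx⟩)
        · intro x hx
          have hxa : x ≠ a := fun h => hx (h ▸ haO)
          have hxb : x ≠ b := fun h => hx (h ▸ hbO)
          simp only [if_neg hxa, if_neg hxb]
          exact hz2 x fun h => hx ((hmem x).1 h).2.2
        · intro x hx hne
          rw [hB x hx hne]
          exact hPz x hx

end Pool.Agent.T2h30.KA
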