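import Pool.Agent.T2h30.KA.Defs
import Pool.Agent.H470R3.Edmonds

set_option autoImplicit false

/-!
# KA, task EDM (helper94): a Good set of arcs is the union of `k` disjoint arborescences
-/

namespace Pool.Agent.T2h30.KA

open Finset

theorem t_EDM : S_EDM := by
  intro V A _ _ _ _ tail head r0 k F hF
  rcases Nat.eq_zero_or_pos k with rfl | hk
  · exact ⟨fun j => j.elim0, fun j => j.elim0, fun j => j.elim0, fun j => j.elim0⟩
  have : Nonempty (Fin k) := ⟨⟨0, hk⟩⟩
  obtain ⟨h1, h2, h3⟩ := hF
  -- in-degrees
  have hdeg : ∀ v, v ≠ r0 → (F.filter fun a => head a = v).card = k := by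
    intro v hv
    have h4 := h1 v hv
    rw [← Finset.sum_filter, Finset.sum_const, smul_eq_mul, mul_one, Finset.filter_filter] at h4
    rw [← h4]
    congr 1
    ext a
    simp only [Finset.mem_filter, Finset.mem_univ, true_and]
    exact and_comm
  have hhead : ∀ a ∈ F, head a ≠ r0 := by
    intro a ha h4
    have h5 : (if a ∈ F then 1 else 0) = 0 := h2 a h4
    rw [if_pos ha] at h5
    exact one_ne_zero h5
  obtain ⟨c, hc⟩ := Pool.Agent.H470R3.edmonds head tail (fun _ : Fin k => ({r0} : Finset V)) F (by
    intro U hU
    by_cases h0 : r0 ∈ U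
    · have h4 : Pool.Agent.H470R3.miss (fun _ : Fin k => ({r0} : Finset V)) U = 0 := by
        rw [Pool.Agent.H470R3.miss, Finset.card_eq_zero, Finset.filter_eq_empty_iff]
        intro i _ h5
        exact (Finset.disjoint_singleton_left.1 h5) h0
      rw [h4]
      exact Nat.zero_le _
    · have h4 : Pool.Agent.H470R3.miss (fun _ : Fin k => ({r0} : Finset V)) U ≤ k := by
        rw [Pool.Agent.H470R3.miss]
        refine (Finset.card_filter_le _ _).trans ?_
        rw [Finset.card_univ, Fintype.card_fin]
      refine h4.trans ?_
      have h5 := h3 U hU h0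
      rw [inner, ← Finset.sum_filter, Finset.sum_const, smul_eq_mul, mul_one, Finset.filter_filter] at h5
      -- the arcs with head in `U`
      have h6 : (F.filter fun a => head a ∈ U).card = k * U.card := by
        rw [Finset.card_eq_sum_card_fiberwise (f := head) (t := U)]
        · rw [Finset.sum_congr rfl (g := fun _ => k)]
          · rw [Finset.sum_const, smul_eq_mul, mul_comm]
          · intro v hv
            rw [Finset.filter_filter, ← hdeg v (fun h => h0 (h ▸ hv))]
            congr 1
            ext a
            simp only [Finset.mem_filter]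
            constructor
            · rintro ⟨ha, -, h7⟩
              exact ⟨ha, h7⟩
            · rintro ⟨ha, h7⟩
              exact ⟨ha, h7 ▸ hv, h7⟩
        · intro a ha
          exact (Finset.mem_filter.1 (Finset.mem_coe.1 ha)).2
      have h7 : (F.filter fun a => head a ∈ U).card =
          (univ.filter fun a => (tail a ∈ U ∧ head a ∈ U) ∧ a ∈ F).card +
          (Pool.Agent.H470R3.cut head tail F U).card := by
        rw [Pool.Agent.H470R3.cut, ← Finset.card_filter_add_card_filter_not (s := F.filter fun a => head a ∈ U)
          (fun a => tail a ∈ U), Finset.filter_filter, Finset.filter_filter]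
        congr 2
        ext a
        simp only [Finset.mem_filter, Finset.mem_univ, true_and]
        tauto
      omega)
  have hB : ∀ (j : Fin k) (U : Finset V), U.Nonempty → r0 ∉ U →
      ∃ e ∈ F.filter (fun a => c a = j), head e ∈ U ∧ tail e ∉ U := by
    intro j U hU h0
    obtain ⟨e, he, hce, h4, h5⟩ := hc j U hU (Finset.disjoint_singleton_left.2 h0)
    exact ⟨e, Finset.mem_filter.2 ⟨he, hce⟩, h4, h5⟩
  refine ⟨fun j => F.filter fun a => c a = j, ?_, ?_, fun j => Finset.filter_subset _ _⟩
  · intro j
    refine ⟨?_, ?_, ?_⟩
    · intro a ha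
      exact hhead a (Finset.mem_filter.1 ha).1
    · intro v hv
      have hge : ∀ j' : Fin k, 1 ≤ ((F.filter fun a => head a = v).filter fun a => c a = j').card := by
        intro j'
        obtain ⟨e, he, h4, -⟩ := hB j' {v} (Finset.singleton_nonempty v)
          (fun h => hv (Finset.mem_singleton.1 h).symm)
        rw [Finset.mem_filter] at he
        exact Finset.card_pos.2 ⟨e, Finset.mem_filter.2 ⟨Finset.mem_filter.2 ⟨he.1, Finset.mem_singleton.1 h4⟩, he.2⟩⟩
      have hsum : ∑ j' : Fin k, ((F.filter fun a => head a = v).filter fun a => c a = j').card = k := by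
        exact (Finset.card_eq_sum_card_fiberwise (f := c) (t := univ)
          (fun a _ => Finset.mem_coe.2 (Finset.mem_univ _))).symm.trans (hdeg v hv)
      have hone : ((F.filter fun a => head a = v).filter fun a => c a = j).card = 1 := by
        by_contra hne
        have h4 : 1 < ((F.filter fun a => head a = v).filter fun a => c a = j).card := lt_of_le_of_ne (hge j) (Ne.symm hne)
        have h5 : ∑ j' : Fin k, 1 < ∑ j' : Fin k, ((F.filter fun a => head a = v).filter fun a => c a = j').card :=
          Finset.sum_lt_sum (fun j' _ => hge j') ⟨j, Finset.mem_univ _, h4⟩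
        rw [hsum, Finset.sum_const, Finset.card_univ, Fintype.card_fin, smul_eq_mul, mul_one] at h5
        exact lt_irrefl _ h5
      obtain ⟨a, ha⟩ := Finset.card_eq_one.1 hone
      have ha' : a ∈ (F.filter fun a => head a = v).filter fun a => c a = j := by
        rw [ha]
        exact Finset.mem_singleton_self a
      rw [Finset.mem_filter, Finset.mem_filter] at ha'
      refine ⟨a, ⟨Finset.mem_filter.2 ⟨ha'.1.1, ha'.2⟩, ha'.1.2⟩, ?_⟩
      rintro b ⟨hb, hbv⟩
      rw [Finset.mem_filter] at hb
      have hb' : b ∈ (F.filter fun a => head a = v).filter fun a => c a = j :=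
        Finset.mem_filter.2 ⟨Finset.mem_filter.2 ⟨hb.1, hbv⟩, hb.2⟩
      rw [ha] at hb'
      exact Finset.mem_singleton.1 hb'
    · intro v
      classical
      by_contra hv
      set U : Finset V := univ.filter fun w => ¬ Relation.ReflTransGen
        (fun x y : V => ∃ a ∈ F.filter (fun a => c a = j), tail a = x ∧ head a = y) r0 w with hU
      obtain ⟨e, he, h4, h5⟩ := hB j U ⟨v, Finset.mem_filter.2 ⟨Finset.mem_univ _, hv⟩⟩ (by
        intro h6
        exact (Finset.mem_filter.1 h6).2 Relation.ReflTransGen.refl)
      have h6 : Relation.ReflTransGen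
        (fun x y : V => ∃ a ∈ F.filter (fun a => c a = j), tail a = x ∧ head a = y) r0 (tail e) := by
        by_contra h7
        exact h5 (Finset.mem_filter.2 ⟨Finset.mem_univ _, h7⟩)
      exact (Finset.mem_filter.1 h4).2 (h6.tail ⟨e, he, rfl, rfl⟩)
  · intro j j' hjj'
    rw [Finset.disjoint_left]
    intro a ha ha'
    exact hjj' ((Finset.mem_filter.1 ha).2.symm.trans (Finset.mem_filter.1 ha').2)

end Pool.Agent.T2h30.KA
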