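import Mathlib
import Pool.Agent.T2h30.KA.Defs

set_option autoImplicit false

namespace Pool.Agent.T2h30.KA

open Finset

theorem t_ORD : S_ORD := by
  classical
  intro V _ adj ord S hsym
  induction S using Finset.strongInduction with
  | H S ih =>
    intro hinj hdeg hcl
    rcases S.eq_empty_or_nonempty with rfl | hne
    · exact TW2.empty
    obtain ⟨v, hv, hmin⟩ := S.exists_min_image ord hne
    have hlt : ∀ x ∈ S, x ≠ v → ord v < ord x := fun x hx hxv =>
      lt_of_le_of_ne (hmin x hx) fun h => hxv (hinj hx hv h.symm)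
    have hN : (S.filter (fun x => x ≠ v ∧ adj v x)).card ≤ 2 := by
      refine hdeg v hv _ (filter_subset _ _) fun x hx => ?_
      rw [mem_filter] at hx
      exact ⟨hlt x hx.1 hx.2.1, hx.2.2⟩
    obtain ⟨u, t, hut⟩ : ∃ u t, S.filter (fun x => x ≠ v ∧ adj v x) ⊆ {u, t} := by
      have h : (S.filter (fun x => x ≠ v ∧ adj v x)).card = 0 ∨
          (S.filter (fun x => x ≠ v ∧ adj v x)).card = 1 ∨
          (S.filter (fun x => x ≠ v ∧ adj v x)).card = 2 := by omega
      rcases h with h | h | h
      · rw [card_eq_zero] at h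
        exact ⟨v, v, by rw [h]; exact empty_subset _⟩
      · obtain ⟨u, hu⟩ := card_eq_one.1 h
        exact ⟨u, u, by rw [hu]; simp⟩
      · obtain ⟨u, t, -, hu⟩ := card_eq_two.1 h
        exact ⟨u, t, by rw [hu]⟩
    refine TW2.step S v u t hv ?_ ?_ (ih (S.erase v) (erase_ssubset hv) ?_ ?_ ?_)
    · intro x hx hxv hax
      have h := hut (mem_filter.2 ⟨hx, hxv, hax⟩)
      rwa [mem_insert, mem_singleton] at h
    · intro hu ht hut huv htv hau hat
      exact hcl v hv u hu t ht (hlt u hu huv) (hlt t ht htv) hau hat hut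
    · exact hinj.mono (by rw [coe_subset]; exact erase_subset _ _)
    · intro w hw T hT h
      exact hdeg w (mem_of_mem_erase hw) T (hT.trans (erase_subset _ _)) h
    · intro w hw x hx y hy
      exact hcl w (mem_of_mem_erase hw) x (mem_of_mem_erase hx) y (mem_of_mem_erase hy)

end Pool.Agent.T2h30.KA
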