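import Pool.Agent.T2h30.KA.Defs

/-! POT: decreasing the potential -/

set_option autoImplicit false

namespace Pool.Agent.T2h30.KA

open Finset

namespace POT

/-- the potential -/
def phi {A : Type} [Fintype A] {l : ℕ} (χ : Fin l → A → ℕ) : ℕ := ∑ i, ∑ a, χ i a ^ 2

theorem sq_le {x y p q : ℕ} (h : x + y = p + q) (h1 : x ≤ y + 1) (h2 : y ≤ x + 1) :
    x ^ 2 + y ^ 2 ≤ p ^ 2 + q ^ 2 := by
  zify at *
  rcases lt_trichotomy (x : ℤ) y with h3 | h3 | h3
  · have h4 : (y : ℤ) = x + 1 := by omega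
    have h5 : (q : ℤ) = 2 * x + 1 - p := by omega
    rw [h4, h5]
    rcases le_or_gt (p : ℤ) x with h6 | h6
    · nlinarith [mul_nonneg (show (0 : ℤ) ≤ x - p by omega) (show (0 : ℤ) ≤ x + 1 - p by omega)]
    · nlinarith [mul_nonneg (show (0 : ℤ) ≤ p - x - 1 by omega) (show (0 : ℤ) ≤ p - x by omega)]
  · have h5 : (q : ℤ) = 2 * x - p := by omega
    rw [← h3, h5]
    nlinarith [sq_nonneg ((x : ℤ) - p)]
  · have h4 : (x : ℤ) = y + 1 := by omega
    have h5 : (q : ℤ) = 2 * y + 1 - p := by omega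
    rw [h4, h5]
    rcases le_or_gt (p : ℤ) y with h6 | h6
    · nlinarith [mul_nonneg (show (0 : ℤ) ≤ y - p by omega) (show (0 : ℤ) ≤ y + 1 - p by omega)]
    · nlinarith [mul_nonneg (show (0 : ℤ) ≤ p - y - 1 by omega) (show (0 : ℤ) ≤ p - y by omega)]

theorem sq_lt {x y p : ℕ} (h : x + y = p + 0) (h1 : x ≤ y + 1) (h2 : y ≤ x + 1) (hp : 2 ≤ p) :
    x ^ 2 + y ^ 2 < p ^ 2 + 0 ^ 2 := by
  have hx : 1 ≤ x := by omega
  have hy : 1 ≤ y := by omega
  have hpp : p = x + y := by omega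
  rw [hpp]
  nlinarith [Nat.mul_le_mul hx hy]

end POT

theorem t_POT : S_POT := by
  intro V A _ _ _ _ tail head r0 k l hres χ hG hl
  -- families with the same sums
  let Q : ℕ → Prop := fun m => ∃ χ' : Fin l → A → ℕ, (∀ i, Good tail head r0 k (χ' i)) ∧
    (∀ a, ∑ i, χ' i a = ∑ i, χ i a) ∧ POT.phi χ' = m
  have hQ : ∃ m, Q m := ⟨POT.phi χ, χ, hG, fun _ => rfl, rfl⟩
  classical
  obtain ⟨χ', hG', hs', hm⟩ := Nat.find_spec hQ
  refine ⟨χ', hG', hs', fun i a0 => ?_⟩
  by_contra hbig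
  have hbig' : 2 ≤ χ' i a0 := by omega
  -- some other member vanishes at `a0`
  obtain ⟨j, hj⟩ : ∃ j, χ' j a0 = 0 := by
    by_contra hno
    push Not at hno
    have h1 : ∑ _j : Fin l, 1 < ∑ j, χ' j a0 := by
      refine sum_lt_sum (fun j _ => Nat.one_le_iff_ne_zero.2 (hno j)) ⟨i, mem_univ i, ?_⟩
      omega
    rw [hs' a0] at h1
    have h2 := hl a0
    simp at h1
    omega
  have hij : i ≠ j := by
    rintro rfl
    omega
  obtain ⟨x, y, hxy, hb, hGx, hGy⟩ := hres (χ' i) (χ' j) (hG' i) (hG' j)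
  let χ'' : Fin l → A → ℕ := Function.update (Function.update χ' i x) j y
  have e1 : χ'' i = x := by
    show Function.update (Function.update χ' i x) j y i = x
    rw [Function.update_of_ne hij, Function.update_self]
  have e2 : χ'' j = y := Function.update_self _ _ _
  have e3 : ∀ m, m ≠ i → m ≠ j → χ'' m = χ' m := fun m h1 h2 => by
    show Function.update (Function.update χ' i x) j y m = χ' m
    rw [Function.update_of_ne h2, Function.update_of_ne h1]
  -- sums over the family split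
  have hsplit : ∀ F : (A → ℕ) → ℕ, ∀ η : Fin l → A → ℕ, ∑ m, F (η m) =
      F (η i) + F (η j) + ∑ m ∈ (univ.erase i).erase j, F (η m) := by
    intro F η
    rw [← add_sum_erase univ (fun m => F (η m)) (mem_univ i),
      ← add_sum_erase (univ.erase i) (fun m => F (η m)) (mem_erase.2 ⟨hij.symm, mem_univ j⟩)]
    ring
  have hrest : ∀ F : (A → ℕ) → ℕ, ∑ m ∈ (univ.erase i).erase j, F (χ'' m) =
      ∑ m ∈ (univ.erase i).erase j, F (χ' m) := by
    intro F
    refine sum_congr rfl fun m hm => ?_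
    rw [mem_erase, mem_erase] at hm
    rw [e3 m hm.2.1 hm.1]
  have hG'' : ∀ m, Good tail head r0 k (χ'' m) := by
    intro m
    by_cases h1 : m = j
    · rw [h1, e2]; exact hGy
    · by_cases h2 : m = i
      · rw [h2, e1]; exact hGx
      · rw [e3 m h2 h1]; exact hG' m
  have hs'' : ∀ a, ∑ m, χ'' m a = ∑ m, χ m a := by
    intro a
    rw [← hs' a, hsplit (fun u => u a) χ'', hsplit (fun u => u a) χ', hrest (fun u => u a), e1, e2]
    have := hxy a
    omega
  have hphi : POT.phi χ'' < POT.phi χ' := by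
    unfold POT.phi
    rw [hsplit (fun u => ∑ a, u a ^ 2) χ'', hsplit (fun u => ∑ a, u a ^ 2) χ',
      hrest (fun u => ∑ a, u a ^ 2), e1, e2]
    have h1 : ∑ a, x a ^ 2 + ∑ a, y a ^ 2 < ∑ a, χ' i a ^ 2 + ∑ a, χ' j a ^ 2 := by
      rw [← sum_add_distrib, ← sum_add_distrib]
      refine sum_lt_sum (fun a _ => POT.sq_le (hxy a) (hb a).1 (hb a).2) ⟨a0, mem_univ a0, ?_⟩
      have h2 := hxy a0
      rw [hj] at h2 ⊢
      exact POT.sq_lt h2 (hb a0).1 (hb a0).2 hbig'
    omega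
  have hmin := Nat.find_min' hQ (m := POT.phi χ'') ⟨χ'', hG'', hs'', rfl⟩
  rw [← hm] at hmin
  omega

end Pool.Agent.T2h30.KA
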