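import Pool.Agent.T2h30.KA.T_START
import Pool.Agent.T2h30.KA.T_EDM
import Pool.Agent.T2h30.KA.T_COL1
import Pool.Agent.T2h30.KA.T_COL2
import Pool.Agent.T2h30.KA.T_SP
import Pool.Agent.T2h30.KA.T_MU
import Pool.Agent.T2h30.KA.T_TWO
import Pool.Agent.T2h30.KA.T_POT
import Pool.Agent.T2h30.KA.T_ORD

set_option autoImplicit false

/-!
Reduction to the strong components of `D - r0`, and the final assembly.
-/

namespace Pool.Agent.T2h30.KA.Scc

open Finset

variable {V A : Type} [Fintype V] [Fintype A] [DecidableEq V] [DecidableEq A]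

/-- the steps of `D - r0` -/
def St (tail head : A → V) (r0 : V) (x y : V) : Prop :=
  x ≠ r0 ∧ y ≠ r0 ∧ ∃ b, tail b = x ∧ head b = y

/-- `x` reaches `y` in `D - r0` -/
def Reach (tail head : A → V) (r0 : V) : V → V → Prop :=
  Relation.ReflTransGen (St tail head r0)

open Classical in
/-- the number of vertices which reach `v` -/
noncomputable def lev (tail head : A → V) (r0 : V) (v : V) : ℕ :=
  (univ.filter (fun w => Reach tail head r0 w v)).card

omit [Fintype A] [DecidableEq V] [DecidableEq A] in
theorem lev_le (tail head : A → V) (r0 : V) {a : A} (h1 : tail a ≠ r0) (h2 : head a ≠ r0) :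
    lev tail head r0 (tail a) ≤ lev tail head r0 (head a) := by
  classical
  unfold lev
  apply card_le_card
  intro w hw
  rw [mem_filter] at hw ⊢
  exact ⟨mem_univ _, hw.2.tail ⟨h1, h2, a, rfl, rfl⟩⟩

omit [Fintype A] [DecidableEq V] [DecidableEq A] in
theorem lev_eq (tail head : A → V) (r0 : V) {a : A} (h1 : tail a ≠ r0) (h2 : head a ≠ r0)
    (h : lev tail head r0 (tail a) = lev tail head r0 (head a)) :
    Reach tail head r0 (head a) (tail a) := by
  classical
  unfold lev at h
  have hsub : (univ.filter (fun w => Reach tail head r0 w (tail a))) ⊆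
      (univ.filter (fun w => Reach tail head r0 w (head a))) := by
    intro w hw
    rw [mem_filter] at hw ⊢
    exact ⟨mem_univ _, hw.2.tail ⟨h1, h2, a, rfl, rfl⟩⟩
  have heq := eq_of_subset_of_card_le hsub h.ge
  have hm : head a ∈ (univ.filter (fun w => Reach tail head r0 w (head a))) := by
    rw [mem_filter]; exact ⟨mem_univ _, Relation.ReflTransGen.refl⟩
  rw [← heq, mem_filter] at hm
  exact hm.2

/-- the tails of the arcs between different levels are moved to the root -/
def tail' (tail head : A → V) (r0 : V) (L : V → ℕ) (a : A) : V :=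
  if L (tail a) = L (head a) then tail a else r0

omit [Fintype V] in
theorem good_iff (tail head : A → V) (r0 : V) (L : V → ℕ)
    (hL : ∀ a, tail a ≠ r0 → head a ≠ r0 → L (tail a) ≤ L (head a)) (k : ℕ) (x : A → ℕ) :
    Good (tail' tail head r0 L) head r0 k x ↔ Good tail head r0 k x := by
  constructor
  · rintro ⟨h1, h2, h3⟩
    refine ⟨h1, h2, fun X hX hr => ?_⟩
    obtain ⟨v0, hv0, hmin⟩ := exists_min_image X L hX
    set X0 := X.filter (fun v => L v = L v0) with hX0
    have hX0n : X0.Nonempty := ⟨v0, by rw [hX0, mem_filter]; exact ⟨hv0, rfl⟩⟩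
    have hX0s : X0 ⊆ X := filter_subset _ _
    have hr0 : r0 ∉ X0 := fun h => hr (hX0s h)
    have h4 := h3 X0 hX0n hr0
    -- split the inner arcs by their heads
    have h5 : inner tail head x X ≤ inner (tail' tail head r0 L) head x X0 +
        ∑ v ∈ X \ X0, ∑ a ∈ univ.filter (fun a => head a = v), x a := by
      unfold inner
      have h6 : ∑ v ∈ X \ X0, ∑ a ∈ univ.filter (fun a => head a = v), x a =
          ∑ a ∈ univ.filter (fun a => head a ∈ X \ X0), x a := by
        rw [← sum_biUnion]
        · apply sum_congr _ (fun _ _ => rfl)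
          ext a
          simp
        · intro u _ v _ huv
          rw [Function.onFun, disjoint_left]
          intro a ha hb
          rw [mem_filter] at ha hb
          exact huv (ha.2.symm.trans hb.2)
      rw [h6]
      rw [← sum_filter_add_sum_filter_not (univ.filter (fun a => tail a ∈ X ∧ head a ∈ X))
        (fun a => head a ∈ X0)]
      apply Nat.add_le_add
      · apply sum_le_sum_of_subset
        intro a ha
        rw [filter_filter, mem_filter] at ha
        obtain ⟨-, ⟨h7, h8⟩, h9⟩ := ha
        rw [mem_filter]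
        have h10 : L (head a) = L v0 := (mem_filter.1 h9).2
        have h11 : tail a ≠ r0 := fun h => hr (h ▸ h7)
        have h12 : head a ≠ r0 := fun h => hr (h ▸ h8)
        have h13 := hL a h11 h12
        have h14 := hmin _ h7
        have h15 : L (tail a) = L (head a) := by omega
        have h16 : tail' tail head r0 L a = tail a := by
          unfold tail'; rw [if_pos h15]
        refine ⟨mem_univ _, ?_, h9⟩
        rw [h16, hX0, mem_filter]
        exact ⟨h7, by omega⟩
      · apply sum_le_sum_of_subset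
        intro a ha
        rw [filter_filter, mem_filter] at ha
        rw [mem_filter, mem_sdiff]
        exact ⟨mem_univ _, ha.2.1.2, ha.2.2⟩
    have h6 : ∑ v ∈ X \ X0, ∑ a ∈ univ.filter (fun a => head a = v), x a =
        k * (X \ X0).card := by
      rw [sum_congr rfl (fun v hv => h1 v (fun h => hr (h ▸ (mem_sdiff.1 hv).1))), sum_const,
        smul_eq_mul, mul_comm]
    have h7 : (X \ X0).card + X0.card = X.card := card_sdiff_add_card_eq_card hX0s
    rw [h6] at h5
    rw [← h7, mul_add]
    omega
  · rintro ⟨h1, h2, h3⟩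
    refine ⟨h1, h2, fun X hX hr => le_trans (Nat.add_le_add_right ?_ k) (h3 X hX hr)⟩
    unfold inner
    apply sum_le_sum_of_subset
    intro a ha
    rw [mem_filter] at ha ⊢
    refine ⟨mem_univ _, ?_, ha.2.2⟩
    have h4 : tail' tail head r0 L a = tail a := by
      unfold tail' at ha ⊢
      by_cases h : L (tail a) = L (head a)
      · rw [if_pos h]
      · rw [if_neg h] at ha
        exact absurd ha.2.1 hr
    rw [← h4]; exact ha.2.1

end Pool.Agent.T2h30.KA.Scc

namespace Pool.Agent.T2h30.KA

open Finset Scc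

theorem two_main : S_TWO := t_TWO t_SP t_MU t_COL1 t_COL2

/-- The conjecture when the arcs on directed cycles of `D - r0` form a graph of treewidth at most
two. -/
theorem main_scc (V A : Type) [Fintype V] [Fintype A] [DecidableEq V] [DecidableEq A]
    (tail head : A → V) (r0 : V) (c : A → ℕ) (k l : ℕ) (adj : V → V → Prop) (ord : V → ℕ)
    (hsym : ∀ x y, adj x y → adj y x) (hinj : Function.Injective ord)
    (hadj : ∀ a, tail a ≠ r0 → head a ≠ r0 → tail a ≠ head a →
      Reach tail head r0 (head a) (tail a) → adj (tail a) (head a))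
    (hdeg : ∀ v, v ≠ r0 → ∀ T : Finset V,
      (∀ x ∈ T, x ≠ r0 ∧ ord v < ord x ∧ adj v x) → T.card ≤ 2)
    (hcl : ∀ v x y, v ≠ r0 → x ≠ r0 → y ≠ r0 → ord v < ord x → ord v < ord y → adj v x →
      adj v y → x ≠ y → adj x y)
    (hc : ∀ a : A, c a ≤ l)
    (hex : ∃ T : Fin (k * l) → Finset A, (∀ i, IsArb tail head r0 (T i)) ∧
      ∀ a : A, (univ.filter (fun i => a ∈ T i)).card ≤ c a) :
    ∃ B : Fin l → Fin k → Finset A, (∀ i j, IsArb tail head r0 (B i j)) ∧
      (∀ i : Fin l, ∀ j j' : Fin k, j ≠ j' → Disjoint (B i j) (B i j')) ∧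
      ∀ a : A, (univ.filter (fun p : Fin l × Fin k => a ∈ B p.1 p.2)).card ≤ c a := by
  obtain ⟨T, hT1, hT2⟩ := hex
  have htw : TW2 adj (univ.erase r0) := by
    refine t_ORD V adj ord (univ.erase r0) hsym hinj.injOn ?_ ?_
    · intro v hv T hTs h
      exact hdeg v (ne_of_mem_erase hv) T fun x hx =>
        ⟨ne_of_mem_erase (hTs hx), (h x hx).1, (h x hx).2⟩
    · intro v hv x hx y hy h1 h2 h3 h4 h5
      exact hcl v x y (ne_of_mem_erase hv) (ne_of_mem_erase hx) (ne_of_mem_erase hy) h1 h2 h3 h4 h5
  have hres : ∀ x0 y0 : A → ℕ, Good tail head r0 k x0 → Good tail head r0 k y0 →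
      ∃ x y : A → ℕ, (∀ a, x a + y a = x0 a + y0 a) ∧ (∀ a, x a ≤ y a + 1 ∧ y a ≤ x a + 1) ∧
        Good tail head r0 k x ∧ Good tail head r0 k y := by
    intro x0 y0 hx hy
    have hL : ∀ a, tail a ≠ r0 → head a ≠ r0 →
        lev tail head r0 (tail a) ≤ lev tail head r0 (head a) := fun a => lev_le tail head r0
    obtain ⟨x, y, h1, h2, h3, h4⟩ := two_main V A adj
      (tail' tail head r0 (lev tail head r0)) head r0 k x0 y0 hsym htw
      (by
        intro a h1 h2 h3
        unfold tail' at h1 h3 ⊢
        by_cases h : lev tail head r0 (tail a) = lev tail head r0 (head a)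
        · rw [if_pos h] at h1 h3 ⊢
          exact hadj a h1 h2 h3 (lev_eq tail head r0 h1 h2 h)
        · rw [if_neg h] at h1
          exact absurd rfl h1)
      ((good_iff tail head r0 _ hL k x0).2 hx) ((good_iff tail head r0 _ hL k y0).2 hy)
    exact ⟨x, y, h1, h2, (good_iff tail head r0 _ hL k x).1 h3,
      (good_iff tail head r0 _ hL k y).1 h4⟩
  obtain ⟨χ, h1, h2⟩ := t_START V A tail head r0 c k l T hT1 hT2
  obtain ⟨χ', h3, h4, h5⟩ := t_POT V A tail head r0 k l hres χ h1
    (fun a => (h2 a).trans (hc a))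
  have hF : ∀ i, (fun a => if a ∈ univ.filter (fun a => χ' i a = 1) then 1 else 0) = χ' i := by
    intro i
    funext a
    have h6 := h5 i a
    by_cases h7 : χ' i a = 1
    · simp [h7]
    · have h8 : χ' i a = 0 := by omega
      simp [h8]
  choose B hB1 hB2 hB3 using fun i => t_EDM V A tail head r0 k (univ.filter (fun a => χ' i a = 1))
    (by rw [hF i]; exact h3 i)
  refine ⟨B, hB1, hB2, fun a => ?_⟩
  have hcount : ∀ i, (univ.filter (fun j : Fin k => a ∈ B i j)).card ≤ χ' i a := by
    intro i
    by_cases h7 : χ' i a = 1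
    · rw [h7, card_le_one]
      intro j hj j' hj'
      rw [mem_filter] at hj hj'
      by_contra hne
      exact Finset.disjoint_left.1 (hB2 i j j' hne) hj.2 hj'.2
    · have h8 : (univ.filter (fun j : Fin k => a ∈ B i j)) = ∅ := by
        rw [filter_eq_empty_iff]
        intro j _ hj
        exact h7 (mem_filter.1 (hB3 i j hj)).2
      rw [h8, card_empty]
      exact Nat.zero_le _
  calc (univ.filter (fun p : Fin l × Fin k => a ∈ B p.1 p.2)).card
      = ∑ i, (univ.filter (fun j : Fin k => a ∈ B i j)).card := by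
        rw [card_filter, Fintype.sum_prod_type]
        refine sum_congr rfl fun i _ => ?_
        rw [card_filter]
    _ ≤ ∑ i, χ' i a := sum_le_sum fun i _ => hcount i
    _ = ∑ i, χ i a := h4 a
    _ ≤ c a := h2 a

end Pool.Agent.T2h30.KA
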