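import Mathlib
import Pool.Agent.T2h30.KA.Defs

set_option autoImplicit false

namespace Pool.Agent.T2h30.KA

open Finset

theorem t_ASM (hS : S_START) (hE : S_EDM) (hT : S_TWO) (hP : S_POT) (hO : S_ORD) : S_MAIN := by
  intro V A _ _ _ _ tail head r0 c k l adj ord hsym hinj hadj hdeg hcl hc hex
  obtain ⟨T, hT1, hT2⟩ := hex
  have htw : TW2 adj (univ.erase r0) := by
    refine hO V adj ord (univ.erase r0) hsym hinj.injOn ?_ ?_
    · intro v hv T hTs h
      exact hdeg v (ne_of_mem_erase hv) T fun x hx =>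
        ⟨ne_of_mem_erase (hTs hx), (h x hx).1, (h x hx).2⟩
    · intro v hv x hx y hy h1 h2 h3 h4 h5
      exact hcl v x y (ne_of_mem_erase hv) (ne_of_mem_erase hx) (ne_of_mem_erase hy) h1 h2 h3 h4 h5
  obtain ⟨χ, h1, h2⟩ := hS V A tail head r0 c k l T hT1 hT2
  obtain ⟨χ', h3, h4, h5⟩ := hP V A tail head r0 k l
    (fun x0 y0 hx hy => hT V A adj tail head r0 k x0 y0 hsym htw hadj hx hy) χ h1
    (fun a => (h2 a).trans (hc a))
  have hF : ∀ i, (fun a => if a ∈ univ.filter (fun a => χ' i a = 1) then 1 else 0) = χ' i := by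
    intro i
    funext a
    have h6 := h5 i a
    by_cases h7 : χ' i a = 1
    · simp [h7]
    · have h8 : χ' i a = 0 := by omega
      simp [h8]
  choose B hB1 hB2 hB3 using fun i => hE V A tail head r0 k (univ.filter (fun a => χ' i a = 1))
    (by rw [hF i]; exact h3 i)
  refine ⟨B, hB1, hB2, fun a => ?_⟩
  have hcount : ∀ i, (univ.filter (fun j : Fin k => a ∈ B i j)).card ≤ χ' i a := by
    intro i
    by_cases h7 : χ' i a = 1
    · rw [h7, card_le_one]
      intro j hj j' hj'
      rw [mem_filter] at hj hj'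
      by_contra hne
      exact Finset.disjoint_left.1 (hB2 i j j' hne) hj.2 hj'.2
    · have h8 : (univ.filter (fun j : Fin k => a ∈ B i j)) = ∅ := by
        rw [filter_eq_empty_iff]
        intro j _ hj
        exact h7 (mem_filter.1 (hB3 i j hj)).2
      rw [h8, card_empty]
      exact Nat.zero_le _
  calc (univ.filter (fun p : Fin l × Fin k => a ∈ B p.1 p.2)).card
      = ∑ i, (univ.filter (fun j : Fin k => a ∈ B i j)).card := by
        rw [card_filter, Fintype.sum_prod_type]
        refine sum_congr rfl fun i _ => ?_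
        rw [card_filter]
    _ ≤ ∑ i, χ' i a := sum_le_sum fun i _ => hcount i
    _ = ∑ i, χ i a := h4 a
    _ ≤ c a := h2 a

end Pool.Agent.T2h30.KA
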