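import Pool.Agent.T2h30.KA.Defs

set_option autoImplicit false

/-!
# KA, task START (helper94): from a packing of `k * l` arborescences to `l` Good weight functions
-/

namespace Pool.Agent.T2h30.KA

open Finset

namespace START

variable {V A : Type}

/-- an arborescence enters every set which does not contain the root -/
theorem enters (tail head : A → V) (r0 : V) (T : Finset A) (hT : IsArb tail head r0 T)
    (X : Finset V) (hX : X.Nonempty) (h0 : r0 ∉ X) : ∃ a ∈ T, tail a ∉ X ∧ head a ∈ X := by
  obtain ⟨v, hv⟩ := hX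
  have h := hT.2.2 v
  by_contra hcon
  push Not at hcon
  have key : v ∉ X := by
    induction h with
    | refl => exact h0
    | tail _ h2 ih =>
      obtain ⟨a, ha, rfl, rfl⟩ := h2
      intro h3
      by_cases h4 : tail a ∈ X
      · exact ih h4 h4
      · exact hcon a ha h4 h3
  exact key hv

/-- an arborescence is Good with `k = 1` -/
theorem good_one [Fintype A] [DecidableEq V] [DecidableEq A] (tail head : A → V) (r0 : V) (T : Finset A) (hT : IsArb tail head r0 T) :
    Good tail head r0 1 (fun a => if a ∈ T then 1 else 0) := by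
  obtain ⟨h1, h2, h3⟩ := hT
  refine ⟨?_, ?_, ?_⟩
  · intro v hv
    obtain ⟨a, ⟨ha, hav⟩, huniq⟩ := h2 v hv
    rw [Finset.sum_eq_single a]
    · rw [if_pos ha]
    · intro b hb hba
      rw [Finset.mem_filter] at hb
      rw [if_neg]
      intro hbT
      exact hba (huniq b ⟨hbT, hb.2⟩)
    · intro h4
      exact absurd ((Finset.mem_filter (s := (univ : Finset A)) (p := fun a => head a = v)).2
        ⟨Finset.mem_univ a, hav⟩) h4
  · intro a ha
    exact if_neg fun haT => h1 a haT ha
  · intro X hX h0
    obtain ⟨a₀, ha₀, ht₀, hh₀⟩ := enters tail head r0 T ⟨h1, h2, h3⟩ X hX h0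
    rw [one_mul, inner, ← Finset.sum_filter, Finset.sum_const, smul_eq_mul, mul_one, Finset.filter_filter]
    set I := univ.filter (fun a => (tail a ∈ X ∧ head a ∈ X) ∧ a ∈ T) with hI
    have hnot : a₀ ∉ I := by
      rw [hI, Finset.mem_filter]
      rintro ⟨-, ⟨h4, -⟩, -⟩
      exact ht₀ h4
    rw [← Finset.card_insert_of_notMem hnot]
    refine Finset.card_le_card_of_injOn head ?_ ?_
    · intro a ha
      rw [Finset.mem_coe, Finset.mem_insert] at ha
      rcases ha with rfl | ha
      · exact hh₀
      · exact (Finset.mem_filter.1 ha).2.1.2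
    · have hinT : ∀ a ∈ insert a₀ I, a ∈ T := by
        intro a ha
        rw [Finset.mem_insert] at ha
        rcases ha with rfl | ha
        · exact ha₀
        · exact (Finset.mem_filter.1 ha).2.2
      intro a ha b hb hab
      have haT := hinT a (Finset.mem_coe.1 ha)
      have hbT := hinT b (Finset.mem_coe.1 hb)
      exact (h2 (head a) (h1 a haT)).unique ⟨haT, rfl⟩ ⟨hbT, hab.symm⟩

/-- sums of Good functions -/
theorem good_sum [Fintype A] [DecidableEq V] {J : Type} (tail head : A → V) (r0 : V) (s : Finset J)
    (x : J → A → ℕ) : (∀ j ∈ s, Good tail head r0 1 (x j)) →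
    Good tail head r0 s.card (fun a => ∑ j ∈ s, x j a) := by
  intro h
  refine ⟨?_, ?_, ?_⟩
  · intro v hv
    rw [Finset.sum_comm, Finset.sum_congr rfl fun j hj => (h j hj).1 v hv, Finset.sum_const, smul_eq_mul,
      mul_one]
  · intro a ha
    exact Finset.sum_eq_zero fun j hj => (h j hj).2.1 a ha
  · intro X hX h0
    have h1 : inner tail head (fun a => ∑ j ∈ s, x j a) X = ∑ j ∈ s, inner tail head (x j) X := by
      rw [inner, Finset.sum_comm]
      rfl
    have h2 : ∑ j ∈ s, (inner tail head (x j) X + 1) ≤ ∑ j ∈ s, 1 * X.card :=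
      Finset.sum_le_sum fun j hj => (h j hj).2.2 X hX h0
    rw [Finset.sum_add_distrib, Finset.sum_const, Finset.sum_const, smul_eq_mul, smul_eq_mul, mul_one,
      one_mul] at h2
    rw [h1]
    exact h2

end START

theorem t_START : S_START := by
  intro V A _ _ _ _ tail head r0 c k l T hT hc
  let e : Fin l × Fin k ≃ Fin (k * l) := finProdFinEquiv.trans (finCongr (mul_comm l k))
  refine ⟨fun i a => ∑ j : Fin k, if a ∈ T (e (i, j)) then 1 else 0, ?_, ?_⟩
  · intro i
    have h := START.good_sum tail head r0 (univ : Finset (Fin k))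
      (fun j a => if a ∈ T (e (i, j)) then 1 else 0)
      (fun j _ => START.good_one tail head r0 (T (e (i, j))) (hT _))
    rw [Finset.card_univ, Fintype.card_fin] at h
    exact h
  · intro a
    refine le_trans (le_of_eq ?_) (hc a)
    rw [Finset.card_filter, ← Fintype.sum_prod_type' (fun (i : Fin l) (j : Fin k) => if a ∈ T (e (i, j)) then 1 else 0)]
    exact Fintype.sum_equiv e _ _ fun p => rfl

end Pool.Agent.T2h30.KA
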